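import Pool.Agent.BRQ.Dd

/-!
# The main induction, refined: the exceptional set of places
-/

set_option autoImplicit false

noncomputable section

namespace Pool.Agent.BRQ

open Matrix Filter Topology NumberField IsDedekindDomain
open Pool.Agent.BR80
open Pool.Agent.CG2 (Pl Fv Ov)
open Pool.Agent.CGN (GQ GZ Idx HeckeAlg)

variable {F : Type} [Field F] [NumberField F] {n : ℕ} {S : Set (Pl F)} {O W : Type} [CommRing O]
  [AddCommGroup W] [Module O W] [UniformSpace W] [IsUniformAddGroup W] [CompleteSpace W]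
  [T2Space W] [NonarchimedeanAddGroup W] [ContinuousConstSMul O W]

/-- If the classes in degree `i ≤ n - 2` for `KT T` are not all killed by good operators, then the
eigenvalues at all places outside `S`, `T` and a set of at most `i` places are of the form
`deg_j χ^(j+1)`. -/
theorem main_triv (L : Lvl F n S O W) (p₀ : ℕ) (hp₀ : 0 < p₀)
    (hW : ∀ U : OpenAddSubgroup W, ∃ e : ℕ, ∀ w : W, p₀ ^ e • w ∈ U)
    (hT : ∀ q, q + 2 ≤ n → TwN (BRW.worldNF F W p₀ hp₀ hW) n q)
    (m : Ideal (HeckeAlg (F := F) n S O)) [m.IsPrime] (κ : Type) [Field κ]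
    [Algebra (HeckeAlg (F := F) n S O ⧸ m) κ] (i : ℕ) (hi : i + 2 ≤ n) :
    ∀ T : Finset (Pl F), (∀ w ∈ T, w ∉ S) → ¬ DeadM L.ctx (L.KT T)
      (fun r => Good m T (show MonoidAlgebra O (GA F n) from r)) i →
    ∃ T' : Finset (Pl F), T'.card ≤ i ∧ ∀ v : {v : Pl F // v ∉ S}, v.1 ∉ T → v.1 ∉ T' →
      Eig (fun t => CGN.eig m κ t) v := by
  classical
  induction i using Nat.strong_induction_on with
  | _ i ih =>
    intro T hTS hnd
    by_cases hall : ∀ v : {v : Pl F // v ∉ S}, v.1 ∉ T → Eig (fun t => CGN.eig m κ t) v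
    · exact ⟨∅, by simp, fun v hv _ => hall v hv⟩
    push Not at hall
    obtain ⟨v, hvT, hv⟩ := hall
    have hTS' : ∀ w ∈ insert v.1 T, w ∉ S := by
      intro w hw
      rcases Finset.mem_insert.1 hw with rfl | hw
      · exact v.2
      · exact hTS w hw
    -- some lower degree is not dead
    have hlow : ∃ j, j < i ∧ ¬ DeadM L.ctx (L.KT (insert v.1 T))
        (fun r => Good m (insert v.1 T) (show MonoidAlgebra O (GA F n) from r)) j := by
      by_contra hcon
      push Not at hcon
      apply hnd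
      intro D _ _ _ hD Z _ x hx
      by_contra hx'
      exact hv (step L (by omega) T hTS v.1 v.2 hvT i
        (ptriv_KT L (by omega) p₀ hp₀ hW i (fun j hj => hT j (by omega)) _ hTS' v.1
          (Finset.mem_insert_self _ _) i le_rfl) m κ hcon D Z hD x hx hx')
    obtain ⟨j, hj, hjd⟩ := hlow
    obtain ⟨T', hc, hT'⟩ := ih j hj (by omega) _ hTS' hjd
    refine ⟨insert v.1 T', (Finset.card_insert_le _ _).trans (by omega), fun w hwT hwT' => ?_⟩
    rw [Finset.mem_insert, not_or] at hwT'
    refine hT' w ?_ hwT'.2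
    rw [Finset.mem_insert, not_or]
    exact ⟨hwT'.1, hwT⟩

end Pool.Agent.BRQ
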