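import Pool.Agent.BRQ.Hk
import Pool.Agent.CGN.AGA
import Pool.Agent.CGN.GalArith
import Pool.Agent.CGN.ULHec
import Pool.Agent.CG2.LevelOC

/-!
# The Galois side
-/

set_option autoImplicit false

noncomputable section

namespace Pool.Agent.BRQ

open Matrix Filter Topology NumberField IsDedekindDomain
open Pool.Agent.CG2 (Pl Fv Ov GalF Fbar Zbar Over IsInertia IsFrob Nm)
open Pool.Agent.CGN (GQ GZ Idx HeckeAlg NonEis AttachedN FrobEq heckePol IsScal)
open Pool.Agent.CGQ (TrivMu HMu)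

variable {F : Type} [Field F] [NumberField F] {n : ℕ}

/- MODULE G1 -/
private theorem g1_den_empty {c : ℝ} (h : CG2.HasDen (∅ : Set (Pl F)) c) (hc : 0 < c) : False := by
  obtain ⟨C, hC⟩ := h
  have h0 : ∀ s : ℝ, CG2.Ds (∅ : Set (Pl F)) s = 0 := fun s => by
    unfold CG2.Ds
    exact tsum_empty
  -- s = 1 + exp(-(|C|+1)/c)
  have hx : 0 < (|C| + 1) / c := by positivity
  have h1 := hC (1 + Real.exp (-((|C| + 1) / c))) ⟨by
    have := Real.exp_pos (-((|C| + 1) / c))
    linarith, by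
    have : Real.exp (-((|C| + 1) / c)) ≤ 1 := Real.exp_le_one_iff.2 (by linarith)
    linarith⟩
  rw [h0, zero_sub, abs_neg, add_sub_cancel_left, one_div, ← Real.exp_neg, neg_neg, Real.log_exp,
    mul_div_cancel₀ _ hc.ne', abs_of_pos (by positivity)] at h1
  have := le_abs_self C
  linarith

/-- Every element is, up to conjugation, powers and the open normal subgroup `N`, a Frobenius element
outside `T` (`CG2.frob_density` for the set of the conjugates of the generators of the group generated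
by `s`; `CG2.nonempty_of_den`). -/
theorem exists_frob (N : Subgroup (GalF F)) [N.Normal] (hN : IsOpen (N : Set (GalF F)))
    (T : Set (Pl F)) (hT : T.Finite)
    (hun : ∀ v, v ∉ T → ∀ Q, Over v Q → ∀ σ : GalF F, IsInertia Q σ → σ ∈ N) (s : GalF F) :
    ∃ v, v ∉ T ∧ ∃ Q, Over v Q ∧ ∃ σ : GalF F, IsFrob v Q σ ∧ ∃ (g : GalF F) (a b : ℤ),
      (g * σ * g⁻¹)⁻¹ * s ^ a ∈ N ∧ s⁻¹ * (g * σ * g⁻¹) ^ b ∈ N := by
  classical
  let A : Set (GalF F ⧸ N) := {x | ∃ y : GalF F ⧸ N,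
    Subgroup.zpowers (y * x * y⁻¹) = Subgroup.zpowers (QuotientGroup.mk s : GalF F ⧸ N)}
  have hconj : ∀ (y x x' : GalF F ⧸ N), Subgroup.zpowers x = Subgroup.zpowers x' →
      Subgroup.zpowers (y * x * y⁻¹) = Subgroup.zpowers (y * x' * y⁻¹) := by
    intro y x x' h
    have h1 := congrArg (Subgroup.map (MulAut.conj y).toMonoidHom) h
    rw [MonoidHom.map_zpowers, MonoidHom.map_zpowers] at h1
    exact h1
  obtain ⟨hfin, hden⟩ := CG2.frob_density N hN T hT hun A
    (by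
      rintro x ⟨y, hy⟩ x' hx'
      exact ⟨y, (hconj y x' x hx').trans hy⟩)
    (by
      rintro x ⟨y, hy⟩ z
      refine ⟨y * z⁻¹, ?_⟩
      rw [← hy]
      congr 1
      group)
  have hAne : (QuotientGroup.mk s : GalF F ⧸ N) ∈ A := ⟨1, by simp⟩
  have hcard : (0 : ℝ) < (Nat.card A : ℝ) / Nat.card (GalF F ⧸ N) := by
    have h1 : 0 < Nat.card A := by
      have : Nonempty A := ⟨⟨_, hAne⟩⟩
      exact Nat.card_pos
    have h2 : 0 < Nat.card (GalF F ⧸ N) := Nat.card_pos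
    positivity
  have hne : {v : Pl F | v ∉ T ∧ ∃ Q, Over v Q ∧ ∃ σ : GalF F, IsFrob v Q σ ∧
        (QuotientGroup.mk σ : GalF F ⧸ N) ∈ A}.Nonempty := by
    rw [Set.nonempty_iff_ne_empty]
    intro h
    rw [h] at hden
    exact g1_den_empty hden hcard
  obtain ⟨v, hv, Q, hQ, σ, hσ, y, hy⟩ := hne
  obtain ⟨g, rfl⟩ := QuotientGroup.mk_surjective y
  refine ⟨v, hv, Q, hQ, σ, hσ, g, ?_⟩
  have e1 : (QuotientGroup.mk g : GalF F ⧸ N) * QuotientGroup.mk σ * (QuotientGroup.mk g)⁻¹ =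
      QuotientGroup.mk (g * σ * g⁻¹) := rfl
  rw [e1] at hy
  have h1 : (QuotientGroup.mk (g * σ * g⁻¹) : GalF F ⧸ N) ∈
      Subgroup.zpowers (QuotientGroup.mk s : GalF F ⧸ N) := by
    rw [← hy]
    exact Subgroup.mem_zpowers _
  have h2 : (QuotientGroup.mk s : GalF F ⧸ N) ∈
      Subgroup.zpowers (QuotientGroup.mk (g * σ * g⁻¹) : GalF F ⧸ N) := by
    rw [hy]
    exact Subgroup.mem_zpowers _
  obtain ⟨a, ha⟩ := Subgroup.mem_zpowers_iff.1 h1
  obtain ⟨b, hb⟩ := Subgroup.mem_zpowers_iff.1 h2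
  refine ⟨a, b, ?_, ?_⟩
  · rw [← QuotientGroup.eq]
    rw [QuotientGroup.mk_zpow]
    exact ha.symm
  · rw [← QuotientGroup.eq]
    rw [QuotientGroup.mk_zpow]
    exact hb.symm
/- END G1 -/

/- MODULE G2 -/
/-- If for the places `v` with `p ^ M ∣ Nm v - 1` the Frobenius elements have the characteristic
polynomial `(X - χ)^n` then `ρ` is reducible (over a finite extension). For `x ∈ HMu F (p ^ M)` with
`ρ x ^ m = 1`, `m` prime to `p`, the matrix `ρ x` is scalar: `exists_frob` for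
`N = ρ.ker ⊓ HMu F (p ^ M)` (`HMu_open`, `finite_ram` for the places ramified in `HMu`, or
above `p`), `dvd_of_mu`, `isScal_of_charpoly`; then `hasSub_final` for `G₀ = H₁ = H₂ = HMu F (p ^ M)`
and `f` from `exists_cyc` (see the proof of `CGN.galois_arith`), `exists_finite_sub`. -/
theorem not_nonEis {k : Type} [Field k] {p M : ℕ} [CharP k p] (hp : p.Prime) (hM : 0 < M)
    (hn : 2 ≤ n) (e : ℤˣ) (ρ : GalF F →* GL (Fin n) k) (hρ : IsOpen (ρ.ker : Set (GalF F)))
    (T : Set (Pl F)) (hT : T.Finite)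
    (hun : ∀ v, v ∉ T → ∀ Q, Over v Q → ∀ σ : GalF F, IsInertia Q σ → ρ σ = 1)
    (h : ∀ v, v ∉ T → p ^ M ∣ Nm v - 1 → ∀ Q, Over v Q → ∀ σ : GalF F, IsFrob v Q σ →
      ∃ χ : AlgebraicClosure k, ((ρ (σ ^ (e : ℤ)) : Matrix (Fin n) (Fin n) k).map
        (algebraMap k (AlgebraicClosure k))).charpoly = (Polynomial.X - Polynomial.C χ) ^ n) :
    ¬ NonEis ρ := by
  classical
  intro hNE
  have hp' : Fact p.Prime := ⟨hp⟩
  have hn' : 0 < p ^ M := pow_pos hp.pos M
  have hn0 : NeZero (p ^ M) := ⟨hn'.ne'⟩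
  let ρb : GalF F →* GL (Fin n) (AlgebraicClosure k) :=
    (GeneralLinearGroup.map (n := Fin n) (algebraMap k (AlgebraicClosure k))).comp ρ
  have hfinQ : Finite (GalF F ⧸ ρ.ker) := Subgroup.quotient_finite_of_isOpen ρ.ker hρ
  have hfinr : Finite ρ.range :=
    Finite.of_equiv _ (QuotientGroup.quotientKerEquivRange ρ).toEquiv
  have hfin : Finite ρb.range := by
    have h1 : ρb.range = ρ.range.map
        (GeneralLinearGroup.map (n := Fin n) (algebraMap k (AlgebraicClosure k))) :=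
      MonoidHom.range_comp _ _
    rw [h1]
    exact (Set.Finite.image _ (Set.toFinite (ρ.range : Set (GL (Fin n) k)))).to_subtype
  obtain ⟨f, hf⟩ := CGQ.exists_cyc F (p ^ M) hn'
  have hfk : f.ker = HMu F (p ^ M) := by
    ext g
    rw [MonoidHom.mem_ker, hf, CGQ.mem_HMu]
  have hfo : IsOpen (f.ker : Set (GalF F)) := by
    rw [hfk]
    exact CGQ.HMu_open hn'
  have hnorm : (HMu F (p ^ M)).Normal := by
    rw [← hfk]
    infer_instance
  have hram := CGN.finite_ram f hfo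
  have hNn : (ρ.ker ⊓ HMu F (p ^ M)).Normal := Subgroup.normal_inf_normal _ _
  have hNo : IsOpen ((ρ.ker ⊓ HMu F (p ^ M) : Subgroup (GalF F)) : Set (GalF F)) := by
    rw [Subgroup.coe_inf, ← hfk]
    exact hρ.inter hfo
  have hpl : {v : Pl F | ((p : ℕ) : 𝓞 F) ∈ v.asIdeal}.Finite := CG2.LevelOC_fin ⟨p, hp⟩
  have hker : ∀ x ∈ HMu F (p ^ M), ∀ m : ℕ, p.Coprime m → ρb x ^ m = 1 → IsScal (ρb x) := by
    intro x hx m hm hxm
    obtain ⟨v, hv, Q, hQ, σ, hσ, g, a, b, h1, h2⟩ := exists_frob (ρ.ker ⊓ HMu F (p ^ M)) hNo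
      (T ∪ ({v : Pl F | ∃ Q : Ideal (Zbar F), Over v Q ∧ ∃ g : GalF F, IsInertia Q g ∧ f g ≠ 1} ∪
        {v : Pl F | ((p : ℕ) : 𝓞 F) ∈ v.asIdeal})) (hT.union (hram.union hpl)) (by
        intro v hv Q hQ σ hσ
        simp only [Set.mem_union, not_or] at hv
        have h3 : σ ∈ HMu F (p ^ M) := by
          rw [← hfk, MonoidHom.mem_ker]
          by_contra h3
          exact hv.2.1 ⟨Q, hQ, σ, hσ, h3⟩
        exact ⟨hun v hv.1 Q hQ σ hσ, h3⟩) x
    simp only [Set.mem_union, not_or] at hv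
    obtain ⟨hvT, -, hvp⟩ := hv
    -- the element `g σ g⁻¹`
    have h3 : ρb ((g * σ * g⁻¹)) = ρb x ^ a := by
      have h4 : ρ ((g * σ * g⁻¹)⁻¹ * x ^ a) = 1 := (Subgroup.mem_inf.1 h1).1
      have h5 : ρb ((g * σ * g⁻¹)⁻¹ * x ^ a) = 1 := by
        change GeneralLinearGroup.map _ (ρ _) = 1
        rw [h4, map_one]
      rw [map_mul, map_inv, map_zpow] at h5
      exact (inv_mul_eq_one.1 h5)
    have h4 : ρb x = ρb (g * σ * g⁻¹) ^ b := by
      have h4 : ρ (x⁻¹ * (g * σ * g⁻¹) ^ b) = 1 := (Subgroup.mem_inf.1 h2).1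
      have h5 : ρb (x⁻¹ * (g * σ * g⁻¹) ^ b) = 1 := by
        change GeneralLinearGroup.map _ (ρ _) = 1
        rw [h4, map_one]
      rw [map_mul, map_inv, map_zpow] at h5
      exact (inv_mul_eq_one.1 h5)
    have h5 : g * σ * g⁻¹ ∈ HMu F (p ^ M) := by
      have h6 := (HMu F (p ^ M)).inv_mem (Subgroup.mem_inf.1 h1).2
      have h7 := (HMu F (p ^ M)).mul_mem ((HMu F (p ^ M)).zpow_mem hx a) h6
      convert h7 using 1
      group
    have h6 : σ ∈ HMu F (p ^ M) := by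
      have h7 := hnorm.conj_mem _ h5 g⁻¹
      convert h7 using 1
      group
    have hvn : (((p ^ M : ℕ) : ℕ) : 𝓞 F) ∉ v.asIdeal := by
      intro h7
      rw [Nat.cast_pow] at h7
      exact hvp (v.isPrime.mem_of_pow_mem _ h7)
    have h7 : p ^ M ∣ Nm v - 1 := CGN.dvd_of_mu hn' hvn hQ hσ h6
    obtain ⟨χ, hχ⟩ := h v hvT h7 Q hQ σ hσ
    have h8 : ρb σ ^ m = 1 := by
      have h9 : ρb (g * σ * g⁻¹) ^ m = 1 := by
        rw [h3, ← zpow_natCast, ← _root_.zpow_mul, mul_comm, _root_.zpow_mul, zpow_natCast, hxm, _root_.one_zpow]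
      rw [map_mul, map_mul, map_inv, conj_pow] at h9
      have h10 := congrArg (fun A => (ρb g)⁻¹ * A * ρb g) h9
      simpa [mul_assoc] using h10
    have h9 : IsScal (ρb (σ ^ (e : ℤ))) := by
      refine CGN.isScal_of_charpoly hp hm (ρb (σ ^ (e : ℤ))) ?_ χ hχ
      rw [map_zpow, ← zpow_natCast, ← _root_.zpow_mul, mul_comm, _root_.zpow_mul, zpow_natCast, h8, _root_.one_zpow]
    have h10 : ρb σ ∈ CGN.scalSub n (AlgebraicClosure k) := by
      have h11 : ρb (σ ^ (e : ℤ)) ∈ CGN.scalSub n (AlgebraicClosure k) := h9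
      rw [map_zpow] at h11
      rcases Int.units_eq_one_or e with he | he
      · rw [he] at h11
        simpa using h11
      · rw [he] at h11
        simpa using h11
    have h11 : ρb (g * σ * g⁻¹) ∈ CGN.scalSub n (AlgebraicClosure k) := by
      obtain ⟨c, hc⟩ := h10
      refine ⟨c, ?_⟩
      rw [map_mul, map_mul, GeneralLinearGroup.coe_mul, GeneralLinearGroup.coe_mul, hc,
        map_inv]
      have h12 : ((ρb g : GL (Fin n) (AlgebraicClosure k)) :
          Matrix (Fin n) (Fin n) (AlgebraicClosure k)) * Matrix.scalar (Fin n) c =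
          Matrix.scalar (Fin n) c * (ρb g : Matrix (Fin n) (Fin n) (AlgebraicClosure k)) :=
        ((Matrix.scalar_commute c (fun r => mul_comm _ _) _).eq).symm
      rw [h12, Matrix.mul_assoc, ← GeneralLinearGroup.coe_mul, mul_inv_cancel,
        GeneralLinearGroup.coe_one, Matrix.mul_one]
    have h12 := (CGN.scalSub n (AlgebraicClosure k)).zpow_mem h11 b
    rw [← h4] at h12
    exact h12
  have hsub : CGN.HasSub ρb := by
    refine CGN.hasSub_final (M := M) hp hn ρb (HMu F (p ^ M)) (HMu F (p ^ M)) (HMu F (p ^ M))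
      hker (fun y hy => ⟨1, map_one _, by rwa [one_mul]⟩)
      (fun x hx => (HMu F (p ^ M)).pow_mem hx _) f (fun g hg => (hf g).1 hg) ?_ ?_
    · intro hp2
      exact ZMod.isCyclic_units_of_prime_pow p hp hp2 M
    · intro hp2
      subst hp2
      refine ⟨M - 1, fun x => ?_⟩
      have h1 : Fintype.card (ZMod (2 ^ M))ˣ = 2 ^ (M - 1) := by
        rw [ZMod.card_units_eq_totient, Nat.totient_prime_pow Nat.prime_two hM]
        simp
      rw [← h1]
      exact pow_card_eq_one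
  obtain ⟨k', V, hfd, h1, h2, h3⟩ := CGN.exists_finite_sub ρ hsub
  rcases hNE k' hfd V h3 with h4 | h4
  · exact h1 h4
  · exact h2 h4
/- END G2 -/

/- MODULE G3 -/
private theorem g3_card_kv (v : Pl F) : Nat.card (CGN.kv v) = Nm v ∧ Finite (CGN.kv v) := by
  let f : 𝓞 F →+* CGN.kv v := (CGN.resv v).comp (algebraMap (𝓞 F) (Ov v))
  have hf : Function.Surjective f := fun x => CGN.resv_int_surj v x
  have hker : RingHom.ker f = v.asIdeal := by
    ext a
    rw [RingHom.mem_ker]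
    exact CGN.resv_int
  have e : (𝓞 F ⧸ v.asIdeal) ≃ CGN.kv v := by
    rw [← hker]
    exact (RingHom.quotientKerEquivOfSurjective hf).toEquiv
  have : Finite (𝓞 F ⧸ v.asIdeal) := Ideal.finiteQuotientOfFreeOfNeBot _ v.ne_bot
  refine ⟨?_, Finite.of_equiv _ e⟩
  rw [← Nat.card_congr e]
  rfl

/-- `CGN.hecke_local` for `A = 1`, `B` a diagonal matrix whose entries are the Teichmüller-like lifts of
`1, g, …, g^(n-1)`, `g` a generator of the multiplicative group of the residue field, `H = 1`. -/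
theorem card_cosets {v : Pl F} {κ : Type} [Field κ] {p : ℕ} [hp : Fact p.Prime] [CharP κ p]
    (M : ℕ) (hM : p ^ M ∣ Nm v - 1) (hn : n ≤ p ^ M) (j : Fin n) :
    ((deg v (some j) : ℕ) : κ) = ((n.choose ((j : ℕ) + 1) : ℕ) : κ) := by
  obtain ⟨hcard, hfin⟩ := g3_card_kv v
  have := hfin
  obtain ⟨g, hg⟩ := IsCyclic.exists_generator (α := (CGN.kv v)ˣ)
  have hord : orderOf g = Nm v - 1 := by
    rw [orderOf_eq_card_of_forall_mem_zpowers hg, Nat.card_units, hcard]
  -- lifts of the powers of `g`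
  have hlift : ∀ i : Fin n, ∃ y : (Ov v)ˣ, CGN.resv v (y : Ov v) = ((g ^ (i : ℕ) : (CGN.kv v)ˣ) : CGN.kv v) := by
    intro i
    obtain ⟨y, hy⟩ := CGN.resv_surj v ((g ^ (i : ℕ) : (CGN.kv v)ˣ) : CGN.kv v)
    have h1 : IsUnit y := by
      rw [← IsLocalRing.residue_ne_zero_iff_isUnit]
      change CGN.resv v y ≠ 0
      rw [hy]
      exact Units.ne_zero _
    obtain ⟨u, rfl⟩ := h1
    exact ⟨u, hy⟩
  choose y hy using hlift
  let b : GL (Fin n) (Ov v) :=
    { val := diagonal fun i => (y i : Ov v)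
      inv := diagonal fun i => ((y i)⁻¹ : (Ov v)ˣ)
      val_inv := by
        rw [diagonal_mul_diagonal, ← diagonal_one]
        congr 1
        funext i
        exact Units.mul_inv _
      inv_val := by
        rw [diagonal_mul_diagonal, ← diagonal_one]
        congr 1
        funext i
        exact Units.inv_mul _ }
  have hb : (b : Matrix (Fin n) (Fin n) (Ov v)).map (CGN.resv v) =
      diagonal fun i : Fin n => ((g ^ (i : ℕ) : (CGN.kv v)ˣ) : CGN.kv v) := by
    change (diagonal fun i => (y i : Ov v)).map (CGN.resv v) = _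
    rw [diagonal_map (map_zero _)]
    congr 1
    funext i
    exact hy i
  have ha : ((1 : GL (Fin n) (Ov v)) : Matrix (Fin n) (Fin n) (Ov v)).map (CGN.resv v) =
      diagonal fun _ : Fin n => (((1 : (CGN.kv v)ˣ)) : CGN.kv v) := by
    rw [Units.val_one, Matrix.map_one _ (map_zero _) (map_one _)]
    simp
  have hiter : ∀ (k : ℕ) (c : GQ n v ⧸ GZ n v),
      (fun c : GQ n v ⧸ GZ n v => (1 : GQ n v) • c)^[k] c = c := by
    intro k c
    have : (fun c : GQ n v ⧸ GZ n v => (1 : GQ n v) • c) = id := by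
      funext c
      exact one_smul _ c
    rw [this, Function.iterate_id]
    rfl
  have h := CGN.hecke_local (v := v) (κ := κ) (p := p) M (m := (1 : GQ n v)) (A := (1 : GQ n v))
    (B := CGN.mapO v b) (GZ n v).one_mem (by rw [one_mul, mul_one]) 1 b
    (by rw [map_one]; group) (by rw [inv_one, one_mul, mul_one])
    (fun _ => 1) (fun i => g ^ (i : ℕ)) ha hb (fun x y _ => ⟨1, by simp⟩)
    (by
      rintro x y hxy ⟨z, hz⟩
      obtain ⟨k, hk⟩ := Subgroup.mem_zpowers_iff.1 (hg z)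
      rw [← hk] at hz
      have h1 : g ^ (((x : ℕ) : ℤ) - ((y : ℕ) : ℤ) - k * ((p : ℤ) ^ M)) = 1 := by
        rw [_root_.zpow_sub, _root_.zpow_sub, zpow_natCast, zpow_natCast, _root_.zpow_mul]
        have h2 : (g ^ k) ^ ((p : ℤ) ^ M) = (g ^ k) ^ (p ^ M) := by
          rw [← zpow_natCast, Nat.cast_pow]
        rw [h2, hz]
        exact div_self' _
      have h3 : ((Nm v - 1 : ℕ) : ℤ) ∣ ((x : ℕ) : ℤ) - ((y : ℕ) : ℤ) - k * ((p : ℤ) ^ M) := by
        rw [← hord]
        exact orderOf_dvd_iff_zpow_eq_one.2 h1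
      have h4 : ((p ^ M : ℕ) : ℤ) ∣ ((x : ℕ) : ℤ) - ((y : ℕ) : ℤ) := by
        have h5 : ((p ^ M : ℕ) : ℤ) ∣ ((Nm v - 1 : ℕ) : ℤ) := Int.natCast_dvd_natCast.2 hM
        have h6 : ((p ^ M : ℕ) : ℤ) ∣ k * ((p : ℤ) ^ M) := by
          push_cast
          exact dvd_mul_left _ _
        have h7 := dvd_add (h5.trans h3) h6
        rwa [sub_add_cancel] at h7
      have hx := x.2
      have hy' := y.2
      have h8 : ((x : ℕ) : ℤ) - ((y : ℕ) : ℤ) ≠ 0 := by
        intro h0
        apply hxy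
        apply Fin.ext
        omega
      have h9 := Int.le_of_dvd (abs_pos.2 h8) ((dvd_abs _ _).2 h4)
      have h10 : |((x : ℕ) : ℤ) - ((y : ℕ) : ℤ)| < n := by
        rw [abs_lt]
        constructor <;> omega
      have h11 : (n : ℤ) ≤ ((p ^ M : ℕ) : ℤ) := by exact_mod_cast hn
      omega)
    j (fun _ => 1) (fun _ => rfl) (fun _ => rfl) (CGN.cosets_finite v (some j)).toFinset
    { sub := Finset.Subset.refl _
      ex := fun c hc => ⟨c, hc, 0, rfl⟩
      inj := fun r _ r' _ k hk => by rw [← hk, hiter] }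
  rw [Finset.sum_const, Finset.sum_const, Finset.card_powersetCard, Finset.card_univ,
    Fintype.card_fin, nsmul_eq_mul, nsmul_eq_mul, mul_one, mul_one] at h
  exact h
/- END G3 -/

/- MODULE G4 -/
theorem heckePol_eig {κ : Type} [Field κ] (lam : Option (Fin n) → κ) (χ : κ)
    (h : ∀ j : Fin n, lam (some j) = ((n.choose ((j : ℕ) + 1) : ℕ) : κ) * χ ^ ((j : ℕ) + 1)) :
    heckePol lam 1 1 = (Polynomial.X - Polynomial.C χ) ^ n := by
  have hlk : ∀ k ≤ n, CGN.lk lam k = ((n.choose k : ℕ) : κ) * χ ^ k := by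
    intro k hk
    rcases Nat.eq_zero_or_pos k with h0 | h0
    · subst h0
      rw [CGN.lk_zero, Nat.choose_zero_right, Nat.cast_one, pow_zero, mul_one]
    · obtain ⟨l, hl⟩ : ∃ l : Fin n, (l : ℕ) + 1 = k := ⟨⟨k - 1, by omega⟩, by simp; omega⟩
      rw [CGN.lk_eq _ l hl, h l, hl]
  rw [sub_eq_neg_add, add_pow, heckePol]
  refine Finset.sum_congr rfl fun j hj => ?_
  rw [hlk j (Nat.lt_succ_iff.1 (Finset.mem_range.1 hj)), one_pow, one_pow, mul_one, mul_one,
    neg_pow (Polynomial.C χ) j, Polynomial.C_mul, Polynomial.C_mul, Polynomial.C_pow,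
    Polynomial.C_pow, Polynomial.C_neg, Polynomial.C_1, Polynomial.C_eq_natCast]
  ring

/-- The final statement of the Galois side: for every finite set `T` of places there is a place where
the eigenvalues are not of the special form (`exists_twistA`, `not_nonEis` for `M` with
`n ≤ p ^ M`, `card_cosets`, `heckePol_eig`, `Nm v = 1` in `k`; `Matrix.charpoly_map`). -/
theorem exists_not_eig {S : Set (Pl F)} (hS : S.Finite) {O : Type} [CommRing O]
    (m : Ideal (HeckeAlg (F := F) n S O)) (k : Type) [Field k]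
    [Algebra (HeckeAlg (F := F) n S O ⧸ m) k] {p : ℕ} [hp : Fact p.Prime] [CharP k p]
    (hn : 2 ≤ n) (ρ : GalF F →* GL (Fin n) k) (hA : AttachedN m k ρ) (hne : NonEis ρ)
    (T : Finset (Pl F)) : ∃ v : {v : Pl F // v ∉ S}, v.1 ∉ T ∧
      ¬ ∃ χ : AlgebraicClosure k, ∀ j : Fin n,
        algebraMap k (AlgebraicClosure k) (CGN.eig m k (v, some j)) =
          (deg v.1 (some j) : AlgebraicClosure k) * χ ^ ((j : ℕ) + 1) := by
  by_contra hcon
  push Not at hcon
  have hchar : CharP (AlgebraicClosure k) p :=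
    charP_of_injective_algebraMap (algebraMap k (AlgebraicClosure k)).injective p
  obtain ⟨e, ρ', T', hopen, hne', hfrob, hT', hun⟩ := CGN.exists_twistA hA
  have hM : n ≤ p ^ n := (Nat.lt_pow_self hp.out.one_lt).le
  refine not_nonEis (k := k) (p := p) (M := n) hp.out (by omega) hn e ρ' hopen
    (S ∪ T' ∪ (T : Set (Pl F))) ((hS.union hT').union T.finite_toSet) ?_ ?_ (hne' hne)
  · intro v hv Q hQ σ hσ
    exact hun v (fun h => hv (Or.inl (Or.inl h))) (fun h => hv (Or.inl (Or.inr h))) Q hQ σ hσ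
  · intro v hv hdvd Q hQ σ hσ
    have hvS : v ∉ S := fun h => hv (Or.inl (Or.inl h))
    have hvT : v ∉ T := fun h => hv (Or.inr h)
    obtain ⟨χ, hχ⟩ := hcon ⟨v, hvS⟩ hvT
    refine ⟨χ, ?_⟩
    have hN : ((Nm v : ℕ) : k) = 1 := by
      have hN1 : 1 ≤ Nm v := by
        have : Nm v ≠ 0 := by
          intro h
          exact v.ne_bot (Ideal.absNorm_eq_zero_iff.1 h)
        omega
      have h8 : p ∣ Nm v - 1 := (dvd_pow_self p (by omega)).trans hdvd
      have h9 : ((Nm v - 1 : ℕ) : k) = 0 := (CharP.cast_eq_zero_iff k p _).2 h8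
      rw [Nat.cast_sub hN1, Nat.cast_one, sub_eq_zero] at h9
      exact h9
    rw [Matrix.charpoly_map, hfrob ⟨v, hvS⟩ Q hQ σ hσ, hN]
    rw [← heckePol_eig (fun j => algebraMap k (AlgebraicClosure k) (CGN.eig m k (⟨v, hvS⟩, j))) χ
      (fun j => by
        have h1 := hχ j
        rw [card_cosets (κ := AlgebraicClosure k) (p := p) n hdvd hM j] at h1
        exact h1)]
    rw [heckePol, heckePol, Polynomial.map_sum]
    refine Finset.sum_congr rfl fun j _ => ?_
    rw [Polynomial.map_mul, Polynomial.map_C, Polynomial.map_pow, Polynomial.map_X]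
    congr 2
    simp only [map_mul, map_pow, map_neg, map_one, one_pow, mul_one]
    congr 1
    rw [CGN.lk, CGN.lk]
    split_ifs
    · rfl
    · rw [map_one]
/- END G4 -/

/- MODULE G5 -/
private theorem g5a_card (v : Pl F) : Nat.card (CGN.kv v) = Nm v ∧ Finite (CGN.kv v) := by
  let f : 𝓞 F →+* CGN.kv v := (CGN.resv v).comp (algebraMap (𝓞 F) (Ov v))
  have hf : Function.Surjective f := fun x => CGN.resv_int_surj v x
  have hker : RingHom.ker f = v.asIdeal := by
    ext a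
    rw [RingHom.mem_ker]
    exact CGN.resv_int
  have e : (𝓞 F ⧸ v.asIdeal) ≃ CGN.kv v := by
    rw [← hker]
    exact (RingHom.quotientKerEquivOfSurjective hf).toEquiv
  have : Finite (𝓞 F ⧸ v.asIdeal) := Ideal.finiteQuotientOfFreeOfNeBot _ v.ne_bot
  refine ⟨?_, Finite.of_equiv _ e⟩
  rw [← Nat.card_congr e]
  rfl

/-- The matrix `1 + e_i a`. -/
private def g5a_u {v : Pl F} (i : Fin n) (a : Fin n → Ov v) (h : a i = 0) : GL (Fin n) (Ov v) where
  val := 1 + vecMulVec (Pi.single i 1) a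
  inv := 1 - vecMulVec (Pi.single i 1) a
  val_inv := by
    have h1 : vecMulVec (Pi.single i 1) a * vecMulVec (Pi.single i (1 : Ov v)) a = 0 := by
      rw [vecMulVec_mul_vecMulVec]
      simp [h]
    rw [add_mul, mul_sub, mul_sub, h1]
    simp
  inv_val := by
    have h1 : vecMulVec (Pi.single i 1) a * vecMulVec (Pi.single i (1 : Ov v)) a = 0 := by
      rw [vecMulVec_mul_vecMulVec]
      simp [h]
    rw [sub_mul, mul_add, mul_add, h1]
    simp

private theorem g5a_apply {v : Pl F} (i : Fin n) (a b : Fin n → Ov v) (ha : a i = 0) (hb : b i = 0)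
    (j : Fin n) (hij : i ≠ j) : (((g5a_u i a ha)⁻¹ * g5a_u i b hb : GL (Fin n) (Ov v)) :
      Matrix (Fin n) (Fin n) (Ov v)) i j = b j - a j := by
  have h1 : (((g5a_u i a ha)⁻¹ * g5a_u i b hb : GL (Fin n) (Ov v)) :
      Matrix (Fin n) (Fin n) (Ov v)) =
      (1 - vecMulVec (Pi.single i 1) a) * (1 + vecMulVec (Pi.single i 1) b) := rfl
  have h2 : vecMulVec (Pi.single i 1) a * vecMulVec (Pi.single i (1 : Ov v)) b = 0 := by
    rw [vecMulVec_mul_vecMulVec]
    simp [ha]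
  rw [h1, sub_mul, mul_add, mul_add, h2, mul_one, one_mul, mul_one, add_zero, Matrix.sub_apply,
    Matrix.add_apply, Matrix.one_apply_ne hij, vecMulVec_apply, vecMulVec_apply,
    Pi.single_eq_same, one_mul, one_mul, zero_add]

theorem deg_zero_ge (v : Pl F) (hn : 0 < n) : Nm v ^ (n - 1) ≤ deg v (some (⟨0, hn⟩ : Fin n)) := by
  classical
  obtain ⟨hcard, hfin⟩ := g5a_card v
  have := hfin
  let i0 : Fin n := ⟨0, hn⟩
  let s : CGN.kv v → Ov v := fun x => Classical.choose (CGN.resv_surj v x)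
  have hs : ∀ x, CGN.resv v (s x) = x := fun x => Classical.choose_spec (CGN.resv_surj v x)
  let A : ({j : Fin n // j ≠ i0} → CGN.kv v) → Fin n → Ov v :=
    fun a j => if h : j ≠ i0 then s (a ⟨j, h⟩) else 0
  have hA0 : ∀ a, A a i0 = 0 := fun a => dif_neg (by simp)
  have hA1 : ∀ a (j : Fin n) (h : j ≠ i0), A a j = s (a ⟨j, h⟩) := fun a j h => dif_pos h
  let g : ({j : Fin n // j ≠ i0} → CGN.kv v) → GQ n v ⧸ GZ n v := fun a =>
    ((CGN.mapO v (g5a_u i0 (A a) (hA0 a)) * CGN.dgk n v 1 : GQ n v) : GQ n v ⧸ GZ n v)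
  have hmem : ∀ a, g a ∈ (CGN.cosets_finite v (some i0)).toFinset := by
    intro a
    rw [Set.Finite.mem_toFinset]
    exact ⟨_, ⟨_, rfl⟩, rfl⟩
  have hinj : Function.Injective g := by
    intro a b hab
    have h1 := QuotientGroup.eq.1 hab
    obtain ⟨k, hk⟩ := h1
    have h2 : CGN.dgk n v 1 * CGN.mapO v k =
        CGN.mapO v ((g5a_u i0 (A a) (hA0 a))⁻¹ * g5a_u i0 (A b) (hA0 b)) * CGN.dgk n v 1 := by
      have : CGN.mapO v k = (CGN.mapO v (g5a_u i0 (A a) (hA0 a)) * CGN.dgk n v 1)⁻¹ *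
        (CGN.mapO v (g5a_u i0 (A b) (hA0 b)) * CGN.dgk n v 1) := hk
      rw [this, map_mul, map_inv]
      group
    funext ⟨j, hj⟩
    have h3 := congrArg (fun M : GQ n v => (M : Matrix (Fin n) (Fin n) (Fv v)) i0 j) h2
    simp only [GeneralLinearGroup.coe_mul, CGN.dgk_val, diagonal_mul, mul_diagonal] at h3
    have hj0 : ¬ ((j : ℕ) < 1) := by
      intro h
      apply hj
      apply Fin.ext
      change (j : ℕ) = 0
      omega
    have hi0 : ((i0 : Fin n) : ℕ) < 1 := Nat.one_pos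
    rw [if_pos hi0, if_neg hj0, mul_one] at h3
    have h4 : (CGN.mapO v ((g5a_u i0 (A a) (hA0 a))⁻¹ * g5a_u i0 (A b) (hA0 b)) :
        Matrix (Fin n) (Fin n) (Fv v)) i0 j = ((A b j - A a j : Ov v) : Fv v) := by
      rw [← g5a_apply i0 (A a) (A b) (hA0 a) (hA0 b) j (Ne.symm hj)]
      rfl
    rw [h4] at h3
    have h5 : Valued.v ((A b j - A a j : Ov v) : Fv v) < 1 := by
      rw [← h3, map_mul]
      have h6 : Valued.v ((CGN.mapO v k : Matrix (Fin n) (Fin n) (Fv v)) i0 j) ≤ 1 :=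
        ((k : Matrix (Fin n) (Fin n) (Ov v)) i0 j).2
      exact (mul_le_mul_right h6 _).trans_lt (by rw [mul_one]; exact CGN.pi_val_lt v)
    have h6 := CGN.resv_eq_zero.2 h5
    rw [map_sub, hA1 b j hj, hA1 a j hj, hs, hs, sub_eq_zero] at h6
    exact h6.symm
  have h1 : Nat.card ({j : Fin n // j ≠ i0} → CGN.kv v) = Nm v ^ (n - 1) := by
    rw [Nat.card_fun, hcard]
    congr 1
    simp
  rw [← h1, deg]
  have : Fintype (CGN.kv v) := Fintype.ofFinite _
  rw [Nat.card_eq_fintype_card, ← Finset.card_univ]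
  exact Finset.card_le_card_of_injOn g (fun a _ => hmem a) hinj.injOn

private theorem g5c_root {K : Type} [Field K] {m : ℕ} (A : Matrix (Fin n) (Fin n) K)
    (hA : A ^ m = 1) (r : K) (hr : A.charpoly.IsRoot r) : r ^ m = 1 := by
  rw [Polynomial.IsRoot.def, Matrix.eval_charpoly] at hr
  obtain ⟨w, hw, h1⟩ := Matrix.exists_mulVec_eq_zero_iff.2 hr
  have h2 : A.mulVec w = r • w := by
    rw [Matrix.sub_mulVec, sub_eq_zero] at h1
    rw [← h1]
    simp
  have h3 : ∀ k : ℕ, (A ^ k).mulVec w = r ^ k • w := by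
    intro k
    induction k with
    | zero => simp
    | succ k ih =>
      rw [pow_succ', ← Matrix.mulVec_mulVec, ih, Matrix.mulVec_smul, h2, smul_smul, pow_succ]
  have h4 := h3 m
  rw [hA, Matrix.one_mulVec] at h4
  obtain ⟨i, hi⟩ := Function.ne_iff.1 hw
  have h5 := congrFun h4 i
  rw [Pi.smul_apply, smul_eq_mul] at h5
  have h6 : (r ^ m - 1) * w i = 0 := by rw [sub_mul, one_mul, ← h5, sub_self]
  rcases mul_eq_zero.1 h6 with h7 | h7
  · exact sub_eq_zero.1 h7
  · exact absurd h7 hi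

theorem g5_bound {K : Type} [Field K] [CharZero K] [IsAlgClosed K] (hn : 0 < n) {q d m : ℕ}
    (hq : 0 < q) (hm : 0 < m) (A : Matrix (Fin n) (Fin n) K) (hA : A ^ m = 1) (χ : K)
    (htr : A.trace = (d : K) * χ) (hdet : A.det = (q : K) ^ (n * (n - 1) / 2) * χ ^ n) :
    d ^ 2 ≤ n ^ 2 * q ^ (n - 1) := by
  classical
  let L := algebraicClosure ℚ K
  have hroot : ∀ r ∈ A.charpoly.roots, r ^ m = 1 := fun r hr =>
    g5c_root A hA r (Polynomial.isRoot_of_mem_roots hr)
  have hrootL : ∀ r ∈ A.charpoly.roots, r ∈ L := by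
    intro r hr
    refine mem_algebraicClosure_iff.2 ?_
    have h1 : IsIntegral ℚ (r ^ m) := by
      rw [hroot r hr]
      exact isIntegral_one
    exact (IsIntegral.of_pow hm h1).isAlgebraic
  have hs : ∃ S : Multiset L, S.map (algebraMap L K) = A.charpoly.roots := by
    refine ⟨A.charpoly.roots.attach.map fun x => (⟨x.1, hrootL x.1 x.2⟩ : L), ?_⟩
    rw [Multiset.map_map]
    exact Multiset.attach_map_val _
  obtain ⟨S, hS⟩ := hs
  have hcard : Multiset.card S = n := by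
    have h1 := IsAlgClosed.card_roots_eq_natDegree (p := A.charpoly)
    rw [← hS, Multiset.card_map, Matrix.charpoly_natDegree_eq_dim, Fintype.card_fin] at h1
    exact h1
  have hSm : ∀ r ∈ S, r ^ m = 1 := by
    intro r hr
    have h1 := hroot (algebraMap L K r) (hS ▸ Multiset.mem_map_of_mem _ hr)
    rw [← map_pow] at h1
    exact (algebraMap L K).injective (by rw [h1, map_one])
  have htr' : A.trace = algebraMap L K S.sum := by
    rw [Matrix.trace_eq_sum_roots_charpoly, ← hS, map_multiset_sum]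
  have hdet' : A.det = algebraMap L K S.prod := by
    rw [Matrix.det_eq_prod_roots_charpoly, ← hS, map_multiset_prod]
  have hqK : (q : K) ≠ 0 := Nat.cast_ne_zero.2 hq.ne'
  have hχL : χ ∈ L := by
    refine mem_algebraicClosure_iff.2 ?_
    have h1 : IsIntegral ℚ (χ ^ n) := by
      have h2 : χ ^ n = algebraMap L K (((q : L) ^ (n * (n - 1) / 2))⁻¹ * S.prod) := by
        rw [map_mul, ← hdet', hdet, map_inv₀, map_pow, map_natCast, inv_mul_cancel_left₀]
        exact pow_ne_zero _ hqK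
      rw [h2]
      exact (mem_algebraicClosure_iff.1 (((q : L) ^ (n * (n - 1) / 2))⁻¹ * S.prod : L).2).isIntegral
    exact (IsIntegral.of_pow hn h1).isAlgebraic
  have hLalg : Algebra.IsAlgebraic ℚ L := algebraicClosure.isAlgebraic ℚ K
  let φ : L →ₐ[ℚ] ℂ := IsAlgClosed.lift
  let c : L := ⟨χ, hχL⟩
  have htr2 : S.sum = (d : L) * c := by
    apply (algebraMap L K).injective
    rw [← htr', htr, map_mul, map_natCast]
    rfl
  have hdet2 : S.prod = (q : L) ^ (n * (n - 1) / 2) * c ^ n := by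
    apply (algebraMap L K).injective
    rw [← hdet', hdet, map_mul, map_pow, map_pow, map_natCast]
    rfl
  have hnorm : ∀ z ∈ S.map φ, ‖z‖ = 1 := by
    intro z hz
    obtain ⟨r, hr, rfl⟩ := Multiset.mem_map.1 hz
    have h1 : (φ r) ^ m = 1 := by rw [← map_pow, hSm r hr, map_one]
    exact Complex.norm_eq_one_of_pow_eq_one h1 hm.ne'
  have h1 : (d : ℝ) * ‖φ c‖ ≤ n := by
    have h2 : (d : ℝ) * ‖φ c‖ = ‖(S.map φ).sum‖ := by
      rw [← map_multiset_sum, htr2, map_mul, map_natCast, norm_mul]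
      simp
    rw [h2]
    refine (norm_multiset_sum_le _).trans ?_
    rw [Multiset.map_congr rfl hnorm]
    simp [hcard]
  have h2 : (q : ℝ) ^ (n * (n - 1) / 2) * ‖φ c‖ ^ n = 1 := by
    have h3 : (q : ℝ) ^ (n * (n - 1) / 2) * ‖φ c‖ ^ n = ‖(S.map φ).prod‖ := by
      rw [← map_multiset_prod, hdet2, map_mul, map_pow, map_pow, map_natCast, norm_mul, norm_pow,
        norm_pow]
      simp
    rw [h3]
    have h4 : ‖(S.map φ).prod‖ = ((S.map φ).map fun z => ‖z‖).prod :=
      (map_multiset_prod (normHom : ℂ →*₀ ℝ) _)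
    rw [h4, Multiset.map_congr rfl hnorm]
    simp
  have h3 : (q : ℝ) ^ (n - 1) * ‖φ c‖ ^ 2 = 1 := by
    have h4 : ((q : ℝ) ^ (n - 1) * ‖φ c‖ ^ 2) ^ n = 1 := by
      have h5 : n * (n - 1) / 2 * 2 = n * (n - 1) :=
        Nat.div_mul_cancel (Nat.even_mul_pred_self n).two_dvd
      calc ((q : ℝ) ^ (n - 1) * ‖φ c‖ ^ 2) ^ n
          = (q : ℝ) ^ (n * (n - 1)) * ‖φ c‖ ^ (n * 2) := by
            rw [mul_pow, ← pow_mul, ← pow_mul, mul_comm (n - 1) n, mul_comm 2 n]
        _ = ((q : ℝ) ^ (n * (n - 1) / 2) * ‖φ c‖ ^ n) ^ 2 := by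
            rw [mul_pow, ← pow_mul, ← pow_mul, h5]
        _ = 1 := by rw [h2, one_pow]
    exact (pow_eq_one_iff_of_nonneg (by positivity) hn.ne').1 h4
  have h4 : ((d : ℝ)) ^ 2 ≤ (n : ℝ) ^ 2 * (q : ℝ) ^ (n - 1) := by
    calc ((d : ℝ)) ^ 2 = ((d : ℝ) * ‖φ c‖) ^ 2 * (q : ℝ) ^ (n - 1) := by
          rw [mul_pow, mul_assoc, mul_comm (‖φ c‖ ^ 2), h3, mul_one]
      _ ≤ (n : ℝ) ^ 2 * (q : ℝ) ^ (n - 1) := by
          have h5 : (0 : ℝ) ≤ (d : ℝ) * ‖φ c‖ := by positivity
          gcongr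
  exact_mod_cast h4

private theorem g5d_coeff {κ : Type} [Field κ] (lam : Option (Fin n) → κ) (w N : κ) (k : ℕ)
    (hk : k ≤ n) : (heckePol lam w N).coeff (n - k) =
      (-1) ^ k * w ^ k * N ^ (k * (k - 1) / 2) * CGN.lk lam k := by
  rw [heckePol, Polynomial.finsetSum_coeff]
  rw [Finset.sum_eq_single k]
  · rw [Polynomial.coeff_C_mul, Polynomial.coeff_X_pow, if_pos rfl, mul_one]
  · intro j hj hjk
    rw [Polynomial.coeff_C_mul, Polynomial.coeff_X_pow, if_neg, mul_zero]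
    have := Finset.mem_range.1 hj
    omega
  · intro h
    exact absurd (Finset.mem_range.2 (Nat.lt_succ_of_le hk)) h

private theorem g5d_fin (B : ℕ) : {v : Pl F | Nm v ≤ B}.Finite := by
  have h1 := Ideal.finite_setOfPred_absNorm_le (S := 𝓞 F) B
  refine Set.Finite.of_finite_image (f := fun v : Pl F => v.asIdeal) (h1.subset ?_) ?_
  · rintro _ ⟨v, hv, rfl⟩
    exact hv
  · intro v _ w _ h
    exact HeightOneSpectrum.ext h

/-- The same in characteristic zero (for residue fields in which `p` is invertible): at a place `v` of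
norm `q` where the eigenvalues are `deg_j χ^(j+1)`, the constant coefficient of the characteristic
polynomial of the Frobenius element (a matrix of finite order) shows that `q^(n(n-1)/2) χ^n` is a root of
unity; so `|χ| = q^(-(n-1)/2)` in the complex numbers, and the trace `deg_0 χ`, a sum of `n` roots of
unity, has absolute value at most `n`. But `deg_0 ≥ q^(n-1)`: the cosets of the matrices
`u diag(π, 1, …, 1)`, `u` lower unipotent with arbitrary residues in the first column, are different.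
Take `v` with `q^(n-1) > n^2`. (`FrobEq`, `exists_twistA`: `w = 1`.) -/
theorem exists_not_eig_zero {S : Set (Pl F)} (hS : S.Finite) {O : Type} [CommRing O]
    (m : Ideal (HeckeAlg (F := F) n S O)) (k : Type) [Field k]
    [Algebra (HeckeAlg (F := F) n S O ⧸ m) k] [CharZero k]
    (hn : 2 ≤ n) (ρ : GalF F →* GL (Fin n) k) (hA : AttachedN m k ρ)
    (T : Finset (Pl F)) : ∃ v : {v : Pl F // v ∉ S}, v.1 ∉ T ∧
      ¬ ∃ χ : AlgebraicClosure k, ∀ j : Fin n,
        algebraMap k (AlgebraicClosure k) (CGN.eig m k (v, some j)) =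
          (deg v.1 (some j) : AlgebraicClosure k) * χ ^ ((j : ℕ) + 1) := by
  by_contra hcon
  push Not at hcon
  have hchar : CharZero (AlgebraicClosure k) :=
    charZero_of_injective_algebraMap (algebraMap k (AlgebraicClosure k)).injective
  obtain ⟨e, ρ', T', hopen, -, hfrob, -, -⟩ := CGN.exists_twistA hA
  -- a place of large norm
  have hB := g5d_fin (F := F) (n ^ 2)
  obtain ⟨v, hv, Q, hQ, σ, hσ, -⟩ := exists_frob (F := F) ⊤ (by simp)
    (S ∪ {v : Pl F | Nm v ≤ n ^ 2} ∪ (T : Set (Pl F))) ((hS.union hB).union T.finite_toSet)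
    (fun v _ Q _ σ _ => Subgroup.mem_top σ) 1
  have hvS : v ∉ S := fun h => hv (Or.inl (Or.inl h))
  have hvB : n ^ 2 < Nm v := by
    by_contra h
    exact hv (Or.inl (Or.inr (not_lt.1 h)))
  have hvT : v ∉ T := fun h => hv (Or.inr h)
  obtain ⟨χ, hχ⟩ := hcon ⟨v, hvS⟩ hvT
  -- finite order
  have hfinQ : Finite (GalF F ⧸ ρ'.ker) := Subgroup.quotient_finite_of_isOpen ρ'.ker hopen
  have hfinr : Finite ρ'.range :=
    Finite.of_equiv _ (QuotientGroup.quotientKerEquivRange ρ').toEquiv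
  obtain ⟨N, hN, hN1⟩ : ∃ N : ℕ, 0 < N ∧ (ρ' (σ ^ (e : ℤ))) ^ N = 1 := by
    refine ⟨Nat.card ρ'.range, Nat.card_pos, ?_⟩
    have h1 : (⟨ρ' (σ ^ (e : ℤ)), ⟨_, rfl⟩⟩ : ρ'.range) ^ (Nat.card ρ'.range) = 1 :=
      pow_card_eq_one'
    exact congrArg Subtype.val h1
  have hcp : ((ρ' (σ ^ (e : ℤ)) : Matrix (Fin n) (Fin n) k).map
      (algebraMap k (AlgebraicClosure k))).charpoly =
      (heckePol (fun j => CGN.eig m k (⟨v, hvS⟩, j)) 1 ((Nm v : ℕ) : k)).map
        (algebraMap k (AlgebraicClosure k)) := by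
    rw [Matrix.charpoly_map, hfrob ⟨v, hvS⟩ Q hQ σ hσ]
  have hn1 : 1 ≤ n := by omega
  have hNv : 0 < Nm v := by omega
  have : NeZero n := ⟨by omega⟩
  have htr : ((ρ' (σ ^ (e : ℤ)) : Matrix (Fin n) (Fin n) k).map
      (algebraMap k (AlgebraicClosure k))).trace =
      (deg v (some (⟨0, hn1⟩ : Fin n)) : AlgebraicClosure k) * χ := by
    rw [Matrix.trace_eq_neg_charpoly_coeff, hcp, Polynomial.coeff_map, Fintype.card_fin,
      g5d_coeff _ _ _ 1 hn1, CGN.lk_eq _ (⟨0, hn1⟩ : Fin n) rfl, map_mul, hχ ⟨0, hn1⟩]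
    simp
  have hdet : ((ρ' (σ ^ (e : ℤ)) : Matrix (Fin n) (Fin n) k).map
      (algebraMap k (AlgebraicClosure k))).det =
      ((Nm v : ℕ) : AlgebraicClosure k) ^ (n * (n - 1) / 2) * χ ^ n := by
    have h0 := g5d_coeff (fun j => CGN.eig m k (⟨v, hvS⟩, j)) 1 ((Nm v : ℕ) : k) n le_rfl
    rw [Nat.sub_self] at h0
    rw [Matrix.det_eq_sign_charpoly_coeff, hcp, Polynomial.coeff_map, Fintype.card_fin, h0,
      CGN.lk_eq _ (⟨n - 1, by omega⟩ : Fin n) (by simp; omega), map_mul, hχ ⟨n - 1, by omega⟩,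
      deg_last v _ (by simp; omega)]
    have h2 : ((⟨n - 1, by omega⟩ : Fin n) : ℕ) + 1 = n := by simp; omega
    rw [h2, ← mul_assoc]
    simp only [map_mul, map_pow, map_neg, map_one, one_pow, mul_one, map_natCast, Nat.cast_one,
      one_mul]
    rw [← mul_assoc, ← mul_pow]
    simp
  have hAN : (((ρ' (σ ^ (e : ℤ)) : Matrix (Fin n) (Fin n) k).map
      (algebraMap k (AlgebraicClosure k)))) ^ N = 1 := by
    have h1 : ((ρ' (σ ^ (e : ℤ)) : Matrix (Fin n) (Fin n) k)) ^ N = 1 := by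
      rw [← Units.val_pow_eq_pow_val, hN1, Units.val_one]
    rw [← Matrix.map_pow, h1, Matrix.map_one _ (map_zero _) (map_one _)]
  have h1 := g5_bound (K := AlgebraicClosure k) hn1 hNv hN _ hAN χ htr hdet
  have h2 := deg_zero_ge v hn1
  have h3 : (Nm v ^ (n - 1)) * (Nm v ^ (n - 1)) ≤ n ^ 2 * Nm v ^ (n - 1) := by
    calc (Nm v ^ (n - 1)) * (Nm v ^ (n - 1)) = (Nm v ^ (n - 1)) ^ 2 := by ring
      _ ≤ (deg v (some (⟨0, hn1⟩ : Fin n))) ^ 2 := Nat.pow_le_pow_left h2 2
      _ ≤ _ := h1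
  have h4 : Nm v ^ (n - 1) ≤ n ^ 2 := Nat.le_of_mul_le_mul_right h3 (pow_pos hNv _)
  have h5 : Nm v ≤ Nm v ^ (n - 1) := Nat.le_self_pow (by omega) _
  omega
/- END G5 -/

end Pool.Agent.BRQ
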