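import Mathlib

/-!
# The topology of a finitely generated module over a complete discrete valuation ring
-/

set_option autoImplicit false

noncomputable section

namespace Pool.Agent.BRQ

open Filter Topology

/- MODULE W1 -/
private theorem w1_prec (O : Type) [CommRing O] (I : Ideal O) [IsPrecomplete I O]
    (W : Type) [AddCommGroup W] [Module O W] [Module.Finite O W]
    (g : ℕ → W) (hg : ∀ i, g (i + 1) - g i ∈ (I ^ i • ⊤ : Submodule O W)) :
    ∃ L : W, ∀ i, L - g i ∈ (I ^ i • ⊤ : Submodule O W) := by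
  classical
  obtain ⟨n, f, hf⟩ := Module.Finite.exists_fin' O W
  have hmap : ∀ i : ℕ, (I ^ i • ⊤ : Submodule O W) =
      (I ^ i • ⊤ : Submodule O (Fin n → O)).map f := by
    intro i
    rw [Submodule.map_smul'', Submodule.map_top, LinearMap.range_eq_top.2 hf]
  have hw : ∀ i, ∃ w ∈ (I ^ i • ⊤ : Submodule O (Fin n → O)), f w = g (i + 1) - g i := by
    intro i
    have := hg i
    rw [hmap i] at this
    simpa [Submodule.mem_map] using this
  choose w hwm hwf using hw
  obtain ⟨x0, hx0⟩ := hf (g 0)
  have hcomp : ∀ (i : ℕ) (v : Fin n → O), v ∈ (I ^ i • ⊤ : Submodule O (Fin n → O)) →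
      ∀ k, v k ∈ I ^ i := by
    intro i v hv k
    have h1 : (LinearMap.proj k : (Fin n → O) →ₗ[O] O) v ∈
        (I ^ i • ⊤ : Submodule O (Fin n → O)).map (LinearMap.proj k : (Fin n → O) →ₗ[O] O) :=
      Submodule.mem_map_of_mem hv
    rw [Submodule.map_smul''] at h1
    have h2 := Submodule.smul_mono (le_refl (I ^ i)) (le_top (a := Submodule.map
      (LinearMap.proj k : (Fin n → O) →ₗ[O] O) ⊤)) h1
    simpa using h2
  have hcomp' : ∀ (i : ℕ) (v : Fin n → O), (∀ k, v k ∈ I ^ i) →
      v ∈ (I ^ i • ⊤ : Submodule O (Fin n → O)) := by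
    intro i v hv
    rw [pi_eq_sum_univ' v]
    refine Submodule.sum_mem _ fun k _ => ?_
    exact Submodule.smul_mem_smul (hv k) trivial
  let S : ℕ → Fin n → O := fun N => x0 + ∑ j ∈ Finset.range N, w j
  have hfS : ∀ N, f (S N) = g N := by
    intro N
    simp only [S, map_add, map_sum, hx0, hwf, Finset.sum_range_sub]
    abel
  have hS : ∀ N k, S (N + 1) k - S N k ∈ I ^ N := by
    intro N k
    have : S (N + 1) k - S N k = w N k := by
      simp only [S, Finset.sum_range_succ, Pi.add_apply]
      ring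
    rw [this]
    exact hcomp N _ (hwm N) k
  have hS' : ∀ k (m N : ℕ), m ≤ N → S m k ≡ S N k [SMOD (I ^ m • ⊤ : Submodule O O)] := by
    intro k m N hmN
    induction N, hmN using Nat.le_induction with
    | base => exact SModEq.refl _
    | succ N hmN ih =>
      refine ih.trans (SModEq.symm ?_)
      rw [SModEq.sub_mem]
      have h1 : I ^ N ≤ I ^ m := Ideal.pow_le_pow_right hmN
      simpa using h1 (hS N k)
  have hL : ∀ k, ∃ L : O, ∀ N, S N k ≡ L [SMOD (I ^ N • ⊤ : Submodule O O)] := fun k =>
    IsPrecomplete.prec' (fun N => S N k) (fun {m N} h => hS' k m N h)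
  choose L hL using hL
  refine ⟨f L, fun i => ?_⟩
  rw [← hfS i, ← map_sub, hmap i]
  refine Submodule.mem_map_of_mem (hcomp' i _ fun k => ?_)
  have h1 := (hL k i).symm
  rw [SModEq.sub_mem] at h1
  simpa using h1

/-- The `𝔪`-adic topology of a finitely generated module: Hausdorff by Krull's intersection theorem,
complete because the module is a quotient of `O ^ r`. -/
theorem exists_wtop (O : Type) [CommRing O] [IsLocalRing O] [IsNoetherianRing O]
    [IsAdicComplete (IsLocalRing.maximalIdeal O) O] (W : Type) [AddCommGroup W] [Module O W]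
    [Module.Finite O W] :
    ∃ u : UniformSpace W, IsUniformAddGroup W ∧ CompleteSpace W ∧ T2Space W ∧
      NonarchimedeanAddGroup W ∧ ContinuousConstSMul O W ∧
      (∀ U ∈ 𝓝 (0 : W), ∃ m : ℕ,
        (((IsLocalRing.maximalIdeal O ^ m • ⊤ : Submodule O W)) : Set W) ⊆ U) ∧
      (∀ m : ℕ, IsOpen ((((IsLocalRing.maximalIdeal O ^ m • ⊤ : Submodule O W)) : Set W))) := by
  classical
  let I := IsLocalRing.maximalIdeal O
  let tO : TopologicalSpace O := I.adicTopology
  have hB := I.ringFilterBasis.submodulesBasisIsBasis (I.adic_module_basis W)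
  let MB := hB.toModuleFilterBasis
  let tW : TopologicalSpace W := hB.topology
  have hbas : (𝓝 (0 : W)).HasBasis (fun _ : ℕ => True)
      fun m => ((I ^ m • ⊤ : Submodule O W) : Set W) := by
    refine ⟨fun U => ?_⟩
    rw [MB.toAddGroupFilterBasis.nhds_zero_hasBasis.mem_iff]
    constructor
    · rintro ⟨-, ⟨i, rfl⟩, h⟩
      exact ⟨i, trivial, h⟩
    · rintro ⟨i, -, h⟩
      exact ⟨_, ⟨i, rfl⟩, h⟩
  have hadd : IsTopologicalAddGroup W := MB.toAddGroupFilterBasis.isTopologicalAddGroup
  have hna : NonarchimedeanAddGroup W := hB.nonarchimedean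
  let u : UniformSpace W := IsTopologicalAddGroup.rightUniformSpace W
  have hu : IsUniformAddGroup W := isUniformAddGroup_of_addCommGroup
  have hopen : ∀ m : ℕ, IsOpen (((I ^ m • ⊤ : Submodule O W)) : Set W) := fun m =>
    (hB.openAddSubgroup m).isOpen
  have hT2 : T2Space W := by
    have h0 : (⨅ i : ℕ, I ^ i • ⊤ : Submodule O W) = ⊥ :=
      Ideal.iInf_pow_smul_eq_bot_of_isLocalRing I (Ideal.IsPrime.ne_top inferInstance)
    refine IsTopologicalAddGroup.t2Space_of_zero_sep fun x hx => ?_
    by_contra hcon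
    push Not at hcon
    apply hx
    have : x ∈ (⨅ i : ℕ, I ^ i • ⊤ : Submodule O W) := by
      rw [Submodule.mem_iInf]
      intro i
      exact hcon _ (hbas.mem_of_mem (i := i) trivial)
    rw [h0] at this
    simpa using this
  have hsm : ContinuousConstSMul O W := by
    refine ⟨fun a => ?_⟩
    have : Continuous (DistribSMul.toAddMonoidHom W a) := by
      apply continuous_of_continuousAt_zero
      rw [ContinuousAt, map_zero, hbas.tendsto_iff hbas]
      intro i _
      exact ⟨i, trivial, fun x hx => Submodule.smul_mem _ a hx⟩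
    exact this
  have hcs : CompleteSpace W := by
    have := hbas.isCountablyGenerated
    have : (uniformity W).IsCountablyGenerated :=
      IsUniformAddGroup.uniformity_countably_generated
    refine UniformSpace.complete_of_cauchySeq_tendsto fun v hv ↦ ?_
    have h1 : ∀ i : ℕ, ∃ N, ∀ m, N ≤ m → ∀ n, N ≤ n → v n - v m ∈ (I ^ i • ⊤ : Submodule O W) := by
      simpa using hbas.uniformity_of_nhds_zero.cauchySeq_iff.mp hv
    choose N hN using h1
    let M : ℕ → ℕ := fun i => (Finset.Iic i).sup N
    have hM : ∀ i, N i ≤ M i := fun i => Finset.le_sup (by simp)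
    have hMs : ∀ i, N i ≤ M (i + 1) := fun i => Finset.le_sup (by simp)
    obtain ⟨L, hL⟩ := w1_prec O I W (fun i => v (M i)) (fun i => hN i _ (hM i) _ (hMs i))
    refine ⟨L, ?_⟩
    have h2 : Tendsto (fun n => v n - L) atTop (𝓝 0) := by
      rw [hbas.tendsto_right_iff]
      intro i _
      filter_upwards [eventually_ge_atTop (M i)] with n hn
      have h3 := hN i (M i) (hM i) n ((hM i).trans hn)
      have h4 := Submodule.sub_mem _ h3 (hL i)
      have h5 : v n - v (M i) - (L - v (M i)) = v n - L := by abel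
      rw [h5] at h4
      exact h4
    have h3 := h2.add_const L
    simpa using h3
  exact ⟨u, hu, hcs, hT2, hna, hsm, fun U hU => by
    obtain ⟨m, -, hm⟩ := hbas.mem_iff.1 hU
    exact ⟨m, hm⟩, hopen⟩
/- END W1 -/

end Pool.Agent.BRQ
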