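import Pool.Agent.BRQ.Tr
import Pool.Agent.BRQ.Dd2
import Pool.Agent.BRQ.Gal
import Pool.Agent.BRQ.Wt

/-!
# The vanishing theorem below the rank, from Theorem T
-/

set_option autoImplicit false

noncomputable section

namespace Pool.Agent.BRQ

open Matrix Filter Topology NumberField IsDedekindDomain
open Pool.Agent.BR80
open Pool.Agent.CG2 (Pl Fv Ov RPl GalF)
open Pool.Agent.CGN (GQ GZ Idx HeckeAlg Chart Unram UnramOff NonEis AttachedN)
open Pool.Agent.CGQ (Sys Forms)

/-- The consequence of Theorem T for `n` used here. -/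
def ThTw (F : Type) [Field F] [NumberField F] (n : ℕ) : Prop :=
  ∀ (W : Type) [AddCommGroup W] [UniformSpace W] [IsUniformAddGroup W] [CompleteSpace W]
    [T2Space W] [NonarchimedeanAddGroup W] (p₀ : ℕ) (hp₀ : 0 < p₀)
    (hW : ∀ U : OpenAddSubgroup W, ∃ e : ℕ, ∀ w : W, p₀ ^ e • w ∈ U) (q : ℕ), q + 2 ≤ n →
      TwN (BRW.worldNF F W p₀ hp₀ hW) n q

/-- **The structure theorem below the rank.** A maximal ideal in the support of the cohomology in
degree `i ≤ n - 2` has eigenvalues of the form `deg_j χ^(j+1)` at all places outside `S` with at most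
`i` exceptions. -/
theorem core_triv {F : Type} [Field F] [NumberField F] {n : ℕ} (hT : ThTw F n) {S : Set (Pl F)}
    {O : Type} [CommRing O] [IsLocalRing O] [IsNoetherianRing O]
    [IsAdicComplete (IsLocalRing.maximalIdeal O) O] {p : ℕ} [hp : Fact p.Prime]
    (hpO : (p : O) ∈ IsLocalRing.maximalIdeal O) {W : Type} [AddCommGroup W] [Module O W]
    [Module.Finite O W] (K : Subgroup (sysG F n).A)
    (hK : ∃ U : ∀ v : Pl F, Subgroup ((sysG F n).L v),
      (∀ v, IsOpen (U v : Set ((sysG F n).L v))) ∧ {v | ¬ (sysG F n).B v ≤ U v}.Finite ∧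
        ∀ k : (sysG F n).A, (∀ v, k.1 v ∈ U v) → k ∈ K)
    (τ : Representation O K W) (hU : UnramOff K τ (chG F n S))
    (hτ : CGN.Cont K τ (chG F n S)) (m : Ideal (HeckeAlg (F := F) n S O)) [m.IsPrime] (k : Type)
    [Field k] [Algebra (HeckeAlg (F := F) n S O ⧸ m) k] (i : ℕ) (hi : i + 2 ≤ n)
    (hnd : ¬ CGN.Dead K τ hU i m) :
    ∃ T : Finset (Pl F), T.card ≤ i ∧ ∀ v : {v : Pl F // v ∉ S}, v.1 ∉ T →
      Eig (fun t => CGN.eig m k t) v := by
  -- the topology of `W`
  obtain ⟨u, h1, h2, h3, h4, h5, h6, h7⟩ := exists_wtop O W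
  have hW : ∀ U : OpenAddSubgroup W, ∃ e : ℕ, ∀ w : W, p ^ e • w ∈ U := by
    intro U
    obtain ⟨e, he⟩ := h6 (U : Set W) U.mem_nhds_zero
    refine ⟨e, fun w => he ?_⟩
    have h8 : p ^ e • w = (p : O) ^ e • w := by
      rw [← Nat.cast_pow, Nat.cast_smul_eq_nsmul]
    rw [h8]
    exact Submodule.smul_mem_smul (Ideal.pow_mem_pow hpO e) trivial
  -- the level
  obtain ⟨L, e, he, hLτ⟩ := exists_lvl (O := O) (W := W) h6 h7 K hK τ hU hτ
  obtain ⟨T, hc, hT'⟩ := main_triv L p hp.out.pos hW (hT W p hp.out.pos hW) m k i hi ∅ (by simp)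
    (fun h => hnd (dead_transfer hU L e he hLτ m i h))
  exact ⟨T, hc, fun v hv => hT' v (by simp) hv⟩

/-- The characteristic of the field `k`. -/
theorem char_cases {A : Type} [CommRing A] {O : Type} [CommRing O] [IsLocalRing O] (f : O →+* A)
    {p : ℕ} [hp : Fact p.Prime] (hpO : (p : O) ∈ IsLocalRing.maximalIdeal O) (k : Type) [Field k]
    [Algebra A k] : CharP k p ∨ CharZero k := by
  let g : O →+* k := (algebraMap A k).comp f
  rcases CharP.exists k with ⟨q, hq⟩
  rcases CharP.char_is_prime_or_zero k q with hqp | rfl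
  · left
    have hqe : q = p := by
      by_contra hne
      have h8 : (q : O) ∈ IsLocalRing.maximalIdeal O := by
        rw [IsLocalRing.mem_maximalIdeal, mem_nonunits_iff]
        intro hu
        have h9 := hu.map g
        rw [map_natCast, CharP.cast_eq_zero] at h9
        exact not_isUnit_zero h9
      have h10 : Nat.Coprime q p := (Nat.coprime_primes hqp hp.out).2 hne
      have h11 : ((1 : ℤ) : O) = (q : O) * (Nat.gcdA q p : ℤ) + (p : O) * (Nat.gcdB q p : ℤ) := by
        have := Nat.gcd_eq_gcd_ab q p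
        rw [h10] at this
        have h12 := congrArg (Int.cast : ℤ → O) this
        push_cast at h12
        rw [← h12]
        norm_num
      have h13 : (1 : O) ∈ IsLocalRing.maximalIdeal O := by
        rw [← Int.cast_one, h11]
        exact Ideal.add_mem _ (Ideal.mul_mem_right _ _ h8) (Ideal.mul_mem_right _ _ hpO)
      exact (Ideal.ne_top_iff_one _).1 (IsLocalRing.maximalIdeal.isMaximal O).ne_top h13
    subst hqe
    exact hq
  · right
    exact CharP.charP_to_charZero k

/-- **The vanishing theorem below the rank.** -/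
theorem core {F : Type} [Field F] [NumberField F] {n : ℕ} (hT : ThTw F n) {S : Set (Pl F)}
    (hS : S.Finite) {O : Type} [CommRing O] [IsLocalRing O] [IsNoetherianRing O]
    [IsAdicComplete (IsLocalRing.maximalIdeal O) O] {p : ℕ} [hp : Fact p.Prime]
    (hpO : (p : O) ∈ IsLocalRing.maximalIdeal O) {W : Type} [AddCommGroup W] [Module O W]
    [Module.Finite O W] (K : Subgroup (sysG F n).A)
    (hK : ∃ U : ∀ v : Pl F, Subgroup ((sysG F n).L v),
      (∀ v, IsOpen (U v : Set ((sysG F n).L v))) ∧ {v | ¬ (sysG F n).B v ≤ U v}.Finite ∧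
        ∀ k : (sysG F n).A, (∀ v, k.1 v ∈ U v) → k ∈ K)
    (τ : Representation O K W) (hU : UnramOff K τ (chG F n S))
    (hτ : CGN.Cont K τ (chG F n S)) (m : Ideal (HeckeAlg (F := F) n S O)) [m.IsMaximal] (k : Type)
    [Field k] [Algebra (HeckeAlg (F := F) n S O ⧸ m) k] (ρ : GalF F →* GL (Fin n) k)
    (hA : AttachedN m k ρ) (hne : NonEis ρ) (i : ℕ) (hi : i + 2 ≤ n) : CGN.Dead K τ hU i m := by
  by_contra hnd
  obtain ⟨T, -, hT'⟩ := core_triv hT hpO K hK τ hU hτ m k i hi hnd
  have hn : 2 ≤ n := by omega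
  have hE : ∃ v : {v : Pl F // v ∉ S}, v.1 ∉ T ∧ ¬ Eig (fun t => CGN.eig m k t) v := by
    rcases char_cases ((Ideal.Quotient.mk m).comp (MvPolynomial.C (R := O) (σ := Idx (F := F) n S)))
      hpO k with h | h
    · exact exists_not_eig hS m k (p := p) hn ρ hA hne T
    · exact exists_not_eig_zero hS m k hn ρ hA T
  obtain ⟨v, hv, hv'⟩ := hE
  exact hv' (hT' v hv)

end Pool.Agent.BRQ
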