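import Pool.Agent.BRW.Nf
import Pool.Agent.CGN.Hecke

/-!
# The adelic group `GL_n(A)`, `A` the ring of finite adeles
-/

set_option autoImplicit false

noncomputable section

namespace Pool.Agent.BRQ

open Matrix Filter Topology NumberField IsDedekindDomain
open Pool.Agent.CG2 (Pl Fv Ov)
open Pool.Agent.CGN (GQ GZ)

variable (F : Type) [Field F] [NumberField F]

/-- The ring of the finite adeles, as in `BRW`. -/
abbrev AA : Type := (BRW.globNF F).A

/-- The group `GL_n(A)`. -/
abbrev GA (n : ℕ) : Type := GL (Fin n) (AA F)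

variable {F}

/-- The embedding of `F` in the adeles. -/
def emA : F →+* AA F := (BRW.globNF F).embA

/-- The component of an adele. -/
def prj (v : Pl F) : AA F →+* Fv v where
  toFun := fun x => x v
  map_one' := rfl
  map_mul' := fun _ _ => rfl
  map_zero' := rfl
  map_add' := fun _ _ => rfl

variable {n : ℕ}

/-- The component of an element of `GL_n(A)`. -/
def comp (v : Pl F) : GA F n →* GQ n v := GeneralLinearGroup.map (prj v)

/- MODULE AD1 -/
theorem continuous_prj (v : Pl F) : Continuous (prj v) := by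

  exact ((BRW.Glob.cont_A_iff (G := BRW.globNF F)).1 continuous_id).1 v

theorem prj_emA (v : Pl F) (x : F) : prj v (emA x) = algebraMap F (Fv v) x := by

  rfl

theorem continuous_comp (v : Pl F) : Continuous (comp (n := n) v) := by

  refine Continuous.units_map _ ?_
  exact continuous_id.matrix_map (continuous_prj v)

theorem ga_ext {g h : GA F n} (H : ∀ v, comp v g = comp v h) : g = h := by

  refine Units.ext (Matrix.ext fun i j => ?_)
  refine DFunLike.ext _ _ fun v => ?_
  exact congrArg (fun x : GQ n v => (x : Matrix (Fin n) (Fin n) (Fv v)) i j) (H v)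

theorem comp_map (v : Pl F) (γ : GL (Fin n) F) :
    comp v (GeneralLinearGroup.map emA γ) =
      GeneralLinearGroup.map (algebraMap F (Fv v)) γ := by

  exact Units.ext (Matrix.ext fun i j => rfl)

theorem ga_fin (g : GA F n) : {v : Pl F | comp v g ∉ GZ n v}.Finite := by

  have h1 : ∀ i j, ∀ᶠ v in cofinite,
      (BRW.globNF F).val v ((g : Matrix (Fin n) (Fin n) (AA F)) i j v) ≤ 1 :=
    fun i j => ((g : Matrix (Fin n) (Fin n) (AA F)) i j).2
  have h2 : ∀ i j, ∀ᶠ v in cofinite,
      (BRW.globNF F).val v (((g⁻¹ : GA F n) : Matrix (Fin n) (Fin n) (AA F)) i j v) ≤ 1 :=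
    fun i j => (((g⁻¹ : GA F n) : Matrix (Fin n) (Fin n) (AA F)) i j).2
  have h3 := eventually_all.2 fun i => eventually_all.2 fun j => h1 i j
  have h4 := eventually_all.2 fun i => eventually_all.2 fun j => h2 i j
  have h5 : ∀ᶠ v in cofinite, comp v g ∈ GZ n v := by
    filter_upwards [h3, h4] with v h3 h4
    rw [Pool.Agent.CGN.mem_GZ_iff]
    refine ⟨fun i j => h3 i j, fun i j => ?_⟩
    rw [← map_inv]
    exact h4 i j
  exact h5

/-- Families which are almost everywhere integral give elements of `GL_n(A)`. -/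
theorem exists_ga (g : ∀ v : Pl F, GQ n v) (h : {v : Pl F | g v ∉ GZ n v}.Finite) :
    ∃ x : GA F n, ∀ v, comp v x = g v := by

  have h5 : ∀ᶠ v in cofinite, g v ∈ GZ n v := h
  have h1 : ∀ i j, ∀ᶠ v in cofinite, Valued.v ((g v : Matrix (Fin n) (Fin n) (Fv v)) i j) ≤ 1 := by
    intro i j
    filter_upwards [h5] with v hv
    exact ((Pool.Agent.CGN.mem_GZ_iff v (g v)).1 hv).1 i j
  have h2 : ∀ i j, ∀ᶠ v in cofinite,
      Valued.v ((((g v)⁻¹ : GQ n v) : Matrix (Fin n) (Fin n) (Fv v)) i j) ≤ 1 := by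
    intro i j
    filter_upwards [h5] with v hv
    exact ((Pool.Agent.CGN.mem_GZ_iff v (g v)).1 hv).2 i j
  let X : Matrix (Fin n) (Fin n) (AA F) := fun i j =>
    ⟨fun v => (g v : Matrix (Fin n) (Fin n) (Fv v)) i j, h1 i j⟩
  let Y : Matrix (Fin n) (Fin n) (AA F) := fun i j =>
    ⟨fun v => (((g v)⁻¹ : GQ n v) : Matrix (Fin n) (Fin n) (Fv v)) i j, h2 i j⟩
  have hX : ∀ v, X.map (prj v) = (g v : Matrix (Fin n) (Fin n) (Fv v)) := fun v =>
    Matrix.ext fun i j => rfl
  have hY : ∀ v, Y.map (prj v) = (((g v)⁻¹ : GQ n v) : Matrix (Fin n) (Fin n) (Fv v)) := fun v =>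
    Matrix.ext fun i j => rfl
  have hext : ∀ M M' : Matrix (Fin n) (Fin n) (AA F), (∀ v, M.map (prj v) = M'.map (prj v)) →
      M = M' := by
    intro M M' H
    refine Matrix.ext fun i j => DFunLike.ext _ _ fun v => ?_
    exact congrFun (congrFun (H v) i) j
  have hXY : X * Y = 1 := by
    refine hext _ _ fun v => ?_
    rw [Matrix.map_mul, hX, hY, Matrix.map_one _ (map_zero _) (map_one _)]
    exact congrArg Units.val (mul_inv_cancel (g v))
  have hYX : Y * X = 1 := by
    refine hext _ _ fun v => ?_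
    rw [Matrix.map_mul, hX, hY, Matrix.map_one _ (map_zero _) (map_one _)]
    exact congrArg Units.val (inv_mul_cancel (g v))
  exact ⟨⟨X, Y, hXY, hYX⟩, fun v => Units.ext (hX v)⟩
/- END AD1 -/

/- MODULE AD2 -/
/-- Near a point a continuous map is integral outside a finite set (`BRW.Glob.eventually_int` for
the map and its inverse). -/
theorem ga_near {Y : Type} [TopologicalSpace Y] {f : Y → GA F n} (hf : Continuous f) (y₀ : Y) :
    ∃ S : Set (Pl F), S.Finite ∧ ∀ᶠ y in 𝓝 y₀, ∀ v, v ∉ S → comp v (f y) ∈ GZ n v := by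

  have c1 : Continuous fun y => ((f y : GA F n) : Matrix (Fin n) (Fin n) (AA F)) :=
    Units.continuous_val.comp hf
  have c2 : Continuous fun y => (((f y)⁻¹ : GA F n) : Matrix (Fin n) (Fin n) (AA F)) :=
    Units.continuous_val.comp (continuous_inv.comp hf)
  obtain ⟨S1, hS1, e1⟩ := BRW.Glob.eventually_int (G := BRW.globNF F) c1 y₀
  obtain ⟨S2, hS2, e2⟩ := BRW.Glob.eventually_int (G := BRW.globNF F) c2 y₀
  refine ⟨S1 ∪ S2, hS1.union hS2, ?_⟩
  filter_upwards [e1, e2] with y e1 e2 v hv
  rw [Pool.Agent.CGN.mem_GZ_iff]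
  refine ⟨fun i j => e1 v (fun h => hv (Or.inl h)) i j, fun i j => ?_⟩
  rw [← map_inv]
  exact e2 v (fun h => hv (Or.inr h)) i j

theorem isOpen_ga (U : ∀ v : Pl F, Subgroup (GQ n v))
    (hU : ∀ v, IsOpen (U v : Set (GQ n v))) (hf : {v : Pl F | ¬ GZ n v ≤ U v}.Finite) :
    IsOpen {g : GA F n | ∀ v, comp v g ∈ U v} := by

  rw [isOpen_iff_mem_nhds]
  intro g₀ hg₀
  obtain ⟨S, hS, e⟩ := ga_near (F := F) (n := n) continuous_id g₀
  have h1 : ∀ᶠ g in 𝓝 g₀, ∀ v ∈ S ∪ {v : Pl F | ¬ GZ n v ≤ U v}, comp v g ∈ U v := by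
    rw [Filter.eventually_all_finite (hS.union hf)]
    intro v _
    exact (continuous_comp v).continuousAt.eventually ((hU v).mem_nhds (hg₀ v))
  filter_upwards [e, h1] with g e h1 v
  by_cases hv : v ∈ S ∪ {v : Pl F | ¬ GZ n v ≤ U v}
  · exact h1 v hv
  · have h2 : GZ n v ≤ U v := by
      by_contra h
      exact hv (Or.inr h)
    exact h2 (e v fun h => hv (Or.inl h))
/- END AD2 -/

/- MODULE AD3 -/
theorem exists_sgl (v : Pl F) : ∃ f : GQ n v →* GA F n, (∀ h, comp v (f h) = h) ∧
    ∀ h w, w ≠ v → comp w (f h) = 1 := by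

  classical
  have hfin : ∀ h : GQ n v, {w : Pl F | (Pi.mulSingle v h : ∀ w, GQ n w) w ∉ GZ n w}.Finite := by
    intro h
    refine (Set.finite_singleton v).subset fun w hw => ?_
    by_contra hne
    apply hw
    have h1 : (Pi.mulSingle v h : ∀ w, GQ n w) w = 1 := Pi.mulSingle_eq_of_ne hne h
    rw [h1]
    exact (GZ n w).one_mem
  choose f hf using fun h : GQ n v => exists_ga (F := F) (n := n) _ (hfin h)
  refine ⟨⟨⟨f, ga_ext fun w => ?_⟩, fun a b => ga_ext fun w => ?_⟩, fun h => ?_, fun h w hw => ?_⟩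
  · rw [hf, Pi.mulSingle_one, map_one]
    rfl
  · change comp w (f (a * b)) = comp w (f a * f b)
    rw [map_mul, hf, hf, hf, Pi.mulSingle_mul]
    rfl
  · exact (hf h v).trans (Pi.mulSingle_eq_same v h)
  · exact (hf h w).trans (Pi.mulSingle_eq_of_ne hw h)

/-- Remove the components at the places in the finite set `T` (with the idempotent `e` of `T`:
`g ↦ (1 - e) g + e`). -/
theorem exists_cut (T : Finset (Pl F)) : ∃ f : GA F n →* GA F n, Continuous f ∧
    (∀ g, ∀ v ∈ T, comp v (f g) = 1) ∧ ∀ g v, v ∉ T → comp v (f g) = comp v g := by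

  classical
  have hfin : ∀ g : GA F n, {w : Pl F | (if w ∈ T then 1 else comp w g : GQ n w) ∉ GZ n w}.Finite := by
    intro g
    refine (ga_fin g).subset fun w hw hw2 => hw ?_
    split_ifs
    · exact (GZ n w).one_mem
    · exact hw2
  choose f hf using fun g : GA F n => exists_ga (F := F) (n := n) _ (hfin g)
  have hf1 : ∀ g, ∀ v ∈ T, comp v (f g) = 1 := by
    intro g v hv
    rw [hf, if_pos hv]
  have hf2 : ∀ g v, v ∉ T → comp v (f g) = comp v g := by
    intro g v hv
    rw [hf, if_neg hv]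
  let φ : GA F n →* GA F n :=
    { toFun := f
      map_one' := ga_ext fun w => by
        rw [map_one]
        by_cases hw : w ∈ T
        · rw [hf1 _ w hw]
        · rw [hf2 _ w hw, map_one]
      map_mul' := fun a b => ga_ext fun w => by
        rw [map_mul]
        by_cases hw : w ∈ T
        · rw [hf1 _ w hw, hf1 _ w hw, hf1 _ w hw, one_mul]
        · rw [hf2 _ w hw, hf2 _ w hw, hf2 _ w hw, map_mul] }
  have hv : Continuous fun g : GA F n => ((f g : GA F n) : Matrix (Fin n) (Fin n) (AA F)) := by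
    refine continuous_matrix fun i j => ?_
    rw [BRW.Glob.cont_A_iff (G := BRW.globNF F)]
    constructor
    · intro v
      by_cases hv : v ∈ T
      · have e : (fun g : GA F n => ((f g : GA F n) : Matrix (Fin n) (Fin n) (AA F)) i j v) =
            fun _ => (1 : Matrix (Fin n) (Fin n) (Fv v)) i j := by
          funext g
          exact congrArg (fun x : GQ n v => (x : Matrix (Fin n) (Fin n) (Fv v)) i j) (hf1 g v hv)
        rw [e]
        exact continuous_const
      · have e : (fun g : GA F n => ((f g : GA F n) : Matrix (Fin n) (Fin n) (AA F)) i j v) =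
            fun g => ((comp v g : GQ n v) : Matrix (Fin n) (Fin n) (Fv v)) i j := by
          funext g
          exact congrArg (fun x : GQ n v => (x : Matrix (Fin n) (Fin n) (Fv v)) i j) (hf2 g v hv)
        rw [e]
        exact (Units.continuous_val.comp (continuous_comp v)).matrix_elem i j
    · intro g₀
      obtain ⟨S, hS, e⟩ := ga_near (F := F) (n := n) continuous_id g₀
      refine ⟨S, hS, ?_⟩
      filter_upwards [e] with g e v hv
      have h1 : comp v (f g) ∈ GZ n v := by
        by_cases hT : v ∈ T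
        · rw [hf1 g v hT]
          exact (GZ n v).one_mem
        · rw [hf2 g v hT]
          exact e v hv
      exact ((Pool.Agent.CGN.mem_GZ_iff v _).1 h1).1 i j
  refine ⟨φ, Units.continuous_iff.2 ⟨hv, ?_⟩, hf1, hf2⟩
  have e : (fun g : GA F n => (((φ g)⁻¹ : GA F n) : Matrix (Fin n) (Fin n) (AA F))) =
      fun g => ((f g⁻¹ : GA F n) : Matrix (Fin n) (Fin n) (AA F)) := by
    funext g
    rw [← map_inv]
    rfl
  rw [e]
  exact hv.comp continuous_inv
/- END AD3 -/

/-- The embedding of `GL_n(F_v)` in `GL_n(A)`. -/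
def sgl (v : Pl F) : GQ n v →* GA F n := (exists_sgl v).choose

theorem comp_sgl (v : Pl F) (h : GQ n v) : comp v (sgl v h) = h := (exists_sgl v).choose_spec.1 h

theorem comp_sgl_ne {v w : Pl F} (hw : w ≠ v) (h : GQ n v) : comp w (sgl v h) = 1 :=
  (exists_sgl v).choose_spec.2 h w hw

/-- Remove the components at the places in `T`. -/
def cut (T : Finset (Pl F)) : GA F n →* GA F n := (exists_cut T).choose

theorem continuous_cut (T : Finset (Pl F)) : Continuous (cut (n := n) T) :=
  (exists_cut T).choose_spec.1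

theorem comp_cut {T : Finset (Pl F)} (g : GA F n) {v : Pl F} (hv : v ∈ T) :
    comp v (cut T g) = 1 := (exists_cut T).choose_spec.2.1 g v hv

theorem comp_cut_ne {T : Finset (Pl F)} (g : GA F n) {v : Pl F} (hv : v ∉ T) :
    comp v (cut T g) = comp v g := (exists_cut T).choose_spec.2.2 g v hv

end Pool.Agent.BRQ
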