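import Mathlib

/-!
# Lying over for the algebra generated by the monomials `d_j T^(j+1)`
-/

set_option autoImplicit false

noncomputable section

namespace Pool.Agent.BRQ

open scoped Polynomial

/-- The exponents: `j + 1` for `some j` and `-n` for `none`. -/
def ex (n : ℕ) (j : Option (Fin n)) : ℤ := Option.elim j (-(n : ℤ)) fun i => (i : ℤ) + 1

/-- The homomorphism with `X_j ↦ d_j T^(ex j)`. -/
def phi (O : Type) [CommRing O] (n : ℕ) (d : Option (Fin n) → ℕ) :
    MvPolynomial (Option (Fin n)) O →ₐ[O] LaurentPolynomial O :=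
  MvPolynomial.aeval fun j => (d j : O) • LaurentPolynomial.T (ex n j)

/- MODULE A3 -/
open LaurentPolynomial in
private theorem a3_int {O : Type} [CommRing O] {n : ℕ} (hn : 1 ≤ n) (d : Option (Fin n) → ℕ)
    (h0 : d none = 1) (h1 : ∀ j : Fin n, (j : ℕ) + 1 = n → d (some j) = 1) :
    (phi O n d).toRingHom.IsIntegral := by
  have hpos : (phi O n d).toRingHom.IsIntegralElem (T (1 : ℤ)) := by
    have h := h1 ⟨n - 1, by omega⟩ (by simp; omega)
    have hx : phi O n d (MvPolynomial.X (some ⟨n - 1, by omega⟩)) = T (n : ℤ) := by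
      simp only [phi, MvPolynomial.aeval_X, h, Nat.cast_one, one_smul, ex, Option.elim]
      congr 1
      push_cast [Nat.cast_sub hn]
      ring
    refine ⟨Polynomial.X ^ n - Polynomial.C (MvPolynomial.X (some ⟨n - 1, by omega⟩)),
      Polynomial.monic_X_pow_sub_C _ (by omega), ?_⟩
    simp only [Polynomial.eval₂_sub, Polynomial.eval₂_pow, Polynomial.eval₂_X,
      Polynomial.eval₂_C, AlgHom.toRingHom_eq_coe, RingHom.coe_coe, hx, T_pow]
    simp
  have hneg : (phi O n d).toRingHom.IsIntegralElem (T (-1 : ℤ)) := by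
    have hx : phi O n d (MvPolynomial.X none) = T (-(n : ℤ)) := by
      simp only [phi, MvPolynomial.aeval_X, h0, Nat.cast_one, one_smul, ex, Option.elim]
    refine ⟨Polynomial.X ^ n - Polynomial.C (MvPolynomial.X none),
      Polynomial.monic_X_pow_sub_C _ (by omega), ?_⟩
    simp only [Polynomial.eval₂_sub, Polynomial.eval₂_pow, Polynomial.eval₂_X,
      Polynomial.eval₂_C, AlgHom.toRingHom_eq_coe, RingHom.coe_coe, hx, T_pow]
    simp
  intro f
  induction f using LaurentPolynomial.induction_on with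
  | h_C a =>
    have : C a = (phi O n d).toRingHom (MvPolynomial.C a) := by
      simp only [phi, AlgHom.toRingHom_eq_coe, RingHom.coe_coe, MvPolynomial.aeval_C]
      rfl
    rw [this]
    exact RingHom.isIntegralElem_map _
  | h_add hp hq => exact hp.add _ hq
  | h_C_mul_T k a h =>
    rw [T_add, ← mul_assoc]
    exact h.mul _ hpos
  | h_C_mul_T_Z k a h =>
    rw [sub_eq_add_neg, T_add, ← mul_assoc]
    exact h.mul _ hneg

/-- The ring of Laurent polynomials is integral over the image of `phi`, because it contains `T^n` and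
`T^(-n)`. The homomorphism `ψ` gives a homomorphism from this image to `κ`; it can be extended to a
homomorphism from the ring of Laurent polynomials to the algebraic closure of `κ` (lying over and
`IsAlgClosed.lift` for the quotients by the prime ideals). `χ` is the image of `T`. -/
theorem exists_chi {O : Type} [CommRing O] {n : ℕ} (hn : 1 ≤ n) (d : Option (Fin n) → ℕ)
    (h0 : d none = 1) (h1 : ∀ j : Fin n, (j : ℕ) + 1 = n → d (some j) = 1) {κ : Type} [Field κ]
    (ψ : MvPolynomial (Option (Fin n)) O →+* κ) (hψ : ∀ t, phi O n d t = 0 → ψ t = 0) :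
    ∃ χ : AlgebraicClosure κ, ∀ j : Fin n,
      algebraMap κ (AlgebraicClosure κ) (ψ (MvPolynomial.X (some j))) =
        (d (some j) : AlgebraicClosure κ) * χ ^ ((j : ℕ) + 1) := by
  classical
  let A := MvPolynomial (Option (Fin n)) O
  let L := LaurentPolynomial O
  let : Algebra A L := (phi O n d).toRingHom.toAlgebra
  have halg : ∀ t : A, algebraMap A L t = phi O n d t := fun t => rfl
  have : Algebra.IsIntegral A L := ⟨a3_int hn d h0 h1⟩
  let P : Ideal A := RingHom.ker ψ
  have hP : P.IsPrime := RingHom.ker_isPrime ψ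
  obtain ⟨Q, -, hQ, hQP⟩ := Ideal.exists_ideal_over_prime_of_isIntegral P (⊥ : Ideal L) (by
    intro t ht
    have : algebraMap A L t = 0 := by simpa using ht
    exact hψ t this)
  have := hQ
  -- the algebra structures
  have hle : P ≤ Q.comap (algebraMap A L) := hQP.ge
  let : Algebra (A ⧸ P) (L ⧸ Q) := (Ideal.quotientMap Q (algebraMap A L) hle).toAlgebra
  have hmk : ∀ t : A, algebraMap (A ⧸ P) (L ⧸ Q) (Ideal.Quotient.mk P t) =
      Ideal.Quotient.mk Q (algebraMap A L t) := fun t => rfl
  have hinj : Function.Injective (algebraMap (A ⧸ P) (L ⧸ Q)) :=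
    Ideal.quotientMap_injective' (f := algebraMap A L) (H := hle) hQP.le
  let ψ' : A ⧸ P →+* AlgebraicClosure κ :=
    (algebraMap κ (AlgebraicClosure κ)).comp (Ideal.Quotient.lift P ψ (fun a ha => ha))
  have hψ'inj : Function.Injective ψ' := by
    refine (algebraMap κ (AlgebraicClosure κ)).injective.comp ?_
    exact RingHom.kerLift_injective ψ
  let : Algebra (A ⧸ P) (AlgebraicClosure κ) := ψ'.toAlgebra
  have : Module.IsTorsionFree (A ⧸ P) (L ⧸ Q) := by
    have : FaithfulSMul (A ⧸ P) (L ⧸ Q) := (faithfulSMul_iff_algebraMap_injective _ _).2 hinj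
    infer_instance
  have : Module.IsTorsionFree (A ⧸ P) (AlgebraicClosure κ) := by
    have : FaithfulSMul (A ⧸ P) (AlgebraicClosure κ) :=
      (faithfulSMul_iff_algebraMap_injective _ _).2 hψ'inj
    infer_instance
  have : Algebra.IsIntegral (A ⧸ P) (L ⧸ Q) := by
    refine ⟨fun x => ?_⟩
    obtain ⟨y, rfl⟩ := Ideal.Quotient.mk_surjective x
    obtain ⟨p, hp, hpe⟩ := Algebra.IsIntegral.isIntegral (R := A) y
    refine ⟨p.map (Ideal.Quotient.mk P), hp.map _, ?_⟩
    have h2 : (algebraMap (A ⧸ P) (L ⧸ Q)).comp (Ideal.Quotient.mk P) =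
        (Ideal.Quotient.mk Q).comp (algebraMap A L) := RingHom.ext hmk
    rw [Polynomial.eval₂_map, h2, ← Polynomial.hom_eval₂, hpe, map_zero]
  let F : (L ⧸ Q) →ₐ[A ⧸ P] AlgebraicClosure κ := IsAlgClosed.lift
  refine ⟨F (Ideal.Quotient.mk Q (LaurentPolynomial.T 1)), fun j => ?_⟩
  have h2 : F (algebraMap (A ⧸ P) (L ⧸ Q)
      (Ideal.Quotient.mk P (MvPolynomial.X (some j) : A))) =
      algebraMap (A ⧸ P) (AlgebraicClosure κ)
        (Ideal.Quotient.mk P (MvPolynomial.X (some j) : A)) := F.commutes _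
  have h3 : algebraMap (A ⧸ P) (AlgebraicClosure κ)
        (Ideal.Quotient.mk P (MvPolynomial.X (some j) : A)) =
      algebraMap κ (AlgebraicClosure κ) (ψ (MvPolynomial.X (some j))) := rfl
  rw [← h3, ← h2, hmk, halg]
  have h4 : phi O n d (MvPolynomial.X (some j)) =
      (d (some j) : L) * (LaurentPolynomial.T 1) ^ ((j : ℕ) + 1) := by
    simp only [phi, MvPolynomial.aeval_X, ex, Option.elim, LaurentPolynomial.T_pow, mul_one]
    rw [Algebra.smul_def]
    congr 1
  rw [h4, map_mul, map_mul, map_pow, map_pow, map_natCast, map_natCast]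
/- END A3 -/

end Pool.Agent.BRQ
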