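import Pool.Agent.BRQ.Rz2
import Pool.Agent.BR80.ShaGS

/-!
# All continuous functions: reduction to `D × A`
-/

set_option autoImplicit false

noncomputable section

namespace Pool.Agent.BRQ

open Pool.Agent.BR80

variable (c : Ctx)

/-- Right translation by `p` on the space `D × GG × Z`. -/
def rp (D Z : Type) [TopologicalSpace D] [DiscreteTopology D] [MulAction c.Γ D]
    [TopologicalSpace Z] (p : c.GG) : GS.Hom (spc c D Z) (spc c D Z) where
  φ := MonoidHom.id _
  u := ⟨fun y => (y.1, y.2.1 * p, y.2.2), by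
    have h : Continuous fun y : D × c.GG × Z => y.2.1 * p :=
      (continuous_fst.comp continuous_snd).mul continuous_const
    exact continuous_fst.prodMk (h.prodMk (continuous_snd.comp continuous_snd))⟩
  eqv := fun _ _ => Prod.ext rfl (Prod.ext (mul_assoc _ _ _) rfl)

/-- The right translation by `p` is trivial on the cohomology of all continuous functions. -/
def CoTriv (D Z : Type) [TopologicalSpace D] [DiscreteTopology D] [MulAction c.Γ D]
    [TopologicalSpace Z] (p : c.GG) (j : ℕ) : Prop :=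
  ∀ x ∈ ((spc c D Z).co c.W).Zg j,
    ((rp c D Z p).pull c.W).f j x - x ∈ ((spc c D Z).co c.W).Bg j

variable {c}

/- MODULE D1 -/
private theorem d1_mem (D Z : Type) [TopologicalSpace D] [DiscreteTopology D]
    [MulAction c.Γ D] [TopologicalSpace Z] (φ : Amb c D Z) : φ ∈ (Md c ⊥ D Z).N := by
  rw [mem_Md]
  intro h hh d x z
  rw [Subgroup.mem_bot] at hh
  subst hh
  rw [inv_one, map_one, Subgroup.coe_one, mul_one]
  rfl

private def d1_hom (c : Ctx) (D Z : Type) [TopologicalSpace D] [DiscreteTopology D]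
    [MulAction c.Γ D] [TopologicalSpace Z] :
    Cx.Hom ((spc c D Z).co c.W) (Md c ⊥ D Z).cx where
  f := fun m =>
    { toFun := fun y => (Md c ⊥ D Z).mk' (fun g => GS.ap y g) fun _ => d1_mem D Z _
      map_zero' := rfl
      map_add' := fun _ _ => rfl }
  comm := fun m y => by
    refine Sb.cx_ext fun g => ContinuousMap.ext fun a => ?_
    rw [Sb.vl_d]
    change GS.ap (((spc c D Z).co c.W).d m y) g a = _
    rw [GS.ap_d, ContinuousMap.add_apply, ContinuousMap.sum_apply]
    rfl

private def d1_inv (c : Ctx) (D Z : Type) [TopologicalSpace D] [DiscreteTopology D]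
    [MulAction c.Γ D] [TopologicalSpace Z] :
    Cx.Hom (Md c ⊥ D Z).cx ((spc c D Z).co c.W) where
  f := fun m =>
    { toFun := fun y => GS.mkc (S := spc c D Z) (fun g => Sb.vl y g)
      map_zero' := rfl
      map_add' := fun _ _ => rfl }
  comm := fun m y => by
    refine GS.co_ext fun g a => ?_
    rw [GS.ap_d]
    change Sb.vl ((Md c ⊥ D Z).cx.d m y) g a = _
    rw [Sb.vl_d, ContinuousMap.add_apply, ContinuousMap.sum_apply]
    rfl

/-- The cochains with values in `Md ⊥` are all cochains. -/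
theorem kil_of_co (D Z : Type) [TopologicalSpace D] [DiscreteTopology D]
    [MulAction c.Γ D] [TopologicalSpace Z] (p : c.GG) (j : ℕ) (h : CoTriv c D Z p j) :
    ∀ x ∈ (Md c ⊥ D Z).cx.Zg j,
      Kil (Md c ⊥ D Z) (MonoidAlgebra.single p 1 - 1) x := by
  intro x hx
  have h1 := h _ ((d1_inv c D Z).map_Zg hx)
  refine ⟨_, (d1_hom c D Z).map_Bg h1, fun g => ?_⟩
  have e : rt c D Z (MonoidAlgebra.single p 1 - 1) (Sb.vl x g) =
      rtHom c D Z p (Sb.vl x g) - Sb.vl x g := by
    rw [map_sub (rt c D Z), map_one (rt c D Z), LinearMap.sub_apply, rt_single, one_smul]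
    rfl
  rw [e]
  rfl

private theorem d1_cont {D A Z : Type} [TopologicalSpace D] [DiscreteTopology D]
    [TopologicalSpace A] [DiscreteTopology A] [TopologicalSpace Z] (f : D → A)
    (φ : Amb c D Z) [∀ d a, Decidable (f d = a)] :
    Continuous fun y : (D × A) × c.GG × Z =>
      if f y.1.1 = y.1.2 then φ (y.1.1, y.2.1, y.2.2) else 0 := by
  refine continuous_iff_continuousAt.2 fun y₀ => ?_
  have h2 : {y : (D × A) × c.GG × Z | y.1 = y₀.1} ∈ nhds y₀ :=
    (continuous_fst.isOpen_preimage {y₀.1} (isOpen_discrete _)).mem_nhds rfl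
  by_cases h : f y₀.1.1 = y₀.1.2
  · have h1 : ContinuousAt (fun y : (D × A) × c.GG × Z => φ (y.1.1, y.2.1, y.2.2)) y₀ :=
      Continuous.continuousAt (by fun_prop)
    refine h1.congr ?_
    filter_upwards [h2] with y hy
    have hy' : y.1 = y₀.1 := hy
    rw [if_pos (by rw [hy']; exact h)]
  · have h1 : ContinuousAt (fun _ : (D × A) × c.GG × Z => (0 : c.W)) y₀ := continuousAt_const
    refine h1.congr ?_
    filter_upwards [h2] with y hy
    have hy' : y.1 = y₀.1 := hy
    rw [if_neg (by rw [hy']; exact h)]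

open scoped Classical in
private def d1_ext (c : Ctx) (D A Z : Type) [TopologicalSpace D] [DiscreteTopology D]
    [MulAction c.Γ D] [TopologicalSpace A] [DiscreteTopology A] [MulAction c.Γ A]
    [TopologicalSpace Z] (f : D → A)
    (hf : ∀ (γ : c.Γ) (d : D), f (γ • d) = γ • f d) :
    Cx.Hom ((spc c D Z).co c.W) ((spc c (D × A) Z).co c.W) where
  f := fun m =>
    { toFun := fun y => GS.mkc (S := spc c (D × A) Z) (fun g =>
        ⟨fun a => if f a.1.1 = a.1.2 then (GS.ap y g : Amb c D Z) (a.1.1, a.2.1, a.2.2) else 0,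
          d1_cont f (GS.ap y g : Amb c D Z)⟩)
      map_zero' := GS.co_ext fun g a => by
        change (if f a.1.1 = a.1.2 then (0 : c.W) else 0) = 0
        rw [ite_self]
      map_add' := fun y y' => GS.co_ext fun g a => by
        change (if f a.1.1 = a.1.2 then (_ + _ : c.W) else 0) =
          (if f a.1.1 = a.1.2 then _ else 0) + (if f a.1.1 = a.1.2 then _ else 0)
        by_cases h : f a.1.1 = a.1.2
        · rw [if_pos h, if_pos h, if_pos h]
          rfl
        · rw [if_neg h, if_neg h, if_neg h, add_zero] }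
  comm := fun m y => by
    refine GS.co_ext fun (g : Fin (m + 1) → c.Γ) (a : (D × A) × c.GG × Z) => ?_
    rw [GS.ap_d]
    change (if f a.1.1 = a.1.2 then
      (GS.ap (((spc c D Z).co c.W).d m y) g : Amb c D Z) (a.1.1, a.2.1, a.2.2) else 0) =
      (if f ((g 0)⁻¹ • a.1.1) = (g 0)⁻¹ • a.1.2 then
        (GS.ap y (fun i => g i.succ) : Amb c D Z)
          ((g 0)⁻¹ • a.1.1, c.ι (g 0)⁻¹ * a.2.1, a.2.2) else 0) +
      ∑ j : Fin (m + 1), (-1 : ℤ) ^ ((j : ℕ) + 1) •
        (if f a.1.1 = a.1.2 then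
          (GS.ap y (Fin.contractNth j (· * ·) g) : Amb c D Z) (a.1.1, a.2.1, a.2.2) else 0)
    by_cases h : f a.1.1 = a.1.2
    · have h' : f ((g 0)⁻¹ • a.1.1) = (g 0)⁻¹ • a.1.2 := by rw [hf, h]
      rw [if_pos h, if_pos h', GS.ap_d]
      simp only [if_pos h]
      rfl
    · have h' : ¬ f ((g 0)⁻¹ • a.1.1) = (g 0)⁻¹ • a.1.2 := by
        rw [hf]
        exact fun h2 => h (MulAction.injective _ h2)
      rw [if_neg h, if_neg h']
      simp only [if_neg h, smul_zero, Finset.sum_const_zero, add_zero]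

/-- The graph of an equivariant map `f : D → A` is open and closed in `D × A`: the statement for
`D × A` implies that for `D` (extension by zero). -/
theorem co_graph (D A Z : Type) [TopologicalSpace D] [DiscreteTopology D] [MulAction c.Γ D]
    [TopologicalSpace A] [DiscreteTopology A] [MulAction c.Γ A] [TopologicalSpace Z] (f : D → A)
    (hf : ∀ (γ : c.Γ) (d : D), f (γ • d) = γ • f d) (p : c.GG) (j : ℕ)
    (h : CoTriv c (D × A) Z p j) : CoTriv c D Z p j := by
  classical
  intro x hx
  have hc : Continuous fun y : D × c.GG × Z => ((y.1, f y.1), y.2.1, y.2.2) := by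
    have h1 : Continuous fun y : D × c.GG × Z => f y.1 :=
      (continuous_of_discreteTopology (f := f)).comp continuous_fst
    exact (continuous_fst.prodMk h1).prodMk (by fun_prop)
  let i : GS.Hom (spc c D Z) (spc c (D × A) Z) :=
    { φ := MonoidHom.id _
      u := ⟨fun y => ((y.1, f y.1), y.2.1, y.2.2), hc⟩
      eqv := fun γ y => Prod.ext (Prod.ext rfl (hf γ y.1)) rfl }
  have h1 := (i.pull c.W).map_Bg (h _ ((d1_ext c D A Z f hf).map_Zg hx))
  have h2 : (i.pull c.W).f j (((rp c (D × A) Z p).pull c.W).f j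
      ((d1_ext c D A Z f hf).f j x) - (d1_ext c D A Z f hf).f j x) =
      ((rp c D Z p).pull c.W).f j x - x := by
    refine GS.co_ext fun g a => ?_
    change (if f a.1 = f a.1 then (_ : c.W) else 0) - (if f a.1 = f a.1 then (_ : c.W) else 0) = _
    rw [if_pos rfl, if_pos rfl]
    rfl
  rwa [h2] at h1
/- END D1 -/

/- MODULE D2 -/
/-- Shapiro's lemma: it is enough to consider the stabiliser of a point of `A` acting on
`D × GG × Z`. -/
theorem co_shapiro (D A Z : Type) [TopologicalSpace D] [DiscreteTopology D] [MulAction c.Γ D]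
    [TopologicalSpace A] [DiscreteTopology A] [MulAction c.Γ A] [TopologicalSpace Z]
    [MulAction.IsPretransitive c.Γ A] (a : A) (p : c.GG) (j : ℕ)
    (q : GS.Hom ((spc c D Z).res (MulAction.stabilizer c.Γ a))
      ((spc c D Z).res (MulAction.stabilizer c.Γ a)))
    (hq1 : ∀ g, q.φ g = g) (hq2 : ∀ y : D × c.GG × Z, q.u y = (y.1, y.2.1 * p, y.2.2))
    (h : ∀ x ∈ (((spc c D Z).res (MulAction.stabilizer c.Γ a)).co c.W).Zg j,
      (q.pull c.W).f j x - x ∈ (((spc c D Z).res (MulAction.stabilizer c.Γ a)).co c.W).Bg j) :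
    CoTriv c (D × A) Z p j := by
  let : MulAction (spc c D Z).G A := inferInstanceAs (MulAction c.Γ A)
  have : MulAction.IsPretransitive (spc c D Z).G A :=
    inferInstanceAs (MulAction.IsPretransitive c.Γ A)
  intro x hx
  have c1 : Continuous fun y : (D × c.GG × Z) × A => ((y.1.1, y.2), y.1.2.1, y.1.2.2) := by
    fun_prop
  have c2 : Continuous fun y : (D × A) × c.GG × Z => ((y.1.1, y.2.1, y.2.2), y.1.2) := by
    fun_prop
  let α : GS.Hom ((spc c D Z).prodD A) (spc c (D × A) Z) :=
    { φ := MonoidHom.id c.Γ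
      u := ⟨fun y : (D × c.GG × Z) × A => ((y.1.1, y.2), y.1.2.1, y.1.2.2), c1⟩
      eqv := fun γ y => rfl }
  let β : GS.Hom (spc c (D × A) Z) ((spc c D Z).prodD A) :=
    { φ := MonoidHom.id c.Γ
      u := ⟨fun y : (D × A) × c.GG × Z => ((y.1.1, y.2.1, y.2.2), y.1.2), c2⟩
      eqv := fun γ y => rfl }
  have hα : (α.pull c.W).Qis :=
    GS.Hom.qis α β (GS.Hom.ext' (fun _ => rfl) fun _ => rfl) (GS.Hom.ext' (fun _ => rfl) fun _ => rfl)
  have hs := GS.shapiro c.W (spc c D Z) A a
  let ρ : Cx.Hom ((spc c (D × A) Z).co c.W)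
      (((spc c D Z).res (MulAction.stabilizer c.Γ a)).co c.W) :=
    ((GS.shHom (spc c D Z) A a).pull c.W).comp (α.pull c.W)
  have hi : ρ.Inj j := (hs j).1.comp (hα j).1
  refine hi _ (AddSubgroup.sub_mem _ (((rp c (D × A) Z p).pull c.W).map_Zg hx) hx) ?_
  have h1 := h _ (ρ.map_Zg hx)
  have h2 : ρ.f j (((rp c (D × A) Z p).pull c.W).f j x - x) =
      (q.pull c.W).f j (ρ.f j x) - ρ.f j x := by
    rw [map_sub]
    congr 1
    refine GS.co_ext fun g y => ?_
    rw [GS.ap_pull]
    have e1 : (fun i => q.φ (g i)) = g := funext fun i => hq1 _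
    rw [e1]
    have e2 := hq2 y
    rw [e2]
    rfl
  rw [h2]
  exact h1
/- END D2 -/

end Pool.Agent.BRQ
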