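import Pool.Agent.BRQ.Lv
import Pool.Agent.BRQ.Gr
import Pool.Agent.BR80.SG

/-!
# From Theorem T: `SL_n(A)` acts trivially on the cohomology of all continuous functions
-/

set_option autoImplicit false

noncomputable section

namespace Pool.Agent.BRQ

open Matrix Filter Topology NumberField IsDedekindDomain
open Pool.Agent.BR80
open Pool.Agent.CG2 (Pl Fv Ov)
open Pool.Agent.CGN (GQ GZ)

variable {F : Type} [Field F] [NumberField F] {n : ℕ} {S : Set (Pl F)} {O W : Type} [CommRing O]
  [AddCommGroup W] [Module O W]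

instance {n : ℕ} {S : Set (Pl F)} {O W : Type} [CommRing O] [AddCommGroup W] [Module O W]
    [TopologicalSpace W] [IsTopologicalAddGroup W] [ContinuousConstSMul O W]
    (L : Lvl F n S O W) : MulAction L.ctx.Γ (DF F) :=
  inferInstanceAs (MulAction (GL (Fin n) F) (DF F))

variable [UniformSpace W] [IsUniformAddGroup W] [CompleteSpace W] [T2Space W]
  [NonarchimedeanAddGroup W] [ContinuousConstSMul O W]

/- MODULE D3 -/
section d3

variable {R : Type} [CommRing R] {m : ℕ}

/-- The diagonal with one entry. -/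
private def d3v (i₀ : Fin m) (r : R) : Fin m → R := fun i => if i = i₀ then r else 1

private theorem d3v_mul (i₀ : Fin m) (r s : R) (h : r * s = 1) :
    Matrix.diagonal (d3v i₀ r) * Matrix.diagonal (d3v i₀ s) = 1 := by
  rw [Matrix.diagonal_mul_diagonal, ← Matrix.diagonal_one]
  refine congrArg _ (funext fun i => ?_)
  unfold d3v
  by_cases hi : i = i₀
  · simp only [hi, if_true, h]
  · simp only [hi, if_false, mul_one]

/-- The matrix `diag(a,1,..,1)`. -/
private def d3g (i₀ : Fin m) (α : Rˣ) : GL (Fin m) R :=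
  ⟨Matrix.diagonal (d3v i₀ (α : R)), Matrix.diagonal (d3v i₀ ((α⁻¹ : Rˣ) : R)),
    d3v_mul i₀ _ _ α.mul_inv, d3v_mul i₀ _ _ α.inv_mul⟩

private theorem d3g_det (i₀ : Fin m) (α : Rˣ) : GeneralLinearGroup.det (d3g i₀ α) = α := by
  refine Units.ext ?_
  change (Matrix.diagonal (d3v i₀ (α : R))).det = α
  rw [Matrix.det_diagonal]
  unfold d3v
  rw [Finset.prod_ite_eq']
  simp

/-- The `SL`-part. -/
private def d3s (i₀ : Fin m) (x : GL (Fin m) R) : SpecialLinearGroup (Fin m) R :=
  ⟨((x * (d3g i₀ (GeneralLinearGroup.det x))⁻¹ : GL (Fin m) R) : Matrix (Fin m) (Fin m) R), by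
    have h : GeneralLinearGroup.det (x * (d3g i₀ (GeneralLinearGroup.det x))⁻¹) = 1 := by
      rw [map_mul, map_inv, d3g_det, mul_inv_cancel]
    exact congrArg Units.val h⟩

private theorem d3s_toGL (i₀ : Fin m) (x : GL (Fin m) R) :
    (d3s i₀ x).toGL = x * (d3g i₀ (GeneralLinearGroup.det x))⁻¹ := Units.ext rfl

private theorem d3s_mul (i₀ : Fin m) (x : GL (Fin m) R) :
    (d3s i₀ x).toGL * d3g i₀ (GeneralLinearGroup.det x) = x := by
  rw [d3s_toGL, inv_mul_cancel_right]

private theorem d3_toGL_det (s : SpecialLinearGroup (Fin m) R) :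
    GeneralLinearGroup.det s.toGL = 1 := Units.ext s.2

private theorem d3s_left (i₀ : Fin m) (s : SpecialLinearGroup (Fin m) R) (x : GL (Fin m) R) :
    d3s i₀ (s.toGL * x) = s * d3s i₀ x := by
  refine SpecialLinearGroup.toGL_injective ?_
  rw [d3s_toGL, map_mul, map_mul, d3_toGL_det, one_mul, d3s_toGL, mul_assoc]

private theorem d3s_tw (i₀ : Fin m) (x p : GL (Fin m) R) (t : SpecialLinearGroup (Fin m) R)
    (ht : t.toGL = d3g i₀ (GeneralLinearGroup.det x) * p *
      (d3g i₀ (GeneralLinearGroup.det x))⁻¹) :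
    (d3s i₀ x * t).toGL * d3g i₀ (GeneralLinearGroup.det x) = x * p := by
  rw [map_mul, ht, d3s_toGL]
  group

variable [TopologicalSpace R]

private theorem d3v_cont {Y : Type} [TopologicalSpace Y] (i₀ : Fin m) {f : Y → R}
    (hf : Continuous f) : Continuous fun y => Matrix.diagonal (d3v i₀ (f y)) := by
  refine Continuous.matrix_diagonal (continuous_pi fun i => ?_)
  unfold d3v
  by_cases hi : i = i₀
  · simp only [hi, if_true]
    exact hf
  · simp only [hi, if_false]
    exact continuous_const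

private theorem d3g_cont (i₀ : Fin m) : Continuous (d3g (R := R) i₀) := by
  rw [Units.continuous_iff]
  exact ⟨d3v_cont i₀ Units.continuous_val, d3v_cont i₀ (Units.continuous_coe_inv)⟩

variable [IsTopologicalRing R]

private theorem d3s_cont (i₀ : Fin m) : Continuous (d3s (R := R) i₀) := by
  have h : Continuous fun x : GL (Fin m) R => x * (d3g i₀ (GeneralLinearGroup.det x))⁻¹ :=
    continuous_id.mul (((d3g_cont i₀).comp GeneralLinearGroup.continuous_det).inv)
  exact Continuous.subtype_mk (Units.continuous_val.comp h) _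

end d3

private theorem d3_abs {w : World} {n j : ℕ} (hT : TwN w n j) (S : GS) (q : GS.Hom S S)
    (Z' : Type) [TopologicalSpace Z'] (t : C(Z', SL n w.A))
    (a : GS.Hom S ((sM w (∅ : Finset (Fin n))).gs Z'))
    (b : GS.Hom ((sM w (∅ : Finset (Fin n))).gs Z') S) (h1 : b.comp a = GS.Hom.id S)
    (h2 : b.comp (((sM w (∅ : Finset (Fin n))).tw t fun z => mem_Ms_empty (t z)).comp a) = q) :
    ∀ x ∈ (S.co w.W).Zg j,
      ((q.pull w.W).f j x : (S.co w.W).C j) - x ∈ (S.co w.W).Bg j := by
  intro x hx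
  have hy := (b.pull w.W).map_Zg hx
  have h := (a.pull w.W).map_Bg (hT Z' t _ hy)
  rw [map_sub] at h
  have e1 : (a.pull w.W).f j ((b.pull w.W).f j x) = x := by
    have := congrArg (fun c => (GS.Hom.pull w.W c).f j x) h1
    exact this
  have e2 : (a.pull w.W).f j ((twM w t).f j ((b.pull w.W).f j x)) = (q.pull w.W).f j x := by
    have := congrArg (fun c => (GS.Hom.pull w.W c).f j x) h2
    exact this
  rwa [e1, e2] at h

private theorem d3_det {F : Type} [Field F] {n : ℕ} {a : DF F} {γ : GL (Fin n) F}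
    (h : γ • a = a) : GeneralLinearGroup.det γ = 1 := by
  have h1 : (GeneralLinearGroup.det γ * (show Fˣ from a) : Fˣ) = (show Fˣ from a) := h
  exact mul_eq_right.1 h1

private theorem d3_emb {F : Type} [Field F] [NumberField F] {n : ℕ}
    (s : SpecialLinearGroup (Fin n) F) :
    GeneralLinearGroup.map (n := Fin n) (emA : F →+* AA F) s.toGL =
      (SpecialLinearGroup.map (n := Fin n) (emA : F →+* AA F) s).toGL := Units.ext rfl

/-- The twist lemma for a group isomorphic to the pair `(SL_n(F), SL_n(A))`: the stabiliser of a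
point of `Fˣ` acting on `D × GL_n(A) × Z` is isomorphic to `SL_n(F)` acting on
`SL_n(A) × (D × Aˣ × Z)`, by `g = s d(a)`, `a = det g`, `d(a) = diag(a,1,..,1)`; the right translation
by `p`, `det p = 1`, becomes the twist by `d(a) p d(a)⁻¹`. -/
theorem co_base (L : Lvl F n S O W) (hn : 1 ≤ n) (p₀ : ℕ) (hp₀ : 0 < p₀)
    (hW : ∀ U : OpenAddSubgroup W, ∃ e : ℕ, ∀ w : W, p₀ ^ e • w ∈ U) (j : ℕ)
    (hT : TwN (BRW.worldNF F W p₀ hp₀ hW) n j) (D Z : Type) [TopologicalSpace D]
    [DiscreteTopology D] [MulAction L.ctx.Γ D] [TopologicalSpace Z]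
    (hD : ∀ γ ∈ L.ctx.Γ₁, ∀ d : D, γ • d = d) (p : GA F n)
    (hp : (p : Matrix (Fin n) (Fin n) (AA F)).det = 1) (a : DF F)
    (q : GS.Hom ((spc L.ctx D Z).res (MulAction.stabilizer L.ctx.Γ a))
      ((spc L.ctx D Z).res (MulAction.stabilizer L.ctx.Γ a)))
    (hq1 : ∀ g, q.φ g = g)
    (hq2 : ∀ y : D × L.ctx.GG × Z, q.u y = (y.1, y.2.1 * (show L.ctx.GG from p), y.2.2)) :
    ∀ x ∈ (((spc L.ctx D Z).res (MulAction.stabilizer L.ctx.Γ a)).co W).Zg j,
      ((q.pull W).f j x : (((spc L.ctx D Z).res (MulAction.stabilizer L.ctx.Γ a)).co W).C j) - x ∈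
        (((spc L.ctx D Z).res (MulAction.stabilizer L.ctx.Γ a)).co W).Bg j := by
  let w : World := BRW.worldNF F W p₀ hp₀ hW
  let i₀ : Fin n := ⟨0, hn⟩
  let S : GS := (spc L.ctx D Z).res (MulAction.stabilizer L.ctx.Γ a)
  let Z' : Type := D × (AA F)ˣ × Z
  have hdet : ∀ γ : MulAction.stabilizer L.ctx.Γ a,
      GeneralLinearGroup.det (show GL (Fin n) F from γ.1) = 1 := fun γ => d3_det γ.2
  -- the homomorphisms
  let φ : S.G →* Ms w.F (∅ : Finset (Fin n)) :=
    { toFun := fun γ => ⟨⟨((show GL (Fin n) F from γ.1) : Matrix (Fin n) (Fin n) F),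
        congrArg Units.val (hdet γ)⟩, mem_Ms_empty _⟩
      map_one' := rfl
      map_mul' := fun _ _ => rfl }
  let ψ : Ms w.F (∅ : Finset (Fin n)) →* S.G :=
    { toFun := fun s => ⟨(SpecialLinearGroup.toGL
          (show SpecialLinearGroup (Fin n) F from s.1) : GL (Fin n) F), by
        change (GeneralLinearGroup.det (SpecialLinearGroup.toGL
          (show SpecialLinearGroup (Fin n) F from s.1)) * (show Fˣ from a) : Fˣ) =
            (show Fˣ from a)
        rw [d3_toGL_det, one_mul]⟩
      map_one' := Subtype.ext (map_one SpecialLinearGroup.toGL)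
      map_mul' := fun s s' => Subtype.ext (map_mul SpecialLinearGroup.toGL _ _) }
  have hι : ∀ γ : S.G, (show GA F n from L.ctx.ι γ.1) =
      (SpecialLinearGroup.map (n := Fin n) (emA : F →+* AA F)
        (show SpecialLinearGroup (Fin n) F from (φ γ).1)).toGL := fun γ => Units.ext rfl
  let A : GS.Hom S ((sM w (∅ : Finset (Fin n))).gs Z') :=
    { φ := φ
      u := ⟨fun y => ((⟨d3s i₀ (show GA F n from y.2.1), mem_Ms_empty _⟩ :
          Ms w.A (∅ : Finset (Fin n))),
          (y.1, GeneralLinearGroup.det (show GA F n from y.2.1), y.2.2)), by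
        have h1 : Continuous fun y : D × GA F n × Z => d3s i₀ y.2.1 :=
          (d3s_cont i₀).comp (continuous_fst.comp continuous_snd)
        have h2 : Continuous fun y : D × GA F n × Z => GeneralLinearGroup.det y.2.1 :=
          GeneralLinearGroup.continuous_det.comp (continuous_fst.comp continuous_snd)
        exact (Continuous.subtype_mk h1 _).prodMk (continuous_fst.prodMk
          (h2.prodMk (continuous_snd.comp continuous_snd)))⟩
      eqv := fun g x => by
        have e1 : d3s i₀ ((show GA F n from L.ctx.ι g.1) * (show GA F n from x.2.1)) =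
            SpecialLinearGroup.map (n := Fin n) (emA : F →+* AA F)
              (show SpecialLinearGroup (Fin n) F from (φ g).1) *
                d3s i₀ (show GA F n from x.2.1) := by
          rw [hι, d3s_left]
        have e2 : GeneralLinearGroup.det
            ((show GA F n from L.ctx.ι g.1) * (show GA F n from x.2.1)) =
              GeneralLinearGroup.det (show GA F n from x.2.1) := by
          rw [hι, map_mul, d3_toGL_det, one_mul]
        exact Prod.ext (Subtype.ext e1) (Prod.ext (hD g.1 (hdet g) x.1) (Prod.ext e2 rfl)) }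
  let B : GS.Hom ((sM w (∅ : Finset (Fin n))).gs Z') S :=
    { φ := ψ
      u := ⟨fun y => (y.2.1, ((SpecialLinearGroup.toGL
          (show SpecialLinearGroup (Fin n) (AA F) from y.1.1) * d3g i₀ y.2.2.1 : GA F n)),
            y.2.2.2), by
        have h1 : Continuous fun y : Ms (AA F) (∅ : Finset (Fin n)) × D × (AA F)ˣ × Z =>
            SpecialLinearGroup.toGL y.1.1 :=
          SpecialLinearGroup.continuous_toGL.comp (continuous_subtype_val.comp continuous_fst)
        have h2 : Continuous fun y : Ms (AA F) (∅ : Finset (Fin n)) × D × (AA F)ˣ × Z =>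
            d3g i₀ y.2.2.1 := (d3g_cont i₀).comp
          (continuous_fst.comp (continuous_snd.comp continuous_snd))
        exact (continuous_fst.comp continuous_snd).prodMk ((h1.mul h2).prodMk
          (continuous_snd.comp (continuous_snd.comp continuous_snd)))⟩
      eqv := fun g x => by
        have e1 : SpecialLinearGroup.toGL (SpecialLinearGroup.map (n := Fin n)
            (emA : F →+* AA F) (show SpecialLinearGroup (Fin n) F from g.1) *
              (show SpecialLinearGroup (Fin n) (AA F) from x.1.1)) * d3g i₀ x.2.2.1 =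
            GeneralLinearGroup.map (n := Fin n) (emA : F →+* AA F)
              (SpecialLinearGroup.toGL (show SpecialLinearGroup (Fin n) F from g.1)) *
              (SpecialLinearGroup.toGL (show SpecialLinearGroup (Fin n) (AA F) from x.1.1) *
                d3g i₀ x.2.2.1) := by
          rw [d3_emb, map_mul, mul_assoc]
        exact Prod.ext (hD (ψ g).1 (hdet (ψ g)) x.2.1).symm (Prod.ext e1 rfl) }
  let t : C(Z', SL n w.A) := ⟨fun y => ⟨((d3g i₀ y.2.1 * p * (d3g i₀ y.2.1)⁻¹ : GA F n) :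
      Matrix (Fin n) (Fin n) (AA F)), by
        have h : GeneralLinearGroup.det (d3g i₀ y.2.1 * p * (d3g i₀ y.2.1)⁻¹ : GA F n) = 1 := by
          have h1 : GeneralLinearGroup.det p = 1 := Units.ext hp
          rw [map_mul, map_mul, map_inv, h1, mul_one, mul_inv_cancel]
        exact congrArg Units.val h⟩, by
      have h2 : Continuous fun y : Z' => d3g i₀ y.2.1 :=
        (d3g_cont i₀).comp (continuous_fst.comp continuous_snd)
      exact Continuous.subtype_mk (Units.continuous_val.comp
        ((h2.mul continuous_const).mul h2.inv)) _⟩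
  refine d3_abs hT S q Z' t A B ?_ ?_
  · refine GS.Hom.ext' (fun g => Subtype.ext (Units.ext rfl)) fun x => ?_
    exact Prod.ext rfl (Prod.ext (d3s_mul i₀ (show GA F n from x.2.1)) rfl)
  · refine GS.Hom.ext' (fun g => ?_) fun x => ?_
    · refine Eq.trans (b := g) ?_ (hq1 g).symm
      exact Subtype.ext (Units.ext rfl)
    · refine Eq.trans ?_ (hq2 x).symm
      exact Prod.ext rfl (Prod.ext (d3s_tw i₀ (show GA F n from x.2.1) p _
        (Units.ext rfl)) rfl)
/- END D3 -/

/- MODULE D4 -/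
/-- `SL_n(F_v)` acts trivially on the cohomology of `Md ⊥` for the spaces `D` with an equivariant map
to `Fˣ` (`kil_of_co`, `co_graph`, `co_shapiro`, `co_base`, `det_PP`). -/
theorem triv_base (L : Lvl F n S O W) (hn : 1 ≤ n) (p₀ : ℕ) (hp₀ : 0 < p₀)
    (hW : ∀ U : OpenAddSubgroup W, ∃ e : ℕ, ∀ w : W, p₀ ^ e • w ∈ U) (j : ℕ)
    (hT : TwN (BRW.worldNF F W p₀ hp₀ hW) n j) (D Z : Type) [TopologicalSpace D]
    [DiscreteTopology D] [MulAction L.ctx.Γ D] [TopologicalSpace Z]
    (hD : ∀ γ ∈ L.ctx.Γ₁, ∀ d : D, γ • d = d) (f : D → DF F)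
    (hf : ∀ (γ : L.ctx.Γ) (d : D), f (γ • d) = γ • f d) (v : Pl F) (p : L.ctx.GG)
    (hp : (show GA F n from p) ∈ PP n v) :
    ∀ x ∈ (Md L.ctx ⊥ D Z).cx.Zg j,
      Kil (Md L.ctx ⊥ D Z) (MonoidAlgebra.single p 1 - 1) x := by
  have : MulAction.IsPretransitive L.ctx.Γ (DF F) := ⟨fun x y => by
    refine ⟨(show L.ctx.Γ from d3g (⟨0, hn⟩ : Fin n)
      ((show Fˣ from y) * (show Fˣ from x)⁻¹)), ?_⟩
    change (GeneralLinearGroup.det (d3g (⟨0, hn⟩ : Fin n)
      ((show Fˣ from y) * (show Fˣ from x)⁻¹)) * (show Fˣ from x) : Fˣ) = (show Fˣ from y)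
    rw [d3g_det, inv_mul_cancel_right]⟩
  let a : DF F := (show DF F from (1 : Fˣ))
  let q : GS.Hom ((spc L.ctx D Z).res (MulAction.stabilizer L.ctx.Γ a))
      ((spc L.ctx D Z).res (MulAction.stabilizer L.ctx.Γ a)) :=
    { φ := MonoidHom.id _
      u := (rp L.ctx D Z p).u
      eqv := fun g x => (rp L.ctx D Z p).eqv g.1 x }
  exact kil_of_co D Z p j (co_graph D (DF F) Z f hf p j
    (co_shapiro D (DF F) Z a p j q (fun _ => rfl) (fun _ => rfl)
      (co_base L hn p₀ hp₀ hW j hT D Z hD p (det_PP hp) a q (fun _ => rfl) (fun _ => rfl))))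

/-- `SL_n(F_v)`, `v ∈ T`, acts trivially on the cohomology of `Md (KT T)` in the degrees `≤ i`
(`Rz.ptriv` for the first resolution). -/
theorem ptriv_KT (L : Lvl F n S O W) (hn : 1 ≤ n) (p₀ : ℕ) (hp₀ : 0 < p₀)
    (hW : ∀ U : OpenAddSubgroup W, ∃ e : ℕ, ∀ w : W, p₀ ^ e • w ∈ U) (i : ℕ)
    (hT : ∀ j ≤ i, TwN (BRW.worldNF F W p₀ hp₀ hW) n j) (T : Finset (Pl F))
    (hTS : ∀ v ∈ T, v ∉ S) (v : Pl F) (hv : v ∈ T) :
    ∀ j ≤ i, PTriv L.ctx (L.KT T) (show Subgroup L.ctx.GG from PP n v) j := by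
  obtain ⟨R, hH, hH', f, hf⟩ := L.exists_R1 T hTS
  have hmain := R.ptriv (P := (show Subgroup L.ctx.GG from PP n v)) (PP_perfect n v) (by
    intro p hp k hk
    rw [hH'] at hk
    refine comm_of_comp fun u => ?_
    by_cases hu : u = v
    · left
      subst hu
      exact hk u hv
    · right
      exact comp_PP hu hp) i (by
    intro j hj D _ _ _ hD Z _ s p hp x hx
    have key : ∀ H : Subgroup L.ctx.K, H = ⊥ →
        ∀ x ∈ (Md L.ctx H (R.D' D s) (R.Z' Z s)).cx.Zg j,
          Kil (Md L.ctx H (R.D' D s) (R.Z' Z s)) (MonoidAlgebra.single p 1 - 1) x := by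
      intro H hH2
      subst hH2
      exact triv_base L hn p₀ hp₀ hW j (hT j hj) (R.D' D s) (R.Z' Z s)
        (fun γ hγ d => Prod.ext (hD γ hγ d.1) (funext fun i => R.trivA γ hγ (d.2 i)))
        (fun d => f (d.2 0)) (fun γ d => hf γ (d.2 0)) v p hp
    exact key R.H hH x hx)
  intro j hj
  have := hmain j hj
  rw [hH'] at this
  exact this
/- END D4 -/

end Pool.Agent.BRQ
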