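import Pool.Agent.BR80.Step

/-!
# Diagram chases: operators on short exact sequences of complexes
-/

set_option autoImplicit false

namespace Pool.Agent.BRQ

open Pool.Agent.BR80

/-- A short exact sequence of complexes with operators. -/
structure OSES (Op : Type) (K L M : Cx) extends SES K L M where
  /-- the operators on `K` -/
  a : Op → Cx.Hom K K
  /-- the operators on `L` -/
  b : Op → Cx.Hom L L
  /-- the operators on `M` -/
  e : Op → Cx.Hom M M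
  ab : ∀ u m x, (b u).f m (i.f m x) = i.f m ((a u).f m x)
  be : ∀ u m y, (e u).f m (p.f m y) = p.f m ((b u).f m y)

variable {Op : Type} {K L M : Cx}

/- MODULE B1 -/
/-- The basic chase: if `b_u i(x) = d y` let `z = p(y)`. -/
theorem OSES.chase (T : OSES Op K L M) (u : Op) (m : ℕ) (x : K.C (m + 1)) (hx : x ∈ K.Zg (m + 1))
    (h : (T.b u).f (m + 1) (T.i.f (m + 1) x) ∈ L.Bg (m + 1)) :
    ∃ z ∈ M.Zg m, ∀ v : Op, (T.e v).f m z ∈ M.Bg m →
      (T.a v).f (m + 1) ((T.a u).f (m + 1) x) ∈ K.Bg (m + 1) := by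
  obtain ⟨y, hy⟩ := h
  have hpy : (T.p.f m y) ∈ M.Zg m := by
    rw [Cx.mem_Zg, ← T.p.comm, hy, ← T.be, T.pi, map_zero]
  refine ⟨T.p.f m y, hpy, fun v hv => ?_⟩
  have key : ∀ y' : L.C m, T.p.f m y' = 0 → L.d m y' = L.d m ((T.b v).f m y) →
      (T.a v).f (m + 1) ((T.a u).f (m + 1) x) ∈ K.Bg (m + 1) := by
    intro y' h0 hd
    obtain ⟨w, hw⟩ := T.exact m y' h0
    refine ⟨w, ?_⟩
    rw [← sub_eq_zero]
    apply T.inj
    rw [map_sub, sub_eq_zero, T.i.comm, hw, hd, ← (T.b v).comm, hy, T.ab, T.ab]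
  cases m with
  | zero =>
    rw [Cx.mem_Bg_zero] at hv
    exact key _ (by rw [← T.be, hv]) rfl
  | succ m =>
    obtain ⟨t, ht⟩ := hv
    obtain ⟨t', rfl⟩ := T.surj m t
    refine key ((T.b v).f (m + 1) y - L.d m t') ?_ ?_
    · rw [map_sub, T.p.comm, ht, T.be, sub_self]
    · rw [map_sub, L.dd, sub_zero]

/-- Degree zero. -/
theorem OSES.chase_zero (T : OSES Op K L M) (u : Op) (x : K.C 0)
    (h : (T.b u).f 0 (T.i.f 0 x) ∈ L.Bg 0) : (T.a u).f 0 x ∈ K.Bg 0 := by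
  rw [Cx.mem_Bg_zero] at h ⊢
  apply T.inj
  rw [← T.ab, h]
/- END B1 -/

/-- Every cocycle of degree `m` is killed by a good operator. -/
def DeadOn (K : Cx) (a : Op → Cx.Hom K K) (G : Op → Prop) (m : ℕ) : Prop :=
  ∀ x ∈ K.Zg m, ∃ u, G u ∧ (a u).f m x ∈ K.Bg m

/- MODULE B2 -/
/-- The cohomology of `K` is dead in degree `m` if that of `L` in degree `m` and that of `M` in
the degrees below `m` are. -/
theorem OSES.dead (T : OSES Op K L M) (G : Op → Prop) (mul : Op → Op → Op)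
    (hmul : ∀ u v, G u → G v → G (mul v u))
    (ha : ∀ u v m x, (T.a (mul v u)).f m x = (T.a v).f m ((T.a u).f m x)) (m : ℕ)
    (hL : DeadOn L T.b G m) (hM : ∀ j, j < m → DeadOn M T.e G j) : DeadOn K T.a G m := by
  intro x hx
  obtain ⟨u, hu, hb⟩ := hL _ (T.i.map_Zg hx)
  cases m with
  | zero => exact ⟨u, hu, T.chase_zero u x hb⟩
  | succ m =>
    obtain ⟨z, hz, hv⟩ := T.chase u m x hx hb
    obtain ⟨v, hgv, hev⟩ := hM m (Nat.lt_succ_self m) z hz
    refine ⟨mul v u, hmul u v hu hgv, ?_⟩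
    rw [ha]
    exact hv v hev

/-- The kernel of `H^m(K) → H^m(L)` is dead if the cohomology of `M` in the degrees below `m`
is. -/
theorem OSES.ker_dead (T : OSES Op K L M) (G : Op → Prop) (one : Op) (hone : G one)
    (ha1 : ∀ m x, (T.a one).f m x = x) (hb1 : ∀ m x, (T.b one).f m x = x) (m : ℕ)
    (hM : ∀ j, j < m → DeadOn M T.e G j) (x : K.C m) (hx : x ∈ K.Zg m)
    (h : T.i.f m x ∈ L.Bg m) : ∃ u, G u ∧ (T.a u).f m x ∈ K.Bg m := by
  cases m with
  | zero =>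
    refine ⟨one, hone, T.chase_zero one x ?_⟩
    rw [hb1]
    exact h
  | succ m =>
    obtain ⟨z, hz, hv⟩ := T.chase one m x hx (by rw [hb1]; exact h)
    obtain ⟨v, hgv, hev⟩ := hM m (Nat.lt_succ_self m) z hz
    refine ⟨v, hgv, ?_⟩
    have h2 := hv v hev
    rw [ha1] at h2
    exact h2
/- END B2 -/

/- MODULE B3 -/
/-- Operators `p - 1` for the elements `p` of a group `P` equal to its commutator subgroup: if all
products `(q - 1) (p - 1)` are zero on the cohomology then all `p - 1` are. -/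
theorem triv_of_sq {P : Type} [Group P] (hP : commutator P = ⊤) (K : Cx) (m : ℕ)
    (ρ : P → Cx.Hom K K) (h1 : ∀ x, (ρ 1).f m x = x)
    (hmul : ∀ p q x, (ρ (p * q)).f m x = (ρ p).f m ((ρ q).f m x))
    (h : ∀ p q : P, ∀ x ∈ K.Zg m,
      (ρ q).f m ((ρ p).f m x - x) - ((ρ p).f m x - x) ∈ K.Bg m) :
    ∀ p : P, ∀ x ∈ K.Zg m, (ρ p).f m x - x ∈ K.Bg m := by
  have hmem : ∀ (r : P) {y : K.C m}, y ∈ K.Zg m → (ρ r).f m y ∈ K.Zg m :=
    fun r y hy => (ρ r).map_Zg hy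
  let N : Subgroup P :=
    { carrier := {r | ∀ x ∈ K.Zg m, (ρ r).f m x - x ∈ K.Bg m}
      one_mem' := fun x _ => by
        rw [h1, sub_self]
        exact (K.Bg m).zero_mem
      mul_mem' := fun {a b} ha hb x hx => by
        have e : (ρ (a * b)).f m x - x =
            (ρ a).f m ((ρ b).f m x - x) + ((ρ a).f m x - x) := by
          rw [hmul, map_sub]
          abel
        rw [e]
        exact (K.Bg m).add_mem ((ρ a).map_Bg (hb x hx)) (ha x hx)
      inv_mem' := fun {a} ha x hx => by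
        have e : (ρ a⁻¹).f m x - x = -((ρ a⁻¹).f m ((ρ a).f m x - x)) := by
          rw [map_sub, ← hmul, inv_mul_cancel, h1]
          abel
        rw [e]
        exact (K.Bg m).neg_mem ((ρ a⁻¹).map_Bg (ha x hx)) }
  have hN : commutator P ≤ N := by
    rw [commutator_def, Subgroup.commutator_le]
    intro p _ q _
    change p * q * p⁻¹ * q⁻¹ ∈ N
    intro x hx
    have hy : (ρ (p⁻¹ * q⁻¹)).f m x ∈ K.Zg m := hmem _ hx
    have e : (ρ (p * q * p⁻¹ * q⁻¹)).f m x - x =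
        ((ρ p).f m ((ρ q).f m ((ρ (p⁻¹ * q⁻¹)).f m x) - (ρ (p⁻¹ * q⁻¹)).f m x) -
          ((ρ q).f m ((ρ (p⁻¹ * q⁻¹)).f m x) - (ρ (p⁻¹ * q⁻¹)).f m x)) -
        ((ρ q).f m ((ρ p).f m ((ρ (p⁻¹ * q⁻¹)).f m x) - (ρ (p⁻¹ * q⁻¹)).f m x) -
          ((ρ p).f m ((ρ (p⁻¹ * q⁻¹)).f m x) - (ρ (p⁻¹ * q⁻¹)).f m x)) := by
      have e1 : (ρ (p * q * p⁻¹ * q⁻¹)).f m x =
          (ρ p).f m ((ρ q).f m ((ρ (p⁻¹ * q⁻¹)).f m x)) := by
        rw [← hmul, ← hmul, ← mul_assoc]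
      have e2 : x = (ρ q).f m ((ρ p).f m ((ρ (p⁻¹ * q⁻¹)).f m x)) := by
        rw [← hmul, ← hmul]
        have : q * p * (p⁻¹ * q⁻¹) = 1 := by group
        rw [this, h1]
      rw [e1]
      conv_lhs => rw [e2]
      simp only [map_sub]
      have e3 : (ρ (p⁻¹ * q⁻¹)).f m ((ρ q).f m ((ρ p).f m ((ρ (p⁻¹ * q⁻¹)).f m x))) =
          (ρ (p⁻¹ * q⁻¹)).f m x := by rw [← e2]
      rw [e3]
      abel
    rw [e]
    exact (K.Bg m).sub_mem (h q p _ hy) (h p q _ hy)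
  intro p x hx
  have hp : p ∈ N := hN (by rw [hP]; exact Subgroup.mem_top p)
  exact hp x hx

/-- The same in a short exact sequence. -/
theorem OSES.triv {P : Type} [Group P] (hP : commutator P = ⊤) (T : OSES Op K L M) (u : P → Op)
    (ρ : P → Cx.Hom K K) (h1 : ∀ m x, (ρ 1).f m x = x)
    (hmul : ∀ p q m x, (ρ (p * q)).f m x = (ρ p).f m ((ρ q).f m x))
    (hu : ∀ p m x, (T.a (u p)).f m x = (ρ p).f m x - x) (m : ℕ)
    (hL : ∀ p, ∀ x ∈ L.Zg m, (T.b (u p)).f m x ∈ L.Bg m)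
    (hM : ∀ j, j < m → ∀ p, ∀ z ∈ M.Zg j, (T.e (u p)).f j z ∈ M.Bg j) :
    ∀ p, ∀ x ∈ K.Zg m, (T.a (u p)).f m x ∈ K.Bg m := by
  cases m with
  | zero => exact fun p x hx => T.chase_zero (u p) x (hL p _ (T.i.map_Zg hx))
  | succ m =>
    have key : ∀ p : P, ∀ x ∈ K.Zg (m + 1), (ρ p).f (m + 1) x - x ∈ K.Bg (m + 1) := by
      refine triv_of_sq hP K (m + 1) ρ (h1 _) (fun p q x => hmul p q _ x) fun p q x hx => ?_
      obtain ⟨z, hz, hv⟩ := T.chase (u p) m x hx (hL p _ (T.i.map_Zg hx))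
      have h2 := hv (u q) (hM m (Nat.lt_succ_self m) q z hz)
      rw [hu q, hu p] at h2
      exact h2
    intro p x hx
    rw [hu]
    exact key p x hx
/- END B3 -/

end Pool.Agent.BRQ
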