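import Pool.Agent.BR80.Step
import Pool.Agent.BR80.GS

/-!
# Descent from Theorem T: the abstract situation

`Γ` is a group (`GL_n(F)`) with a subgroup `Γ₁` (`SL_n(F)`), `GG` a topological group (`GL_n(A)`),
`K` an open subgroup of `GG` acting on the coefficients `W`.
-/

set_option autoImplicit false

noncomputable section

namespace Pool.Agent.BRQ

open Pool.Agent.BR80

/-- The situation. -/
structure Ctx where
  /-- the rational points -/
  Γ : Type
  [grpΓ : Group Γ]
  /-- the subgroup which acts trivially on the discrete spaces -/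
  Γ₁ : Subgroup Γ
  /-- the adelic group -/
  GG : Type
  [grpG : Group GG]
  [topG : TopologicalSpace GG]
  [tgG : IsTopologicalGroup GG]
  /-- the embedding -/
  ι : Γ →* GG
  /-- the ring of coefficients -/
  O : Type
  [ringO : CommRing O]
  /-- the coefficients -/
  W : Type
  [acgW : AddCommGroup W]
  [modW : Module O W]
  [topW : TopologicalSpace W]
  [tgW : IsTopologicalAddGroup W]
  [csW : ContinuousConstSMul O W]
  /-- the level -/
  K : Subgroup GG
  openK : IsOpen (K : Set GG)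
  /-- the action of the level on the coefficients -/
  τ : Representation O K W
  contτ : Continuous fun q : K × W => τ q.1 q.2

attribute [instance] Ctx.grpΓ Ctx.grpG Ctx.topG Ctx.tgG Ctx.ringO Ctx.acgW Ctx.modW Ctx.topW
  Ctx.tgW Ctx.csW

variable (c : Ctx)

/-- The continuous functions on `D × GG × Z`. -/
abbrev Amb (D Z : Type) [TopologicalSpace D] [TopologicalSpace Z] : Type := C(D × c.GG × Z, c.W)

section amb

variable (D Z : Type) [TopologicalSpace D] [DiscreteTopology D] [MulAction c.Γ D]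
  [TopologicalSpace Z]

theorem act_cont (γ : c.Γ) : Continuous fun y : D × c.GG × Z => (γ • y.1, c.ι γ * y.2.1, y.2.2) := by
  have h1 : Continuous fun y : D × c.GG × Z => γ • y.1 :=
    (continuous_of_discreteTopology (f := fun d : D => γ • d)).comp continuous_fst
  exact h1.prodMk (by fun_prop)

/-- The group `Γ` acting on the space `D × GG × Z`. -/
def spc : GS where
  G := c.Γ
  X := D × c.GG × Z
  act := fun γ y => (γ • y.1, c.ι γ * y.2.1, y.2.2)
  act_one := fun y => by simp
  act_mul := fun g h y => by simp [mul_smul, mul_assoc]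
  act_cont := act_cont c D Z

/-- The action of `Γ` on the functions. -/
def rho : Representation c.O c.Γ (Amb c D Z) where
  toFun := fun γ =>
    { toFun := fun φ => φ.comp ⟨fun y => (γ⁻¹ • y.1, c.ι γ⁻¹ * y.2.1, y.2.2), act_cont c D Z γ⁻¹⟩
      map_add' := fun _ _ => rfl
      map_smul' := fun _ _ => rfl }
  map_one' := by
    refine LinearMap.ext fun φ => ContinuousMap.ext fun y => ?_
    change φ ((1 : c.Γ)⁻¹ • y.1, c.ι (1 : c.Γ)⁻¹ * y.2.1, y.2.2) = φ y
    rw [inv_one, map_one, one_mul, one_smul]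
  map_mul' := fun g h => by
    refine LinearMap.ext fun φ => ContinuousMap.ext fun y => ?_
    change φ ((g * h)⁻¹ • y.1, c.ι (g * h)⁻¹ * y.2.1, y.2.2) =
      φ (h⁻¹ • g⁻¹ • y.1, c.ι h⁻¹ * (c.ι g⁻¹ * y.2.1), y.2.2)
    rw [mul_inv_rev, mul_smul, map_mul, mul_assoc]

variable {c D Z} in
@[simp] theorem rho_apply (γ : c.Γ) (φ : Amb c D Z) (d : D) (x : c.GG) (z : Z) :
    rho c D Z γ φ (d, x, z) = φ (γ⁻¹ • d, (c.ι γ)⁻¹ * x, z) := by
  change φ (γ⁻¹ • d, c.ι γ⁻¹ * x, z) = _
  rw [map_inv]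

end amb

/-- The right translations. -/
def rtHom (D Z : Type) [TopologicalSpace D] [TopologicalSpace Z] :
    c.GG →* Module.End c.O (Amb c D Z) where
  toFun := fun g =>
    { toFun := fun φ => φ.comp ⟨fun y => (y.1, y.2.1 * g, y.2.2), by fun_prop⟩
      map_add' := fun _ _ => rfl
      map_smul' := fun _ _ => rfl }
  map_one' := by
    refine LinearMap.ext fun φ => ContinuousMap.ext fun y => ?_
    change φ (y.1, y.2.1 * 1, y.2.2) = φ y
    rw [mul_one]
  map_mul' := fun g h => by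
    refine LinearMap.ext fun φ => ContinuousMap.ext fun y => ?_
    change φ (y.1, y.2.1 * (g * h), y.2.2) = φ (y.1, y.2.1 * g * h, y.2.2)
    rw [mul_assoc]

variable {c} in
@[simp] theorem rtHom_apply {D Z : Type} [TopologicalSpace D] [TopologicalSpace Z] (g : c.GG)
    (φ : Amb c D Z) (d : D) (x : c.GG) (z : Z) :
    rtHom c D Z g φ (d, x, z) = φ (d, x * g, z) := rfl

/-- The group algebra of `GG` acts on the functions by right translations. -/
def rt (D Z : Type) [TopologicalSpace D] [TopologicalSpace Z] :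
    MonoidAlgebra c.O c.GG →ₐ[c.O] Module.End c.O (Amb c D Z) :=
  MonoidAlgebra.lift c.O _ c.GG (rtHom c D Z)

variable {c}

@[simp] theorem rt_single {D Z : Type} [TopologicalSpace D] [TopologicalSpace Z] (g : c.GG)
    (a : c.O) (φ : Amb c D Z) : rt c D Z (MonoidAlgebra.single g a) φ = a • rtHom c D Z g φ := by
  rw [rt, MonoidAlgebra.lift_single]
  rfl

section sb

variable {D Z : Type} [TopologicalSpace D] [DiscreteTopology D] [MulAction c.Γ D]
  [TopologicalSpace Z]

theorem rt_rho (r : MonoidAlgebra c.O c.GG) (γ : c.Γ) (φ : Amb c D Z) :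
    rt c D Z r (rho c D Z γ φ) = rho c D Z γ (rt c D Z r φ) := by
  induction r using MonoidAlgebra.induction_on with
  | of g =>
    rw [MonoidAlgebra.of_apply, rt_single, rt_single, one_smul, one_smul]
    ext ⟨d, x, z⟩
    rw [rtHom_apply, rho_apply, rho_apply, rtHom_apply, mul_assoc]
  | add a b ha hb =>
    rw [map_add, LinearMap.add_apply, LinearMap.add_apply, ha, hb, map_add]
  | smul a b hb =>
    rw [map_smul, LinearMap.smul_apply, LinearMap.smul_apply, hb, map_smul]

end sb

/-- A submodule of the functions, stable under `Γ`. -/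
structure Sb (c : Ctx) (D Z : Type) [TopologicalSpace D] [DiscreteTopology D]
    [MulAction c.Γ D] [TopologicalSpace Z] where
  /-- the submodule -/
  N : Submodule c.O (Amb c D Z)
  st : ∀ (γ : c.Γ), ∀ φ ∈ N, rho c D Z γ φ ∈ N

section sb

variable {D Z : Type} [TopologicalSpace D] [DiscreteTopology D] [MulAction c.Γ D]
  [TopologicalSpace Z]

/-- The corresponding module over `Γ`. -/
def Sb.gm (M : Sb c D Z) : GM where
  G := c.Γ
  M := M.N
  ρ :=
    { toFun := fun γ =>
        { toFun := fun φ => ⟨rho c D Z γ φ.1, M.st γ φ.1 φ.2⟩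
          map_zero' := Subtype.ext (map_zero _)
          map_add' := fun _ _ => Subtype.ext (map_add _ _ _) }
      map_one' := AddMonoidHom.ext fun φ => Subtype.ext (by
        change rho c D Z 1 φ.1 = φ.1
        rw [map_one]
        rfl)
      map_mul' := fun g h => AddMonoidHom.ext fun φ => Subtype.ext (by
        change rho c D Z (g * h) φ.1 = rho c D Z g (rho c D Z h φ.1)
        rw [map_mul]
        rfl) }

/-- The complex of the cochains of `Γ` with values in `M`. -/
def Sb.cx (M : Sb c D Z) : Cx := M.gm.cx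

/-- The value of a cochain. -/
def Sb.vl {M : Sb c D Z} {m : ℕ} (x : M.cx.C m) (g : Fin m → c.Γ) : Amb c D Z :=
  ((show (Fin m → c.Γ) → M.N from x) g).1

theorem Sb.vl_mem {M : Sb c D Z} {m : ℕ} (x : M.cx.C m) (g : Fin m → c.Γ) : Sb.vl x g ∈ M.N :=
  ((show (Fin m → c.Γ) → M.N from x) g).2

/-- The cochain with given values. -/
def Sb.mk' (M : Sb c D Z) {m : ℕ} (x : (Fin m → c.Γ) → Amb c D Z) (h : ∀ g, x g ∈ M.N) :
    M.cx.C m := (show (Fin m → c.Γ) → M.N from fun g => ⟨x g, h g⟩)

@[simp] theorem Sb.vl_mk' {M : Sb c D Z} {m : ℕ} (x : (Fin m → c.Γ) → Amb c D Z)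
    (h : ∀ g, x g ∈ M.N) (g : Fin m → c.Γ) : Sb.vl (M.mk' x h) g = x g := rfl

theorem Sb.cx_ext {M : Sb c D Z} {m : ℕ} {x y : M.cx.C m} (h : ∀ g, Sb.vl x g = Sb.vl y g) :
    x = y := funext fun g => Subtype.ext (h g)

@[simp] theorem Sb.vl_zero {M : Sb c D Z} {m : ℕ} (g : Fin m → c.Γ) :
    Sb.vl (0 : M.cx.C m) g = 0 := rfl

@[simp] theorem Sb.vl_add {M : Sb c D Z} {m : ℕ} (x y : M.cx.C m) (g : Fin m → c.Γ) :
    Sb.vl (x + y) g = Sb.vl x g + Sb.vl y g := rfl

@[simp] theorem Sb.vl_sub {M : Sb c D Z} {m : ℕ} (x y : M.cx.C m) (g : Fin m → c.Γ) :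
    Sb.vl (x - y) g = Sb.vl x g - Sb.vl y g := rfl

theorem Sb.vl_d {M : Sb c D Z} {m : ℕ} (x : M.cx.C m) (g : Fin (m + 1) → c.Γ) :
    Sb.vl (M.cx.d m x) g = rho c D Z (g 0) (Sb.vl x fun i => g i.succ) +
      ∑ j : Fin (m + 1), (-1 : ℤ) ^ ((j : ℕ) + 1) • Sb.vl x (Fin.contractNth j (· * ·) g) := by
  have h : (show (Fin (m + 1) → c.Γ) → M.N from M.cx.d m x) g =
      (⟨rho c D Z (g 0) (Sb.vl x fun i => g i.succ), M.st _ _ (Sb.vl_mem _ _)⟩ : M.N) +
        ∑ j : Fin (m + 1), (-1 : ℤ) ^ ((j : ℕ) + 1) •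
          (show (Fin m → c.Γ) → M.N from x) (Fin.contractNth j (· * ·) g) := M.gm.cx_d m x g
  have h2 := congrArg Subtype.val h
  rw [Submodule.coe_add, Submodule.coe_sum] at h2
  exact h2

end sb

/-- Maps between the modules which commute with `Γ` give homomorphisms of complexes. -/
theorem Sb.exists_hom {D Z D' Z' : Type} [TopologicalSpace D] [DiscreteTopology D]
    [MulAction c.Γ D] [TopologicalSpace Z] [TopologicalSpace D'] [DiscreteTopology D']
    [MulAction c.Γ D'] [TopologicalSpace Z'] (M : Sb c D Z) (M' : Sb c D' Z')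
    (u : Amb c D Z →+ Amb c D' Z') (h : ∀ φ ∈ M.N, u φ ∈ M'.N)
    (hu : ∀ γ, ∀ φ ∈ M.N, u (rho c D Z γ φ) = rho c D' Z' γ (u φ)) :
    ∃ a : Cx.Hom M.cx M'.cx, ∀ m x g, Sb.vl (a.f m x) g = u (Sb.vl x g) := by
  let b : GM.Hom M'.gm M.gm :=
    { φ := MonoidHom.id c.Γ
      u :=
        { toFun := fun φ => (⟨u (show M.N from φ).1, h _ (show M.N from φ).2⟩ : M'.N)
          map_zero' := Subtype.ext (map_zero u)
          map_add' := fun x y => Subtype.ext (map_add u _ _) }
      comm := fun g x => Subtype.ext (hu g _ (show M.N from x).2) }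
  exact ⟨b.cx, fun m x g => rfl⟩

/-- The functions `φ` with `φ (d, x h, z) = h⁻¹ φ (d, x, z)` for `h` in `H`. -/
def Md (c : Ctx) (H : Subgroup c.K) (D Z : Type) [TopologicalSpace D] [DiscreteTopology D]
    [MulAction c.Γ D] [TopologicalSpace Z] : Sb c D Z where
  N :=
    { carrier := {φ | ∀ h ∈ H, ∀ d x z, φ (d, x * (h : c.GG), z) = c.τ h⁻¹ (φ (d, x, z))}
      zero_mem' := fun h _ d x z => by
        change (0 : c.W) = c.τ h⁻¹ 0
        rw [map_zero]
      add_mem' := fun {a b} ha hb h hh d x z => by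
        change a _ + b _ = c.τ h⁻¹ (a _ + b _)
        rw [ha h hh, hb h hh, map_add]
      smul_mem' := fun r a ha h hh d x z => by
        change r • a _ = c.τ h⁻¹ (r • a _)
        rw [ha h hh, map_smul] }
  st := fun γ φ hφ h hh d x z => by
    rw [rho_apply, rho_apply, ← mul_assoc]
    exact hφ h hh _ _ _

theorem mem_Md {H : Subgroup c.K} {D Z : Type} [TopologicalSpace D] [DiscreteTopology D]
    [MulAction c.Γ D] [TopologicalSpace Z] {φ : Amb c D Z} :
    φ ∈ (Md c H D Z).N ↔ ∀ h ∈ H, ∀ d x z, φ (d, x * (h : c.GG), z) = c.τ h⁻¹ (φ (d, x, z)) :=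
  Iff.rfl

end Pool.Agent.BRQ
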