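import Pool.Agent.BRQ.Hk
import Pool.Agent.BRQ.Bs

/-!
# The main induction
-/

set_option autoImplicit false

noncomputable section

namespace Pool.Agent.BRQ

open Matrix Filter Topology NumberField IsDedekindDomain
open Pool.Agent.BR80
open Pool.Agent.CG2 (Pl Fv Ov)
open Pool.Agent.CGN (GQ GZ Idx HeckeAlg)

section isb

variable {c : Ctx} {D Z : Type} [TopologicalSpace D] [DiscreteTopology D] [MulAction c.Γ D]
  [TopologicalSpace Z]

/-- The family `y` consists of the values of a coboundary. -/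
def IsB (M : Sb c D Z) {j : ℕ} (y : (Fin j → c.Γ) → Amb c D Z) : Prop :=
  ∃ x ∈ M.cx.Bg j, ∀ g, Sb.vl x g = y g

/-- The family `y` consists of the values of a cocycle. -/
def IsZ (M : Sb c D Z) {j : ℕ} (y : (Fin j → c.Γ) → Amb c D Z) : Prop :=
  ∃ x ∈ M.cx.Zg j, ∀ g, Sb.vl x g = y g

/- MODULE M0 -/
theorem IsB.add {M : Sb c D Z} {j : ℕ} {y y' : (Fin j → c.Γ) → Amb c D Z} (h : IsB M y)
    (h' : IsB M y') : IsB M (y + y') := by
  obtain ⟨x, hx, h⟩ := h
  obtain ⟨x', hx', h'⟩ := h'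
  exact ⟨x + x', add_mem hx hx', fun g => by rw [Sb.vl_add, h, h']; rfl⟩

theorem IsB.sub {M : Sb c D Z} {j : ℕ} {y y' : (Fin j → c.Γ) → Amb c D Z} (h : IsB M y)
    (h' : IsB M y') : IsB M (y - y') := by
  obtain ⟨x, hx, h⟩ := h
  obtain ⟨x', hx', h'⟩ := h'
  exact ⟨x - x', sub_mem hx hx', fun g => by rw [Sb.vl_sub, h, h']; rfl⟩

theorem IsB.zero {M : Sb c D Z} {j : ℕ} : IsB M (0 : (Fin j → c.Γ) → Amb c D Z) :=
  ⟨0, zero_mem _, fun g => by rw [Sb.vl_zero]; rfl⟩

theorem IsB.smul {M : Sb c D Z} {j : ℕ} {y : (Fin j → c.Γ) → Amb c D Z} (h : IsB M y)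
    (a : c.O) : IsB M (fun g => a • y g) := by
  obtain ⟨x, hx, h⟩ := h
  obtain ⟨e, he⟩ := Sb.exists_hom M M (a • (LinearMap.id : Amb c D Z →ₗ[c.O] Amb c D Z)).toAddMonoidHom
    (fun φ hφ => M.N.smul_mem a hφ) (fun γ φ _ => ((rho c D Z γ).map_smul a φ).symm)
  exact ⟨e.f j x, e.map_Bg hx, fun g => by rw [he, h]; rfl⟩

theorem IsB.sum {M : Sb c D Z} {j : ℕ} {I : Type} (s : Finset I)
    (y : I → (Fin j → c.Γ) → Amb c D Z) (h : ∀ i ∈ s, IsB M (y i)) :
    IsB M (fun g => ∑ i ∈ s, y i g) := by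
  classical
  induction s using Finset.induction_on with
  | empty => exact IsB.zero
  | insert a s ha ih =>
    have h1 := (h a (Finset.mem_insert_self a s)).add
      (ih fun i hi => h i (Finset.mem_insert_of_mem hi))
    have h2 : (fun g => ∑ i ∈ insert a s, y i g) = y a + fun g => ∑ i ∈ s, y i g := by
      funext g
      rw [Finset.sum_insert ha]
      rfl
    rw [h2]
    exact h1

/-- (`Sb.op`). -/
theorem IsB.rt {H : Subgroup c.K} {j : ℕ} {y : (Fin j → c.Γ) → Amb c D Z}
    (h : IsB (Md c H D Z) y) {r : MonoidAlgebra c.O c.GG} (hr : r ∈ St c H) :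
    IsB (Md c H D Z) (fun g => rt c D Z r (y g)) := by
  obtain ⟨x, hx, h⟩ := h
  exact ⟨(Sb.op (Md c H D Z) r fun _ h => rt_mem_Md hr h).f j x, Cx.Hom.map_Bg _ hx,
    fun g => by rw [Sb.vl_op, h]⟩

theorem IsZ.rt {H : Subgroup c.K} {j : ℕ} {y : (Fin j → c.Γ) → Amb c D Z}
    (h : IsZ (Md c H D Z) y) {r : MonoidAlgebra c.O c.GG} (hr : r ∈ St c H) :
    IsZ (Md c H D Z) (fun g => rt c D Z r (y g)) := by
  obtain ⟨x, hx, h⟩ := h
  exact ⟨(Sb.op (Md c H D Z) r fun _ h => rt_mem_Md hr h).f j x, Cx.Hom.map_Zg _ hx,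
    fun g => by rw [Sb.vl_op, h]⟩

private theorem m0_hom {H H' : Subgroup c.K} (hH : H ≤ H') :
    ∃ a : Cx.Hom (Md c H' D Z).cx (Md c H D Z).cx, ∀ m x g, Sb.vl (a.f m x) g = Sb.vl x g :=
  Sb.exists_hom (Md c H' D Z) (Md c H D Z) (AddMonoidHom.id _)
    (fun _ hφ h hh => hφ h (hH hh)) (fun _ _ _ => rfl)

/-- Restriction to a smaller group. -/
theorem IsB.mono {H H' : Subgroup c.K} (hH : H ≤ H') {j : ℕ} {y : (Fin j → c.Γ) → Amb c D Z}
    (h : IsB (Md c H' D Z) y) : IsB (Md c H D Z) y := by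
  obtain ⟨x, hx, h⟩ := h
  obtain ⟨a, ha⟩ := m0_hom (c := c) (D := D) (Z := Z) hH
  exact ⟨a.f j x, a.map_Bg hx, fun g => by rw [ha, h]⟩

theorem IsZ.mono {H H' : Subgroup c.K} (hH : H ≤ H') {j : ℕ} {y : (Fin j → c.Γ) → Amb c D Z}
    (h : IsZ (Md c H' D Z) y) : IsZ (Md c H D Z) y := by
  obtain ⟨x, hx, h⟩ := h
  obtain ⟨a, ha⟩ := m0_hom (c := c) (D := D) (Z := Z) hH
  exact ⟨a.f j x, a.map_Zg hx, fun g => by rw [ha, h]⟩
/- END M0 -/

end isb

variable {F : Type} [Field F] [NumberField F] {n : ℕ} {S : Set (Pl F)} {O W : Type} [CommRing O]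
  [AddCommGroup W] [Module O W]

section letters

variable [TopologicalSpace W] [IsTopologicalAddGroup W] [ContinuousConstSMul O W]

/- MODULE M1 -/
section m1

variable {c : Ctx} {D Z : Type} [TopologicalSpace D] [DiscreteTopology D] [MulAction c.Γ D]
  [TopologicalSpace Z]

/-- An element which acts trivially on the cohomology. -/
private theorem m1_one {H : Subgroup c.K} {P : Subgroup c.GG} {i : ℕ} (hP : PTriv c H P i)
    (hD : ∀ γ ∈ c.Γ₁, ∀ d : D, γ • d = d) {y : (Fin i → c.Γ) → Amb c D Z}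
    (hy : IsZ (Md c H D Z) y) {p : c.GG} (hp : p ∈ P) :
    IsB (Md c H D Z) (fun g => rtHom c D Z p (y g) - y g) := by
  obtain ⟨x, hx, hxy⟩ := hy
  obtain ⟨x', hx', h⟩ := hP D hD Z p hp x hx
  refine ⟨x', hx', fun g => ?_⟩
  rw [h g, hxy g, map_sub, LinearMap.sub_apply, rt_single, one_smul, map_one]
  rfl

/-- The sum of the translations by elements `p t k`, `k` trivial on `y`. -/
private theorem m1_abs {H H' : Subgroup c.K} (hH : H ≤ H') {P : Subgroup c.GG} {i : ℕ}
    (hP : PTriv c H P i) (hD : ∀ γ ∈ c.Γ₁, ∀ d : D, γ • d = d)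
    {y : (Fin i → c.Γ) → Amb c D Z} (hy : IsZ (Md c H' D Z) y) {I : Type} (s : Finset I)
    (g : I → c.GG) (t : c.GG) (ht : MonoidAlgebra.single t 1 ∈ St c H)
    (hg : ∀ a ∈ s, ∃ p ∈ P, ∃ k ∈ H', c.τ k = 1 ∧ g a = p * t * (k : c.GG)) :
    IsB (Md c H D Z) (fun a => rt c D Z (∑ b ∈ s, MonoidAlgebra.single (g b) (1 : c.O)) (y a) -
      ((s.card : ℕ) : c.O) • rtHom c D Z t (y a)) := by
  have hZ : IsZ (Md c H D Z) (fun a => rtHom c D Z t (y a)) := by
    have h2 := (IsZ.mono hH hy).rt ht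
    simpa only [rt_single, one_smul] using h2
  have hS : IsB (Md c H D Z) (fun a => ∑ b ∈ s, (rtHom c D Z (g b) (y a) -
      rtHom c D Z t (y a))) := by
    refine IsB.sum s (fun b a => rtHom c D Z (g b) (y a) - rtHom c D Z t (y a)) ?_
    intro b hb
    obtain ⟨p, hp, k, hk, hτ, hgb⟩ := hg b hb
    have h1 := m1_one hP hD hZ hp
    have h2 : (fun a => rtHom c D Z (g b) (y a) - rtHom c D Z t (y a)) = fun a =>
        rtHom c D Z p (rtHom c D Z t (y a)) - rtHom c D Z t (y a) := by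
      funext a
      congr 1
      ext ⟨d, x, z⟩
      rw [rtHom_apply, rtHom_apply, rtHom_apply, hgb]
      obtain ⟨x', -, hx'⟩ := hy
      have h3 : y a ∈ (Md c H' D Z).N := hx' a ▸ Sb.vl_mem x' a
      have h4 := mem_Md.1 h3 k hk d (x * p * t) z
      have h5 : c.τ k⁻¹ = 1 := by
        have h6 : c.τ k⁻¹ * c.τ k = 1 := by rw [← map_mul, inv_mul_cancel, map_one]
        rwa [hτ, mul_one] at h6
      rw [h5] at h4
      have h7 : x * (p * t * (k : c.GG)) = x * p * t * (k : c.GG) := by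
        simp only [mul_assoc]
      rw [h7]
      exact h4
    rw [h2]
    exact h1
  have h8 : (fun a => rt c D Z (∑ b ∈ s, MonoidAlgebra.single (g b) (1 : c.O)) (y a) -
      ((s.card : ℕ) : c.O) • rtHom c D Z t (y a)) = fun a => ∑ b ∈ s,
        (rtHom c D Z (g b) (y a) - rtHom c D Z t (y a)) := by
    funext a
    rw [map_sum, LinearMap.sum_apply, Finset.sum_sub_distrib, Finset.sum_const,
      Nat.cast_smul_eq_nsmul]
    congr 1
    refine Finset.sum_congr rfl fun b _ => ?_
    rw [rt_single, one_smul]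
  rw [h8]
  exact hS

end m1

open scoped Classical in
/-- For `x` invariant under `KT T` and `v ∉ T` the Hecke operator at `v` is, up to coboundaries for
`KT (T ∪ v)`, the number of cosets times the translation by a power of `t = diag(π, 1, …, 1)`:
`out c = s t^e k` (`out_eq`), `k` acts trivially on `x`, and `s` acts trivially on the cohomology of
`Md (KT (T ∪ v))` (`hP`). -/
theorem letter (L : Lvl F n S O W) (hn : 1 ≤ n) (T : Finset (Pl F)) (v : Pl F) (hv : v ∉ S)
    (hvT : v ∉ T) (i : ℕ)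
    (hP : PTriv L.ctx (L.KT (insert v T)) (show Subgroup L.ctx.GG from PP n v) i)
    (D Z : Type) [TopologicalSpace D] [DiscreteTopology D] [MulAction L.ctx.Γ D]
    (hD : ∀ γ ∈ L.ctx.Γ₁, ∀ d : D, γ • d = d) [TopologicalSpace Z]
    (y : (Fin i → L.ctx.Γ) → Amb L.ctx D Z) (hy : IsZ (Md L.ctx (L.KT T) D Z) y)
    (j : Option (Fin n)) :
    IsB (Md L.ctx (L.KT (insert v T)) D Z) (fun g =>
      rt L.ctx D Z (show MonoidAlgebra L.ctx.O L.ctx.GG from hk O (⟨v, hv⟩, j)) (y g) -
        (show L.ctx.O from ((deg v j : ℕ) : O)) •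
          rtHom L.ctx D Z (show L.ctx.GG from sgl v (tt n v ^ ex n j)) (y g)) := by
  refine m1_abs (c := L.ctx) (H := L.KT (insert v T)) (H' := L.KT T) ?_ hP hD hy
    (CGN.cosets_finite v j).toFinset (fun c => sgl v (Quotient.out c)) (sgl v (tt n v ^ ex n j))
    ?_ ?_
  · exact fun k hk w hw => hk w (Finset.mem_insert_of_mem hw)
  · refine single_mem_St (c := L.ctx) (fun k hk => ?_) _
    refine comm_of_comp (F := F) (n := n) fun w => ?_
    by_cases hw : w = v
    · left
      subst hw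
      exact hk w (Finset.mem_insert_self w T)
    · right
      exact comp_sgl_ne hw _
  · intro c hc
    rw [Set.Finite.mem_toFinset] at hc
    obtain ⟨s, hs, k, hk, hout⟩ := out_eq hn v j c hc
    refine ⟨sgl v s, mem_PP hs, ⟨sgl v k, L.mem v hv k hk⟩, ?_, L.triv v hv k hk, ?_⟩
    · intro w hw
      have hwv : w ≠ v := fun h => hvT (h ▸ hw)
      exact comp_sgl_ne hwv _
    · change sgl v (Quotient.out c) = sgl v s * sgl v (tt n v ^ ex n j) * sgl v k
      rw [hout, map_mul, map_mul]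
/- END M1 -/

end letters

/-- Words in the letters at `v`. -/
def wv (n : ℕ) (S : Set (Pl F)) (O : Type) [CommRing O] (v : Pl F) (hv : v ∉ S) :
    FreeAlgebra O (Option (Fin n)) →ₐ[O] Wd n S O :=
  FreeAlgebra.lift O fun j => FreeAlgebra.ι O ((⟨v, hv⟩, j) : Idx (F := F) n S)

/-- The homomorphism to Laurent polynomials for words. -/
def lw (O : Type) [CommRing O] (n : ℕ) (d : Option (Fin n) → ℕ) :
    FreeAlgebra O (Option (Fin n)) →ₐ[O] LaurentPolynomial O :=
  FreeAlgebra.lift O fun j => (d j : O) • LaurentPolynomial.T (ex n j)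

/-- Laurent polynomials in `t = diag(π, 1, …, 1)` as elements of the group algebra. -/
def lau (O : Type) [CommRing O] (n : ℕ) (v : Pl F) :
    LaurentPolynomial O →ₐ[O] MonoidAlgebra O (GA F n) :=
  AddMonoidAlgebra.lift O _ ℤ
    ((MonoidAlgebra.of O (GA F n)).comp (zpowersHom (GA F n) (sgl v (tt n v))))

section words

variable [TopologicalSpace W] [IsTopologicalAddGroup W] [ContinuousConstSMul O W]

/- MODULE M2 -/
theorem lau_T (v : Pl F) (k : ℤ) : lau O n v (LaurentPolynomial.T k) =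
    MonoidAlgebra.single (sgl v (tt n v ^ k)) 1 := by
  rw [lau, LaurentPolynomial.T, AddMonoidAlgebra.lift_single, one_smul]
  change MonoidAlgebra.of O (GA F n) ((zpowersHom (GA F n) (sgl v (tt n v))) (Multiplicative.ofAdd k)) = _
  rw [zpowersHom_apply, toAdd_ofAdd, MonoidAlgebra.of_apply, map_zpow]

private theorem m2_lau (v : Pl F) (k : ℤ) (a : O) :
    lau O n v (LaurentPolynomial.C a * LaurentPolynomial.T k) =
      MonoidAlgebra.single (sgl v (tt n v ^ k)) a := by
  rw [← LaurentPolynomial.smul_eq_C_mul, map_smul, lau_T, MonoidAlgebra.smul_single, smul_eq_mul,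
    mul_one]

open scoped Classical in
/-- Laurent polynomials in `t` preserve the functions for `KT (T ∪ v)`. -/
theorem lau_mem_St (L : Lvl F n S O W) (T : Finset (Pl F)) (v : Pl F)
    (f : LaurentPolynomial O) :
    (show MonoidAlgebra L.ctx.O L.ctx.GG from lau O n v f) ∈ St L.ctx (L.KT (insert v T)) := by
  induction f using LaurentPolynomial.induction_on' with
  | add p q hp hq =>
    rw [map_add]
    exact add_mem hp hq
  | C_mul_T k a =>
    rw [m2_lau]
    refine single_mem_St (c := L.ctx) (H := L.KT (insert v T))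
      (g := (show L.ctx.GG from sgl v (tt n v ^ k))) (fun k' hk' => ?_) (show L.ctx.O from a)
    refine comm_of_comp fun w => ?_
    by_cases hw : w = v
    · subst hw
      exact Or.inl (hk' w (Finset.mem_insert_self w T))
    · exact Or.inr (comp_sgl_ne hw _)

private theorem m2_wv_mem (T : Finset (Pl F)) (v : Pl F) (hv : v ∉ S) (hvT : v ∉ T)
    (w : FreeAlgebra O (Option (Fin n))) : wv n S O v hv w ∈ WT n S O T := by
  induction w using FreeAlgebra.induction with
  | grade0 r => rw [AlgHom.commutes]; exact Subalgebra.algebraMap_mem _ r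
  | grade1 j =>
    rw [wv, FreeAlgebra.lift_ι_apply]
    exact Algebra.subset_adjoin ⟨_, hvT, rfl⟩
  | mul a b ha hb => rw [map_mul]; exact mul_mem ha hb
  | add a b ha hb => rw [map_add]; exact add_mem ha hb

private theorem m2_eq {c : Ctx} {D Z : Type} [TopologicalSpace D] [DiscreteTopology D]
    [MulAction c.Γ D] [TopologicalSpace Z] {M : Sb c D Z} {j : ℕ}
    {y y' : (Fin j → c.Γ) → Amb c D Z} (h : IsB M y) (e : ∀ g, y' g = y g) : IsB M y' := by
  obtain ⟨x, hx, h⟩ := h
  exact ⟨x, hx, fun g => by rw [h, e]⟩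

open scoped Classical in
/-- The statement of `letter` for words in the Hecke operators at `v` (induction on the word, for all
`y`). -/
theorem words (L : Lvl F n S O W) (hn : 1 ≤ n) (T : Finset (Pl F)) (v : Pl F) (hv : v ∉ S)
    (hvT : v ∉ T) (i : ℕ)
    (hP : PTriv L.ctx (L.KT (insert v T)) (show Subgroup L.ctx.GG from PP n v) i)
    (D Z : Type) [TopologicalSpace D] [DiscreteTopology D] [MulAction L.ctx.Γ D]
    (hD : ∀ γ ∈ L.ctx.Γ₁, ∀ d : D, γ • d = d) [TopologicalSpace Z]
    (w : FreeAlgebra O (Option (Fin n)))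
    (y : (Fin i → L.ctx.Γ) → Amb L.ctx D Z) (hy : IsZ (Md L.ctx (L.KT T) D Z) y) :
    IsB (Md L.ctx (L.KT (insert v T)) D Z) (fun g =>
      rt L.ctx D Z (show MonoidAlgebra L.ctx.O L.ctx.GG from ev n S O (wv n S O v hv w)) (y g) -
        rt L.ctx D Z (show MonoidAlgebra L.ctx.O L.ctx.GG from lau O n v (lw O n (deg v) w))
          (y g)) := by
  induction w using FreeAlgebra.induction generalizing y with
  | grade0 r =>
    refine m2_eq IsB.zero fun g => ?_
    rw [AlgHom.commutes, AlgHom.commutes, AlgHom.commutes, AlgHom.commutes, sub_self]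
    rfl
  | grade1 j =>
    refine m2_eq (letter L hn T v hv hvT i hP D Z hD y hy j) fun g => ?_
    have h1 : ev n S O (wv n S O v hv (FreeAlgebra.ι O j)) = hk O (⟨v, hv⟩, j) := by
      rw [wv, FreeAlgebra.lift_ι_apply, ev_ι]
    have h2 : lau O n v (lw O n (deg v) (FreeAlgebra.ι O j)) =
        MonoidAlgebra.single (sgl v (tt n v ^ ex n j)) ((deg v j : ℕ) : O) := by
      rw [lw, FreeAlgebra.lift_ι_apply, map_smul, lau_T, MonoidAlgebra.smul_single, smul_eq_mul,
        mul_one]
    rw [h1, h2]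
    exact congrArg (fun t => rt L.ctx D Z (show MonoidAlgebra L.ctx.O L.ctx.GG from
      hk O (⟨v, hv⟩, j)) (y g) - t) (rt_single (c := L.ctx) _ _ _)
  | mul a b ha hb =>
    have hz := hy.rt (ev_mem_St L T (wv n S O v hv b) (m2_wv_mem T v hv hvT b))
    have h1 := ha _ hz
    have h2 := (hb y hy).rt (lau_mem_St L T v (lw O n (deg v) a))
    refine m2_eq (h1.add h2) fun g => ?_
    rw [map_mul, map_mul, map_mul, map_mul]
    change (rt L.ctx D Z ((show MonoidAlgebra L.ctx.O L.ctx.GG from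
      ev n S O (wv n S O v hv a)) * (show MonoidAlgebra L.ctx.O L.ctx.GG from
      ev n S O (wv n S O v hv b)))) (y g) - (rt L.ctx D Z ((show MonoidAlgebra L.ctx.O L.ctx.GG
        from lau O n v (lw O n (deg v) a)) * (show MonoidAlgebra L.ctx.O L.ctx.GG from
        lau O n v (lw O n (deg v) b)))) (y g) = _
    rw [map_mul, map_mul, Module.End.mul_apply, Module.End.mul_apply, Pi.add_apply, map_sub]
    exact (sub_add_sub_cancel _ _ _).symm
  | add a b ha hb =>
    refine m2_eq ((ha y hy).add (hb y hy)) fun g => ?_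
    rw [map_add, map_add, map_add, map_add]
    change (rt L.ctx D Z ((show MonoidAlgebra L.ctx.O L.ctx.GG from
      ev n S O (wv n S O v hv a)) + (show MonoidAlgebra L.ctx.O L.ctx.GG from
      ev n S O (wv n S O v hv b)))) (y g) - (rt L.ctx D Z ((show MonoidAlgebra L.ctx.O L.ctx.GG
        from lau O n v (lw O n (deg v) a)) + (show MonoidAlgebra L.ctx.O L.ctx.GG from
        lau O n v (lw O n (deg v) b)))) (y g) = _
    rw [map_add, map_add, LinearMap.add_apply, LinearMap.add_apply, Pi.add_apply]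
    exact add_sub_add_comm _ _ _ _
/- END M2 -/

/-- The eigenvalues `ψ (v, j)` at `v` are `deg_j χ^(j+1)` for an element `χ` of the algebraic
closure. -/
def Eig {κ : Type} [Field κ] (ψ : Idx (F := F) n S → κ) (v : {v : Pl F // v ∉ S}) : Prop :=
  ∃ χ : AlgebraicClosure κ, ∀ j : Fin n, algebraMap κ (AlgebraicClosure κ) (ψ (v, some j)) =
    (deg v.1 (some j) : AlgebraicClosure κ) * χ ^ ((j : ℕ) + 1)

/- MODULE M3 -/
private theorem m3_ker {c : Ctx} (R : Rz c) {H H' U : Subgroup c.K} (eH : R.H = H)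
    (eH' : R.H' = H') (eU : R.U = U) (G : MonoidAlgebra c.O c.GG → Prop) (hG1 : G 1)
    (hGm : ∀ r r', G r → G r' → G (r * r')) (hG : ∀ r, G r → r ∈ St c H ⊓ Ce c U) (i : ℕ)
    (hL : ∀ j, j < i → DeadM c H G j) (D : Type) [TopologicalSpace D] [DiscreteTopology D]
    [MulAction c.Γ D] (hD : ∀ γ ∈ c.Γ₁, ∀ d : D, γ • d = d) (Z : Type) [TopologicalSpace Z]
    (x : (Md c H' D Z).cx.C i) (hx : x ∈ (Md c H' D Z).cx.Zg i)
    (h : IsB (Md c H D Z) (fun g => Sb.vl x g)) :
    ∃ r, G r ∧ Kil (Md c H' D Z) r x := by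
  subst eH
  subst eH'
  subst eU
  exact R.ker_dead G hG1 hGm hG i hL D hD Z x hx h

private theorem m3_toMv (v : Pl F) (hv : v ∉ S) (w : FreeAlgebra O (Option (Fin n))) :
    toMv n S O (wv n S O v hv w) = MvPolynomial.rename (fun j => ((⟨v, hv⟩, j) : Idx n S))
      (FreeAlgebra.lift O (MvPolynomial.X : Option (Fin n) → MvPolynomial (Option (Fin n)) O) w) := by
  induction w using FreeAlgebra.induction with
  | grade0 r => simp only [AlgHom.commutes]
  | grade1 j => rw [wv, FreeAlgebra.lift_ι_apply, toMv_ι, FreeAlgebra.lift_ι_apply,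
      MvPolynomial.rename_X]
  | mul a b ha hb => simp only [map_mul, ha, hb]
  | add a b ha hb => simp only [map_add, ha, hb]

private theorem m3_lw (d : Option (Fin n) → ℕ) (w : FreeAlgebra O (Option (Fin n))) :
    phi O n d (FreeAlgebra.lift O (MvPolynomial.X : Option (Fin n) →
      MvPolynomial (Option (Fin n)) O) w) = lw O n d w := by
  induction w using FreeAlgebra.induction with
  | grade0 r => simp only [AlgHom.commutes]
  | grade1 j => rw [lw, FreeAlgebra.lift_ι_apply, FreeAlgebra.lift_ι_apply, phi,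
      MvPolynomial.aeval_X]
  | mul a b ha hb => simp only [map_mul, ha, hb]
  | add a b ha hb => simp only [map_add, ha, hb]

private theorem m3_surj (t : MvPolynomial (Option (Fin n)) O) :
    ∃ w : FreeAlgebra O (Option (Fin n)), FreeAlgebra.lift O (MvPolynomial.X :
      Option (Fin n) → MvPolynomial (Option (Fin n)) O) w = t := by
  induction t using MvPolynomial.induction_on with
  | C a => exact ⟨algebraMap O _ a, by rw [AlgHom.commutes]; rfl⟩
  | add p q hp hq =>
    obtain ⟨w, rfl⟩ := hp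
    obtain ⟨w', rfl⟩ := hq
    exact ⟨w + w', map_add _ _ _⟩
  | mul_X p j hp =>
    obtain ⟨w, rfl⟩ := hp
    exact ⟨w * FreeAlgebra.ι O j, by rw [map_mul, FreeAlgebra.lift_ι_apply]⟩

open scoped Classical in
/-- The inductive step. If a class `y` for `KT T` in degree `i` is not killed by a good operator, then
the eigenvalues at `v` are `deg_j χ^(j+1)`: for a word `w` at `v` with `lw w = 0` the class `w y` becomes
trivial for `KT (T ∪ v)` (`words`), so it is killed by a good operator outside `T ∪ v`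
(`Rz.ker_dead` for `exists_R2`), and `w` is in `m`. Now `exists_chi` for the homomorphism
`MvPolynomial.rename` followed by the projection to `κ`. -/
theorem step (L : Lvl F n S O W) (hn : 1 ≤ n) (T : Finset (Pl F)) (hTS : ∀ w ∈ T, w ∉ S)
    (v : Pl F) (hv : v ∉ S) (hvT : v ∉ T) (i : ℕ)
    (hP : PTriv L.ctx (L.KT (insert v T)) (show Subgroup L.ctx.GG from PP n v) i)
    (m : Ideal (HeckeAlg (F := F) n S O)) [m.IsPrime] (κ : Type) [Field κ]
    [Algebra (HeckeAlg (F := F) n S O ⧸ m) κ]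
    (hdead : ∀ j, j < i → DeadM L.ctx (L.KT (insert v T))
      (fun r => Good m (insert v T) (show MonoidAlgebra O (GA F n) from r)) j)
    (D Z : Type) [TopologicalSpace D] [DiscreteTopology D] [MulAction L.ctx.Γ D]
    (hD : ∀ γ ∈ L.ctx.Γ₁, ∀ d : D, γ • d = d) [TopologicalSpace Z]
    (x : (Md L.ctx (L.KT T) D Z).cx.C i) (hx : x ∈ (Md L.ctx (L.KT T) D Z).cx.Zg i)
    (h : ¬ ∃ r : MonoidAlgebra O (GA F n), Good m T r ∧
      Kil (Md L.ctx (L.KT T) D Z) (show MonoidAlgebra L.ctx.O L.ctx.GG from r) x) :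
    Eig (fun t => CGN.eig m κ t) ⟨v, hv⟩ := by
  have key : ∀ t : MvPolynomial (Option (Fin n)) O, phi O n (deg v) t = 0 →
      MvPolynomial.rename (fun j => ((⟨v, hv⟩, j) : Idx n S)) t ∈ m := by
    intro t ht
    by_contra hm
    refine h ?_
    obtain ⟨w, rfl⟩ := m3_surj t
    rw [m3_lw] at ht
    rw [← m3_toMv] at hm
    have hyZ : IsZ (Md L.ctx (L.KT T) D Z) (fun g => Sb.vl x g) := ⟨x, hx, fun _ => rfl⟩
    have h1 := words L hn T v hv hvT i hP D Z hD w _ hyZ
    rw [ht, map_zero] at h1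
    have hst := ev_mem_St L T (wv n S O v hv w) (m2_wv_mem T v hv hvT w)
    obtain ⟨x1, hx1, hv1⟩ := hyZ.rt hst
    obtain ⟨R, eH, eH', eU⟩ := L.exists_R2 T hTS v hv hvT
    have h2 : IsB (Md L.ctx (L.KT (insert v T)) D Z) (fun g => Sb.vl x1 g) := by
      refine m2_eq h1 fun g => ?_
      rw [hv1]
      change _ = _ - rt L.ctx D Z 0 _
      rw [map_zero, LinearMap.zero_apply, sub_zero]
    obtain ⟨r, ⟨w', hw', e', hm'⟩, x', hx', hk⟩ := m3_ker R eH eH' eU
      (fun r => Good m (insert v T) (show MonoidAlgebra O (GA F n) from r))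
      (good_one m _) (fun r r' hr hr' => good_mul m _ hr hr')
      (fun r ⟨w', hw', e', _⟩ => by
        refine Algebra.mem_inf.2 ⟨?_, ?_⟩
        · have := ev_mem_St L (insert v T) w' hw'
          rw [e'] at this
          exact this
        · have := ev_mem_Ce L (insert v T) v (Finset.mem_insert_self v T) w' hw'
          rw [e'] at this
          exact this) i hdead D hD Z x1 hx1 h2
    refine ⟨(show MonoidAlgebra O (GA F n) from r) * ev n S O (wv n S O v hv w), good_mul m T
      ⟨w', WT_mono (Finset.subset_insert v T) hw', e', hm'⟩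
      ⟨_, m2_wv_mem T v hv hvT w, rfl, hm⟩, x', hx', fun g => ?_⟩
    rw [hk, hv1]
    exact (congrArg (fun φ : Module.End L.ctx.O (Amb L.ctx D Z) => φ (Sb.vl x g))
      (map_mul (rt L.ctx D Z) r
        (show MonoidAlgebra L.ctx.O L.ctx.GG from ev n S O (wv n S O v hv w)))).symm
  obtain ⟨χ, hχ⟩ := exists_chi hn (deg v) (deg_none v) (fun j hj => deg_last v j hj)
    (((algebraMap (HeckeAlg (F := F) n S O ⧸ m) κ).comp (Ideal.Quotient.mk m)).comp
      (MvPolynomial.rename (R := O) (fun j => ((⟨v, hv⟩, j) : Idx n S))).toRingHom) (by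
      intro t ht
      have h1 := key t ht
      change algebraMap _ κ (Ideal.Quotient.mk m (MvPolynomial.rename _ t)) = 0
      rw [Ideal.Quotient.eq_zero_iff_mem.2 h1, map_zero])
  refine ⟨χ, fun j => ?_⟩
  rw [← hχ j]
  change algebraMap κ _ (algebraMap _ κ (Ideal.Quotient.mk m (MvPolynomial.X _))) =
    algebraMap κ _ (algebraMap _ κ (Ideal.Quotient.mk m (MvPolynomial.rename _ (MvPolynomial.X _))))
  rw [MvPolynomial.rename_X]
/- END M3 -/

end words

variable [UniformSpace W] [IsUniformAddGroup W] [CompleteSpace W] [T2Space W]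
  [NonarchimedeanAddGroup W] [ContinuousConstSMul O W]

/- MODULE M4 -/
/-- The main induction: everything is dead in the degrees `i ≤ n - 2`, if for every finite set `T` there
is a place outside `S` and `T` where the eigenvalues are not of the special form (induction on
`i`, `step`, `ptriv_KT`). -/
theorem main_dead (L : Lvl F n S O W) (p₀ : ℕ) (hp₀ : 0 < p₀)
    (hW : ∀ U : OpenAddSubgroup W, ∃ e : ℕ, ∀ w : W, p₀ ^ e • w ∈ U)
    (hT : ∀ q, q + 2 ≤ n → TwN (BRW.worldNF F W p₀ hp₀ hW) n q)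
    (m : Ideal (HeckeAlg (F := F) n S O)) [m.IsPrime] (κ : Type) [Field κ]
    [Algebra (HeckeAlg (F := F) n S O ⧸ m) κ]
    (hE : ∀ T : Finset (Pl F), ∃ v : {v : Pl F // v ∉ S}, v.1 ∉ T ∧
      ¬ Eig (fun t => CGN.eig m κ t) v) (i : ℕ) (hi : i + 2 ≤ n) :
    ∀ T : Finset (Pl F), (∀ w ∈ T, w ∉ S) → DeadM L.ctx (L.KT T)
      (fun r => Good m T (show MonoidAlgebra O (GA F n) from r)) i := by
  classical
  induction i using Nat.strong_induction_on with
  | _ i ih =>
    intro T hTS D _ _ _ hD Z _ x hx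
    by_contra hcon
    obtain ⟨⟨v, hv⟩, hvT, hne⟩ := hE T
    have hTS' : ∀ w ∈ insert v T, w ∉ S := by
      intro w hw
      rcases Finset.mem_insert.1 hw with rfl | hw
      · exact hv
      · exact hTS w hw
    have hP := ptriv_KT L (by omega) p₀ hp₀ hW i (fun j hj => hT j (by omega)) (insert v T) hTS' v
      (Finset.mem_insert_self v T) i le_rfl
    exact hne (step L (by omega) T hTS v hv hvT i hP m κ
      (fun j hj => ih j hj (by omega) (insert v T) hTS') D Z hD x hx hcon)
/- END M4 -/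

end Pool.Agent.BRQ
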