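import Mathlib

/-!
# Classes in group cohomology and cocycles
-/

set_option autoImplicit false

noncomputable section

namespace Pool.Agent.BRQ

open CategoryTheory

variable {O G : Type} [CommRing O] [Group G]

/-- The differential of an inhomogeneous cochain. -/
def dC (A : Rep.{0} O G) (i : ℕ) (x : (Fin i → G) → A) : (Fin (i + 1) → G) → A := fun g =>
  A.ρ (g 0) (x fun j => g j.succ) +
    ∑ j : Fin (i + 1), (-1 : ℤ) ^ ((j : ℕ) + 1) • x (Fin.contractNth j (· * ·) g)

/-- The cochain `x` is a coboundary. -/
def IsCob (A : Rep.{0} O G) : ∀ i : ℕ, ((Fin i → G) → A) → Prop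
  | 0, x => x = 0
  | i + 1, x => ∃ y : (Fin i → G) → A, dC A i y = x

/- MODULE GC -/
private theorem gc_d (A : Rep.{0} O G) (i : ℕ) (x : (Fin i → G) → A) :
    (inhomogeneousCochains.d A i).hom x = dC A i x := by
  funext g
  rw [inhomogeneousCochains.d_hom_apply, dC]
  congr 1
  refine Finset.sum_congr rfl fun j _ => ?_
  rcases Nat.even_or_odd ((j : ℕ) + 1) with h | h
  · rw [h.neg_one_pow, h.neg_one_pow, one_smul, one_smul]
  · rw [h.neg_one_pow, h.neg_one_pow, neg_smul, neg_smul, one_smul, one_smul]

private theorem gc_mk (A : Rep.{0} O G) (i : ℕ) (x : (Fin i → G) → A) (h : dC A i x = 0) :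
    inhomogeneousCochains.d A i x = 0 := (gc_d A i x).trans h

private theorem gc_ext (A : Rep.{0} O G) (i : ℕ) (a b : groupCohomology.cocycles A i)
    (h : groupCohomology.iCocycles A i a = groupCohomology.iCocycles A i b) : a = b :=
  (ModuleCat.mono_iff_injective (groupCohomology.iCocycles A i)).1 inferInstance h

private theorem gc_i (A : Rep.{0} O G) (i : ℕ) (a : groupCohomology.cocycles A i) :
    dC A i (groupCohomology.iCocycles A i a) = 0 := by
  rw [← gc_d]
  have h := (groupCohomology.inhomogeneousCochains A).iCycles_d i (i + 1)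
  rw [groupCohomology.inhomogeneousCochains.d_def] at h
  have h2 := congrArg (fun f => f.hom a) h
  exact h2

/-- Every class in `groupCohomology A i` is given by a cocycle (`groupCohomology.cocyclesMk`,
`groupCohomology.π`, `inhomogeneousCochains.d_hom_apply`); the properties of the class `cl x`. -/
theorem exists_cls (A : Rep.{0} O G) (i : ℕ) :
    ∃ cl : {x : (Fin i → G) → A // dC A i x = 0} → groupCohomology A i,
      Function.Surjective cl ∧
      (∀ x y z, (∀ g, z.1 g = x.1 g + y.1 g) → cl z = cl x + cl y) ∧
      (∀ (a : O) x z, (∀ g, z.1 g = a • x.1 g) → cl z = a • cl x) ∧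
      (∀ x, IsCob A i x.1 → cl x = 0) ∧
      ∀ (f : A ⟶ A) x z, (∀ g, z.1 g = f.hom (x.1 g)) →
        ((groupCohomology.functor O G i).map f).hom (cl x) = cl z := by
  refine ⟨fun x => groupCohomology.π A i (groupCohomology.cocyclesMk x.1 (gc_mk A i x.1 x.2)),
    ?_, ?_, ?_, ?_, ?_⟩
  · intro c
    induction c using groupCohomology_induction_on with
    | h y =>
      refine ⟨⟨groupCohomology.iCocycles A i y, gc_i A i y⟩, ?_⟩
      refine congrArg (groupCohomology.π A i).hom (gc_ext A i _ _ ?_)
      rw [groupCohomology.iCocycles_mk]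
  · intro x y z h
    rw [← map_add]
    refine congrArg (groupCohomology.π A i).hom (gc_ext A i _ _ ?_)
    rw [map_add, groupCohomology.iCocycles_mk, groupCohomology.iCocycles_mk,
      groupCohomology.iCocycles_mk]
    funext g
    exact h g
  · intro a x z h
    rw [← map_smul]
    refine congrArg (groupCohomology.π A i).hom (gc_ext A i _ _ ?_)
    rw [map_smul, groupCohomology.iCocycles_mk, groupCohomology.iCocycles_mk]
    funext g
    exact h g
  · intro x hx
    rcases i with _ | i
    · have h0 : groupCohomology.cocyclesMk x.1 (gc_mk A 0 x.1 x.2) = 0 := by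
        apply gc_ext
        rw [map_zero, groupCohomology.iCocycles_mk]
        exact hx
      change groupCohomology.π A 0 (groupCohomology.cocyclesMk x.1 (gc_mk A 0 x.1 x.2)) = 0
      rw [h0, map_zero]
    · obtain ⟨y, hy⟩ := hx
      have h0 : groupCohomology.cocyclesMk x.1 (gc_mk A (i + 1) x.1 x.2) =
          groupCohomology.toCocycles A i (i + 1) y := by
        apply gc_ext
        rw [groupCohomology.iCocycles_mk]
        have h1 := (groupCohomology.inhomogeneousCochains A).toCycles_i i (i + 1)
        rw [groupCohomology.inhomogeneousCochains.d_def] at h1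
        have h2 := congrArg (fun f => f.hom y) h1
        refine Eq.trans ?_ h2.symm
        exact (hy.symm.trans (gc_d A i y).symm)
      change groupCohomology.π A (i + 1)
        (groupCohomology.cocyclesMk x.1 (gc_mk A (i + 1) x.1 x.2)) = 0
      rw [h0]
      have h1 := (groupCohomology.inhomogeneousCochains A).toCycles_comp_homologyπ i (i + 1)
      exact congrArg (fun f => f.hom y) h1
  · intro f x z h
    change (groupCohomology.map (MonoidHom.id G) f i).hom
      (groupCohomology.π A i (groupCohomology.cocyclesMk x.1 (gc_mk A i x.1 x.2))) = _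
    have h1 := groupCohomology.π_map (MonoidHom.id G) f i
    have h2 := congrArg (fun f => f.hom (groupCohomology.cocyclesMk x.1 (gc_mk A i x.1 x.2))) h1
    refine Eq.trans h2 ?_
    change groupCohomology.π A i ((groupCohomology.cocyclesMap (MonoidHom.id G) f i).hom
      (groupCohomology.cocyclesMk x.1 (gc_mk A i x.1 x.2))) = _
    congr 1
    apply gc_ext
    rw [groupCohomology.iCocycles_mk]
    have h3 := HomologicalComplex.cyclesMap_i (groupCohomology.cochainsMap (MonoidHom.id G) f) i
    have h4 := congrArg (fun f => f.hom (groupCohomology.cocyclesMk x.1 (gc_mk A i x.1 x.2))) h3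
    refine Eq.trans h4 ?_
    change (groupCohomology.cochainsMap (MonoidHom.id G) f).f i
      (groupCohomology.iCocycles A i (groupCohomology.cocyclesMk x.1 (gc_mk A i x.1 x.2))) = _
    rw [groupCohomology.iCocycles_mk]
    funext g
    exact (h g).symm
/- END GC -/

end Pool.Agent.BRQ
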