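import Pool.Agent.BRQ.Lv
import Pool.Agent.BRQ.Alg

/-!
# The Hecke operators as elements of the group algebra of `GL_n(A)`
-/

set_option autoImplicit false

noncomputable section

namespace Pool.Agent.BRQ

open Matrix Filter Topology NumberField IsDedekindDomain
open Pool.Agent.BR80
open Pool.Agent.CG2 (Pl Fv Ov)
open Pool.Agent.CGN (GQ GZ Idx HeckeAlg)

variable {F : Type} [Field F] [NumberField F] {n : ℕ} {S : Set (Pl F)} {O W : Type} [CommRing O]
  [AddCommGroup W] [Module O W] [TopologicalSpace W] [IsTopologicalAddGroup W]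
  [ContinuousConstSMul O W]

/-- The Hecke operator attached to `t`. -/
def hk (O : Type) [CommRing O] (t : Idx (F := F) n S) : MonoidAlgebra O (GA F n) :=
  ∑ c ∈ (CGN.cosets_finite t.1.1 t.2).toFinset,
    MonoidAlgebra.single (sgl t.1.1 (Quotient.out c)) (1 : O)

/-- Words in the Hecke operators. -/
abbrev Wd (n : ℕ) (S : Set (Pl F)) (O : Type) [CommRing O] : Type :=
  FreeAlgebra O (Idx (F := F) n S)

/-- The element of the group algebra given by a word. -/
def ev (n : ℕ) (S : Set (Pl F)) (O : Type) [CommRing O] : Wd n S O →ₐ[O] MonoidAlgebra O (GA F n) :=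
  FreeAlgebra.lift O (hk O)

/-- The element of the Hecke algebra given by a word. -/
def toMv (n : ℕ) (S : Set (Pl F)) (O : Type) [CommRing O] : Wd n S O →ₐ[O] HeckeAlg n S O :=
  FreeAlgebra.lift O MvPolynomial.X

@[simp] theorem ev_ι (t : Idx (F := F) n S) : ev n S O (FreeAlgebra.ι O t) = hk O t :=
  FreeAlgebra.lift_ι_apply _ _

@[simp] theorem toMv_ι (t : Idx (F := F) n S) :
    toMv n S O (FreeAlgebra.ι O t) = MvPolynomial.X t :=
  FreeAlgebra.lift_ι_apply _ _

/-- The words in the Hecke operators at the places outside `T`. -/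
def WT (n : ℕ) (S : Set (Pl F)) (O : Type) [CommRing O] (T : Finset (Pl F)) :
    Subalgebra O (Wd n S O) :=
  Algebra.adjoin O (FreeAlgebra.ι O '' {t : Idx (F := F) n S | t.1.1 ∉ T})

/-- The operators which are invertible modulo `m`: given by words in the Hecke operators outside
`T` which are not in `m`. -/
def Good (m : Ideal (HeckeAlg (F := F) n S O)) (T : Finset (Pl F))
    (r : MonoidAlgebra O (GA F n)) : Prop :=
  ∃ w ∈ WT n S O T, ev n S O w = r ∧ toMv n S O w ∉ m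

variable (L : Lvl F n S O W)

/- MODULE H1 -/
/-- The key computation: `k` permutes the cosets. -/
private theorem h1_key (v : Pl F) (hv : v ∉ S) (T : Finset (Pl F)) (hvT : v ∉ T) (k : L.K)
    (hk : ∀ w ∈ T, comp w (k : GA F n) = 1) (c : GQ n v ⧸ GZ n v) :
    ∃ k' : L.K, (∀ w ∈ T, comp w (k' : GA F n) = 1) ∧ L.τ k' = L.τ k ∧
      (k : GA F n) * sgl v (Quotient.out c) =
        sgl v (Quotient.out (comp v (k : GA F n) • c)) * (k' : GA F n) := by
  obtain ⟨a, ha⟩ : ∃ a : GQ n v, a = comp v (k : GA F n) := ⟨_, rfl⟩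
  rw [← ha]
  have haZ : a ∈ GZ n v := ha ▸ L.le v hv _ k.2
  obtain ⟨b, hb⟩ : ∃ b : GQ n v, b = (Quotient.out (a • c))⁻¹ * (a * Quotient.out c) := ⟨_, rfl⟩
  have hbZ : b ∈ GZ n v := by
    rw [hb]
    refine QuotientGroup.eq.1 ?_
    have h3 : ((Quotient.out (a • c) : GQ n v) : GQ n v ⧸ GZ n v) = a • c := Quotient.out_eq' _
    have h4 : ((Quotient.out c : GQ n v) : GQ n v ⧸ GZ n v) = c := Quotient.out_eq' _
    rw [h3]
    conv_lhs => rw [← h4]
    rfl
  have hA : sgl v a ∈ L.K := L.mem v hv a haZ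
  have hB : sgl v b ∈ L.K := L.mem v hv b hbZ
  refine ⟨⟨sgl v b, hB⟩ * (⟨sgl v a, hA⟩⁻¹ * k), ?_, ?_, ?_⟩
  · intro w hw
    have hwv : w ≠ v := fun h => hvT (h ▸ hw)
    have h1 : ((⟨sgl v b, hB⟩ * (⟨sgl v a, hA⟩⁻¹ * k) : L.K) : GA F n) =
        sgl v b * ((sgl v a)⁻¹ * (k : GA F n)) := rfl
    rw [h1, map_mul, map_mul, map_inv, comp_sgl_ne hwv, comp_sgl_ne hwv, hk w hw]
    simp
  · rw [map_mul, map_mul, L.triv v hv b hbZ, one_mul]
    have h1 : (⟨sgl v a, hA⟩⁻¹ : L.K) =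
        ⟨sgl v a⁻¹, L.mem v hv a⁻¹ ((GZ n v).inv_mem haZ)⟩ :=
      Subtype.ext (map_inv (sgl v) a).symm
    rw [h1, L.triv v hv _ ((GZ n v).inv_mem haZ), one_mul]
  · have h1 : ((⟨sgl v b, hB⟩ * (⟨sgl v a, hA⟩⁻¹ * k) : L.K) : GA F n) =
        sgl v b * ((sgl v a)⁻¹ * (k : GA F n)) := rfl
    rw [h1]
    refine ga_ext fun w => ?_
    by_cases hw : w = v
    · subst hw
      simp only [map_mul, map_inv, comp_sgl]
      rw [← ha, hb]
      group
    · simp only [map_mul, map_inv, comp_sgl_ne hw]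
      simp

/-- `sum_mem_St`: an element `k` of `K` permutes the cosets (compare `CGN.heckeSum_mem`). -/
theorem hk_mem_St (T : Finset (Pl F)) (t : Idx (F := F) n S) (ht : t.1.1 ∉ T) :
    (show MonoidAlgebra L.ctx.O L.ctx.GG from hk O t) ∈ St L.ctx (L.KT T) := by
  obtain ⟨⟨v, hv⟩, j⟩ := t
  refine sum_mem_St (c := L.ctx) (H := L.KT T) (CGN.cosets_finite v j).toFinset
    (fun c => sgl v (Quotient.out c)) ?_
  intro k hk
  have haZ : comp v (show GA F n from (k : L.ctx.GG)) ∈ GZ n v := L.le v hv _ k.2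
  refine ⟨fun c => comp v (show GA F n from (k : L.ctx.GG)) • c, ?_, ?_, ?_⟩
  · intro c hc
    rw [Set.Finite.mem_toFinset] at hc ⊢
    exact CGN.smul_mem_cosets hc haZ
  · intro c _ c' _ h
    exact MulAction.injective _ h
  · intro c _
    obtain ⟨k', h1, h2, h3⟩ := h1_key L v hv T ht k hk c
    exact ⟨k', h1, h2, h3⟩

theorem hk_mem_Ce (u : Pl F) (t : Idx (F := F) n S) (ht : t.1.1 ≠ u) :
    (show MonoidAlgebra L.ctx.O L.ctx.GG from hk O t) ∈ Ce L.ctx (L.KV u) := by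
  have h : ∀ c ∈ (CGN.cosets_finite t.1.1 t.2).toFinset,
      (show MonoidAlgebra L.ctx.O L.ctx.GG from
        (MonoidAlgebra.single (sgl t.1.1 (Quotient.out c)) (1 : O) : MonoidAlgebra O (GA F n)))
          ∈ Ce L.ctx (L.KV u) := by
    intro c _
    refine single_mem_Ce (c := L.ctx) (U := L.KV u) (g := sgl t.1.1 (Quotient.out c)) ?_ _
    intro k hk
    refine comm_of_comp (F := F) (n := n) fun w => ?_
    by_cases hw : w = u
    · right
      exact comp_sgl_ne (fun h => ht (h.symm.trans hw)) _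
    · left
      exact hk w hw
  exact Subalgebra.sum_mem (Ce L.ctx (L.KV u)) h

theorem ev_mem_St (T : Finset (Pl F)) (w : Wd n S O) (hw : w ∈ WT n S O T) :
    (show MonoidAlgebra L.ctx.O L.ctx.GG from ev n S O w) ∈ St L.ctx (L.KT T) := by
  refine Algebra.adjoin_induction (p := fun w _ =>
    (show MonoidAlgebra L.ctx.O L.ctx.GG from ev n S O w) ∈ St L.ctx (L.KT T)) ?_ ?_ ?_ ?_ hw
  · rintro _ ⟨t, ht, rfl⟩
    rw [ev_ι]
    exact hk_mem_St L T t ht
  · intro r
    rw [AlgHom.commutes]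
    exact (St L.ctx (L.KT T)).algebraMap_mem (show L.ctx.O from r)
  · intro x y _ _ hx hy
    rw [map_add]
    exact (St L.ctx (L.KT T)).add_mem hx hy
  · intro x y _ _ hx hy
    rw [map_mul]
    exact (St L.ctx (L.KT T)).mul_mem hx hy

theorem ev_mem_Ce (T : Finset (Pl F)) (u : Pl F) (hu : u ∈ T) (w : Wd n S O)
    (hw : w ∈ WT n S O T) :
    (show MonoidAlgebra L.ctx.O L.ctx.GG from ev n S O w) ∈ Ce L.ctx (L.KV u) := by
  refine Algebra.adjoin_induction (p := fun w _ =>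
    (show MonoidAlgebra L.ctx.O L.ctx.GG from ev n S O w) ∈ Ce L.ctx (L.KV u)) ?_ ?_ ?_ ?_ hw
  · rintro _ ⟨t, ht, rfl⟩
    rw [ev_ι]
    exact hk_mem_Ce L u t fun h => ht (h ▸ hu)
  · intro r
    rw [AlgHom.commutes]
    exact (Ce L.ctx (L.KV u)).algebraMap_mem (show L.ctx.O from r)
  · intro x y _ _ hx hy
    rw [map_add]
    exact (Ce L.ctx (L.KV u)).add_mem hx hy
  · intro x y _ _ hx hy
    rw [map_mul]
    exact (Ce L.ctx (L.KV u)).mul_mem hx hy

theorem good_one (m : Ideal (HeckeAlg (F := F) n S O)) [m.IsPrime] (T : Finset (Pl F)) :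
    Good m T 1 := by
  refine ⟨1, (WT n S O T).one_mem, map_one _, ?_⟩
  rw [map_one]
  exact fun h => Ideal.IsPrime.ne_top ‹_› ((Ideal.eq_top_iff_one _).2 h)

theorem good_mul (m : Ideal (HeckeAlg (F := F) n S O)) [m.IsPrime] (T : Finset (Pl F))
    {r r' : MonoidAlgebra O (GA F n)} (h : Good m T r) (h' : Good m T r') :
    Good m T (r * r') := by
  obtain ⟨w, hw, rfl, hm⟩ := h
  obtain ⟨w', hw', rfl, hm'⟩ := h'
  refine ⟨w * w', (WT n S O T).mul_mem hw hw', map_mul _ _ _, ?_⟩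
  rw [map_mul]
  exact fun h => (Ideal.IsPrime.mem_or_mem ‹_› h).elim hm hm'

theorem WT_mono {T T' : Finset (Pl F)} (h : T ⊆ T') : WT n S O T' ≤ WT n S O T := by
  refine Algebra.adjoin_mono (Set.image_mono ?_)
  intro t ht h1
  exact ht (h h1)
/- END H1 -/

/-- The number of cosets. -/
def deg (v : Pl F) (j : Option (Fin n)) : ℕ := (CGN.cosets_finite v j).toFinset.card

/-- The element `diag(π, 1, …, 1)` of `GL_n(F_v)`. -/
def tt (n : ℕ) (v : Pl F) : GQ n v := CGN.dgk n v 1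

/- MODULE H2 -/
private theorem h2_pi (v : Pl F) : ((CG2.pi v : F) : Fv v) ≠ 0 :=
  (map_ne_zero (algebraMap F (Fv v))).2 (CG2.pi_ne v)

/-- The uniformiser as a unit. -/
private def h2_P (v : Pl F) : (Fv v)ˣ := Units.mk0 ((CG2.pi v : F) : Fv v) (h2_pi v)

private theorem h2_dgk (v : Pl F) {k : ℕ} (hk : k ≤ n) :
    GeneralLinearGroup.det (CGN.dgk n v k) = h2_P v ^ k := by
  apply Units.ext
  have h1 : ((GeneralLinearGroup.det (CGN.dgk n v k) : (Fv v)ˣ) : Fv v) =
      (CGN.dgk n v k : Matrix (Fin n) (Fin n) (Fv v)).det := rfl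
  rw [h1, CGN.dgk_val, Matrix.det_diagonal,
    Fin.prod_univ_eq_prod_range (fun i => if i < k then ((CG2.pi v : F) : Fv v) else 1) n,
    Finset.prod_ite, Finset.prod_const_one, mul_one, Finset.prod_const]
  have h2 : Finset.filter (fun i => i < k) (Finset.range n) = Finset.range k := by
    ext i
    rw [Finset.mem_filter, Finset.mem_range, Finset.mem_range]
    exact ⟨fun h => h.2, fun h => ⟨lt_of_lt_of_le h hk, h⟩⟩
  rw [h2, Finset.card_range, Units.val_pow_eq_pow_val]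
  rfl

private theorem h2_alpha (v : Pl F) (j : Option (Fin n)) :
    GeneralLinearGroup.det (CGN.alpha v j) = h2_P v ^ ex n j := by
  rcases j with _ | j
  · have h1 : CGN.alpha v (none : Option (Fin n)) = (CGN.dgk n v n)⁻¹ := rfl
    have h2 : ex n (none : Option (Fin n)) = -(n : ℤ) := rfl
    rw [h1, h2, map_inv, h2_dgk v le_rfl, _root_.zpow_neg, zpow_natCast]
  · have h1 : CGN.alpha v (some j) = CGN.dgk n v (j + 1) := rfl
    have h2 : ex n (some j) = (((j : ℕ) + 1 : ℕ) : ℤ) := by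
      change (j : ℤ) + 1 = _
      push_cast
      rfl
    rw [h1, h2, h2_dgk v j.2, zpow_natCast]

private theorem h2_unit {R : Type} [CommRing R] (hn : 1 ≤ n) (u : Rˣ) :
    ∃ g : GL (Fin n) R, GeneralLinearGroup.det g = u := by
  have h1 : (Matrix.diagonal (Function.update (fun _ : Fin n => (1 : R)) ⟨0, hn⟩ (u : R))).det =
      (u : R) := by
    rw [Matrix.det_diagonal, Finset.prod_update_of_mem (Finset.mem_univ _)]
    simp
  refine ⟨GeneralLinearGroup.mk'' _ (h1 ▸ u.isUnit), ?_⟩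
  apply Units.ext
  exact h1

private theorem h2_card {v : Pl F} {j : Option (Fin n)}
    (h : ∀ k : GQ n v, k * CGN.alpha v j = CGN.alpha v j * k) : deg v j = 1 := by
  refine Finset.card_eq_one.2 ⟨((CGN.alpha v j : GQ n v) : GQ n v ⧸ GZ n v), ?_⟩
  ext c
  rw [Set.Finite.mem_toFinset, Finset.mem_singleton]
  constructor
  · rintro ⟨k, hk, rfl⟩
    rw [h k]
    refine (QuotientGroup.eq.2 ?_).symm
    rw [inv_mul_cancel_left]
    exact hk
  · rintro rfl
    exact ⟨1, (GZ n v).one_mem, by rw [one_mul]⟩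

private theorem h2_dgk_n (v : Pl F) (k : GQ n v) :
    k * CGN.dgk n v n = CGN.dgk n v n * k := by
  apply Units.ext
  rw [Units.val_mul, Units.val_mul, CGN.dgk_val]
  have h1 : (Matrix.diagonal fun i : Fin n =>
      if (i : ℕ) < n then ((CG2.pi v : F) : Fv v) else 1) =
      Matrix.scalar (Fin n) ((CG2.pi v : F) : Fv v) := by
    rw [Matrix.scalar_apply]
    congr 1
    funext i
    rw [if_pos i.2]
  rw [h1]
  exact ((Matrix.scalar_commute _ (fun r => Commute.all _ r) _).eq).symm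

/-- An element `h` of the double coset of `alpha v j` is `s t^(ex j) k` with `det s = 1`, `k` in
`GL_n(O_v)`: the determinant of `h` is a unit of `O_v` times `π^(ex j)`. -/
theorem out_eq (hn : 1 ≤ n) (v : Pl F) (j : Option (Fin n)) (c : GQ n v ⧸ GZ n v)
    (hc : c ∈ CGN.cosets v j) :
    ∃ s : GQ n v, (s : Matrix (Fin n) (Fin n) (Fv v)).det = 1 ∧ ∃ k ∈ GZ n v,
      Quotient.out c = s * tt n v ^ ex n j * k := by
  obtain ⟨k₁, hk₁, rfl⟩ := hc
  obtain ⟨h, hh⟩ : ∃ h : GQ n v,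
      h = Quotient.out ((k₁ * CGN.alpha v j : GQ n v) : GQ n v ⧸ GZ n v) := ⟨_, rfl⟩
  have hq : (h : GQ n v ⧸ GZ n v) = ((k₁ * CGN.alpha v j : GQ n v) : GQ n v ⧸ GZ n v) := by
    rw [hh]
    exact Quotient.out_eq' _
  have hk₂ : (k₁ * CGN.alpha v j)⁻¹ * h ∈ GZ n v := QuotientGroup.eq.1 hq.symm
  obtain ⟨u₁, hu₁⟩ := hk₁
  obtain ⟨u₂, hu₂⟩ := hk₂
  obtain ⟨g, hg⟩ := h2_unit (n := n) hn (GeneralLinearGroup.det u₁ * GeneralLinearGroup.det u₂)
  have hd : GeneralLinearGroup.det h =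
      GeneralLinearGroup.det (GeneralLinearGroup.map (n := Fin n) (algebraMap (Ov v) (Fv v)) g) *
        h2_P v ^ ex n j := by
    have h1 : h = k₁ * CGN.alpha v j * ((k₁ * CGN.alpha v j)⁻¹ * h) := by group
    have h3 : ∀ x : GL (Fin n) (Ov v), GeneralLinearGroup.det
        (GeneralLinearGroup.map (n := Fin n) (algebraMap (Ov v) (Fv v)) x) =
          Units.map (algebraMap (Ov v) (Fv v) : Ov v →* Fv v) (GeneralLinearGroup.det x) := by
      intro x
      apply Units.ext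
      exact ((algebraMap (Ov v) (Fv v)).map_det (x : Matrix (Fin n) (Fin n) (Ov v))).symm
    rw [h1, ← hu₂, map_mul, map_mul, ← hu₁, h2_alpha, h3, h3, h3, hg, map_mul]
    rw [mul_right_comm]
  have ht : GeneralLinearGroup.det (tt n v) = h2_P v := by
    rw [tt, h2_dgk v hn, pow_one]
  refine ⟨h * (GeneralLinearGroup.map (n := Fin n) (algebraMap (Ov v) (Fv v)) g)⁻¹ *
    (tt n v ^ ex n j)⁻¹, ?_, _, ⟨g, rfl⟩, ?_⟩
  · have h1 : GeneralLinearGroup.det (h *
        (GeneralLinearGroup.map (n := Fin n) (algebraMap (Ov v) (Fv v)) g)⁻¹ *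
          (tt n v ^ ex n j)⁻¹) = 1 := by
      rw [map_mul, map_mul, hd, map_inv, map_inv, map_zpow, ht, mul_inv_cancel_comm,
        mul_inv_cancel]
    exact congrArg Units.val h1
  · rw [← hh, inv_mul_cancel_right, inv_mul_cancel_right]

theorem deg_none (v : Pl F) : deg v (none : Option (Fin n)) = 1 := by
  apply h2_card
  intro k
  have h1 : CGN.alpha v (none : Option (Fin n)) = (CGN.dgk n v n)⁻¹ := rfl
  rw [h1, mul_inv_eq_iff_eq_mul, mul_assoc, h2_dgk_n v k, inv_mul_cancel_left]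

theorem deg_last (v : Pl F) (j : Fin n) (hj : (j : ℕ) + 1 = n) : deg v (some j) = 1 := by
  apply h2_card
  intro k
  have h1 : CGN.alpha v (some j) = CGN.dgk n v n := by
    change CGN.dgk n v (j + 1) = _
    rw [hj]
  rw [h1, h2_dgk_n v k]
/- END H2 -/

end Pool.Agent.BRQ
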