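import Pool.Agent.BRQ.Sy
import Pool.Agent.CG2.LevelOC

/-!
# The levels of the main theorem
-/

set_option autoImplicit false

noncomputable section

namespace Pool.Agent.BRQ

open Matrix NumberField IsDedekindDomain
open Pool.Agent.CG2 (Pl Fv Ov Pr Above ab exists_above above_unique LevelOC_fin
  LevelOC_finite LevelOC_pr LevelOC_pr_spec)
open Pool.Agent.CGN (GQ GZ Idx HeckeAlg Chart Unram UnramOff)

variable {F : Type} [Field F] [NumberField F] {n : ℕ}

/-- The group `GL_n(F ⊗ ℚ_ℓ)`. -/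
abbrev GLl (F : Type) [Field F] [NumberField F] (n : ℕ) (ℓ : Pr) : Type :=
  ∀ v : {v : Pl F // Above (ℓ : ℕ) v}, GQ n v.1

/-- A level. -/
structure LevG (F : Type) [Field F] [NumberField F] (n : ℕ) (p : Pr) (S : Finset Pr) where
  /-- the local groups -/
  K : ∀ ℓ : Pr, Subgroup (GLl F n ℓ)
  isOpen : ∀ ℓ, IsOpen (K ℓ : Set (GLl F n ℓ))
  off : ∀ ℓ, ℓ ∉ S → ∀ g : GLl F n ℓ, g ∈ K ℓ ↔ ∀ v, g v ∈ GZ n v.1
  mem : p ∈ S

variable {p : Pr} {S : Finset Pr}

/-- The component at the rational prime `ℓ`. -/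
def atG (g : (sysG F n).A) (ℓ : Pr) : GLl F n ℓ := fun v => g.1 v.1

/-- The group `K_f`. -/
def LevG.Kf (L : LevG F n p S) : Subgroup (sysG F n).A where
  carrier := {k | ∀ ℓ, atG k ℓ ∈ L.K ℓ}
  mul_mem' ha hb ℓ := (L.K ℓ).mul_mem (ha ℓ) (hb ℓ)
  one_mem' ℓ := (L.K ℓ).one_mem
  inv_mem' ha ℓ := (L.K ℓ).inv_mem (ha ℓ)

/-- The group `K_p`. -/
abbrev LevG.Kp (L : LevG F n p S) : Type := L.K p

/-- The projection from `K_f` to `K_p`. -/
def LevG.toKp (L : LevG F n p S) : L.Kf →* L.Kp where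
  toFun k := ⟨atG k.1 p, k.2 p⟩
  map_one' := rfl
  map_mul' _ _ := rfl

variable {O : Type} [CommRing O] {W : Type} [AddCommGroup W] [Module O W]

/-- The `K_f`-module given by a `K_p`-module. -/
def LevG.rep (L : LevG F n p S) (σ : Representation O L.Kp W) : Representation O L.Kf W :=
  σ.comp L.toKp

theorem atG_single_ne {v : Pl F} {ℓ : Pr} (h : ¬ Above (ℓ : ℕ) v) (k : GQ n v) :
    atG (n := n) (CGQ.single (𝒟 := sysG F n) v k) ℓ = 1 := by
  funext w
  have h1 : w.1 ≠ v := by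
    intro h'
    apply h
    rw [← h']
    exact w.2
  exact CGQ.single_ne (𝒟 := sysG F n) h1 k

theorem LevG.unram (L : LevG F n p S) (σ : Representation O L.Kp W) :
    UnramOff L.Kf (L.rep σ) (chG F n (ab F S)) := by
  rintro ⟨v, hv⟩
  have hmem : ∀ k : (sysG F n).L v, (chG F n (ab F S)).e ⟨v, hv⟩ k ∈ GZ n v →
      CGQ.single v k ∈ L.Kf := by
    intro k hk ℓ
    by_cases h : Above (ℓ : ℕ) v
    · have hℓ : ℓ ∉ S := fun h' => hv ⟨ℓ, h', h⟩
      rw [L.off ℓ hℓ]
      intro w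
      change (CGQ.single (𝒟 := sysG F n) v k).1 w.1 ∈ GZ n w.1
      by_cases hw : w.1 = v
      · obtain ⟨w, hw'⟩ := w
        simp only at hw
        subst hw
        rw [CGQ.single_same]
        exact hk
      · rw [CGQ.single_ne hw]
        exact (GZ n w.1).one_mem
    · have h1 : atG (CGQ.single (𝒟 := sysG F n) v k) ℓ = 1 := atG_single_ne h k
      rw [h1]
      exact (L.K ℓ).one_mem
  refine ⟨⟨?_, hmem⟩, ?_⟩
  · intro k hk
    obtain ⟨ℓ, hℓ⟩ := exists_above v
    have h1 : ℓ ∉ S := fun h' => hv ⟨ℓ, h', hℓ⟩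
    exact (L.off ℓ h1 _).1 (hk ℓ) ⟨v, hℓ⟩
  · intro k hk
    have h0 : ¬ Above (p : ℕ) v := fun h => hv ⟨p, L.mem, h⟩
    have h1 : L.toKp ⟨CGQ.single v k, hmem k hk⟩ = 1 := Subtype.ext (atG_single_ne h0 k)
    change σ (L.toKp _) = 1
    rw [h1, map_one]

/-- The action of `K_p` on `W` is continuous for the `𝔪`-adic topology of `W`. -/
def IsContG [IsLocalRing O] (L : LevG F n p S) (σ : Representation O L.Kp W) : Prop :=
  ∀ m : ℕ, ∃ U : Set (GLl F n p), IsOpen U ∧ 1 ∈ U ∧ ∀ k : L.Kp, (k : GLl F n p) ∈ U →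
    ∀ w : W, σ k w - w ∈ (IsLocalRing.maximalIdeal O ^ m • ⊤ : Submodule O W)

open Classical in
/-- The local component of a subgroup. -/
def cpU (ℓ : Pr) (H : Subgroup (GLl F n ℓ)) (v : {v : Pl F // Above (ℓ : ℕ) v}) :
    Subgroup (GQ n v.1) :=
  H.comap (MonoidHom.mulSingle (fun w : {v : Pl F // Above (ℓ : ℕ) v} => GQ n w.1) v)

theorem cpU_open (ℓ : Pr) (H : Subgroup (GLl F n ℓ)) (hH : IsOpen (H : Set (GLl F n ℓ)))
    (v : {v : Pl F // Above (ℓ : ℕ) v}) : IsOpen (cpU ℓ H v : Set (GQ n v.1)) := by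
  classical
  exact hH.preimage (continuous_mulSingle v)

theorem cpU_mem (ℓ : Pr) (H : Subgroup (GLl F n ℓ)) (g : GLl F n ℓ)
    (hg : ∀ v, g v ∈ cpU ℓ H v) : g ∈ H := by
  classical
  exact Subgroup.pi_mem_of_mulSingle_mem g fun v => hg v

theorem LevG.op (L : LevG F n p S) : ∃ U : ∀ v : Pl F, Subgroup ((sysG F n).L v),
    (∀ v, IsOpen (U v : Set ((sysG F n).L v))) ∧ {v | ¬ (sysG F n).B v ≤ U v}.Finite ∧
      ∀ k : (sysG F n).A, (∀ v, k.1 v ∈ U v) → k ∈ L.Kf := by
  classical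
  refine ⟨fun v => cpU (LevelOC_pr v) (L.K _) ⟨v, LevelOC_pr_spec v⟩,
    fun v => cpU_open _ _ (L.isOpen _) _, ?_, ?_⟩
  · have hfin : {v : Pl F | LevelOC_pr v ∈ S}.Finite := by
      refine (Set.Finite.biUnion (t := fun ℓ : Pr => {v : Pl F | Above (ℓ : ℕ) v})
        S.finite_toSet fun ℓ _ => LevelOC_fin ℓ).subset ?_
      intro v hv
      simp only [Set.mem_iUnion, exists_prop]
      exact ⟨LevelOC_pr v, hv, LevelOC_pr_spec v⟩
    refine hfin.subset ?_
    intro v hv
    by_contra hS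
    apply hv
    intro k hk
    change Pi.mulSingle (M := fun w : {w : Pl F // Above (LevelOC_pr v : ℕ) w} => GQ n w.1)
      ⟨v, LevelOC_pr_spec v⟩ k ∈ L.K (LevelOC_pr v)
    rw [L.off _ hS]
    intro w
    by_cases hw : w = ⟨v, LevelOC_pr_spec v⟩
    · subst hw
      rw [Pi.mulSingle_eq_same]
      exact hk
    · rw [Pi.mulSingle_eq_of_ne hw]
      exact (GZ n w.1).one_mem
  · intro k hk ℓ
    apply cpU_mem
    rintro ⟨v, hv⟩
    have h1 : LevelOC_pr v = ℓ := above_unique (LevelOC_pr_spec v) hv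
    subst h1
    exact hk v

/-- The subgroup acting trivially modulo a submodule. -/
def trvG (L : LevG F n p S) (σ : Representation O L.Kp W) (I : Ideal O) :
    Subgroup L.Kp where
  carrier := {k | ∀ w : W, σ k w - w ∈ (I • ⊤ : Submodule O W)}
  one_mem' w := by
    rw [map_one]
    simp
  mul_mem' := by
    intro a b ha hb w
    have h1 : σ (a * b) w - w = σ a (σ b w - w) + (σ a w - w) := by
      rw [map_mul, Module.End.mul_apply, map_sub]; abel
    rw [h1]
    refine add_mem ?_ (ha w)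
    have h2 : (I • ⊤ : Submodule O W) ≤ (I • ⊤ : Submodule O W).comap (σ a) := by
      rw [Submodule.smul_le]
      intro r hr n _
      rw [Submodule.mem_comap, map_smul]
      exact Submodule.smul_mem_smul hr trivial
    exact h2 (hb w)
  inv_mem' := by
    intro a ha w
    have h2 : (I • ⊤ : Submodule O W) ≤ (I • ⊤ : Submodule O W).comap (σ a⁻¹) := by
      rw [Submodule.smul_le]
      intro r hr n _
      rw [Submodule.mem_comap, map_smul]
      exact Submodule.smul_mem_smul hr trivial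
    have h3 := h2 (ha w)
    rw [Submodule.mem_comap, map_sub, ← Module.End.mul_apply, ← map_mul, inv_mul_cancel, map_one,
      Module.End.one_apply] at h3
    rw [← neg_mem_iff, neg_sub]
    exact h3

theorem LevG.cont [IsLocalRing O] (L : LevG F n p S) (σ : Representation O L.Kp W)
    (hσ : IsContG L σ) : CGN.Cont L.Kf (L.rep σ) (chG F n (ab F S)) := by
  classical
  intro m
  obtain ⟨N, hN, hN1, hNσ⟩ := hσ m
  set I := IsLocalRing.maximalIdeal O ^ m with hI
  let H : Subgroup (GLl F n p) := (trvG L σ I).map (L.K p).subtype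
  have hH : IsOpen (H : Set (GLl F n p)) := by
    apply Subgroup.isOpen_of_mem_nhds (g := 1)
    refine Filter.mem_of_superset ((hN.inter (L.isOpen p)).mem_nhds ⟨hN1, (L.K p).one_mem⟩) ?_
    rintro g ⟨hg1, hg2⟩
    exact ⟨⟨g, hg2⟩, hNσ ⟨g, hg2⟩ hg1, rfl⟩
  refine ⟨fun v => if h : Above (p : ℕ) v then cpU p H ⟨v, h⟩ else ⊤, ?_, ?_, ?_, ?_⟩
  · intro v
    by_cases h : Above (p : ℕ) v
    · simp only [dif_pos h]
      exact cpU_open _ _ hH _
    · simp only [dif_neg h]
      exact isOpen_univ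
  · refine (LevelOC_fin p).subset ?_
    intro v hv
    by_contra h
    apply hv
    have h' : ¬ Above (p : ℕ) v := h
    simp only [dif_neg h']
    exact le_top
  · rintro ⟨v, hv⟩ k -
    have h : ¬ Above (p : ℕ) v := fun h => hv ⟨p, L.mem, h⟩
    simp only [dif_neg h]
    trivial
  · intro k hk
    have h1 : atG k.1 p ∈ H := by
      apply cpU_mem
      rintro ⟨v, hv⟩
      have := hk v
      simp only [dif_pos hv] at this
      exact this
    obtain ⟨g, hg, hgk⟩ := h1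
    intro w
    have h2 : L.toKp k = g := Subtype.ext hgk.symm
    change σ (L.toKp k) w - w ∈ _
    rw [h2]
    exact hg w

end Pool.Agent.BRQ
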