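import Pool.Agent.BRQ.Ad

/-!
# `SL_n` over a field is perfect; the subgroups of `GL_n(A)` used in the descent
-/

set_option autoImplicit false

noncomputable section

namespace Pool.Agent.BRQ

open Matrix Filter Topology NumberField IsDedekindDomain
open Pool.Agent.CG2 (Pl Fv Ov)
open Pool.Agent.CGN (GQ GZ)
open Pool.Agent.BR80 (elt)

/- MODULE SL1 -/
/-- `SL_n(F_v)` is generated by transvections (`BRW.Glob.gen` for the constant map with value the
element of `SL_n(A)` with component `s` at `v`). -/
theorem sl_gen {F : Type} [Field F] [NumberField F] {n : ℕ} (v : Pl F)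
    (s : SpecialLinearGroup (Fin n) (Fv v)) :
    s ∈ Subgroup.closure {e : SpecialLinearGroup (Fin n) (Fv v) |
      ∃ (i j : Fin n) (h : i ≠ j) (x : Fv v), e = elt i j h x} := by

  -- the element of `SL_n(A)` with component `s` at `v`
  have hd : ((sgl v (SpecialLinearGroup.toGL s) : GA F n) : Matrix (Fin n) (Fin n) (AA F)).det = 1 := by
    refine DFunLike.ext _ _ fun w => ?_
    have h1 : prj w ((sgl v (SpecialLinearGroup.toGL s) : GA F n) :
        Matrix (Fin n) (Fin n) (AA F)).det =
        ((comp w (sgl v (SpecialLinearGroup.toGL s)) : GQ n w) :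
          Matrix (Fin n) (Fin n) (Fv w)).det := RingHom.map_det _ _
    refine h1.trans ?_
    by_cases hw : w = v
    · subst hw
      rw [comp_sgl]
      exact s.2
    · rw [comp_sgl_ne hw]
      exact Matrix.det_one
  let t : BR80.SL n (AA F) := ⟨_, hd⟩
  have ht : SpecialLinearGroup.map (prj v) t = s := by
    refine Subtype.ext ?_
    have h1 := congrArg (fun x : GQ n v => (x : Matrix (Fin n) (Fin n) (Fv v)))
      (comp_sgl v (SpecialLinearGroup.toGL s))
    exact h1
  let a : C(Unit, BR80.SL n (AA F)) := ⟨fun _ => t, continuous_const⟩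
  have hg := BRW.Glob.gen (G := BRW.globNF F) n Unit a
  unfold BRW.EG at hg
  have key : ∀ b : C(Unit, BR80.SL n (AA F)), b ∈ Subgroup.closure
      {e : C(Unit, BR80.SL n (AA F)) | ∃ (i j : Fin n) (h : i ≠ j) (c : C(Unit, AA F)),
        ∀ z, e z = elt i j h (c z)} →
      SpecialLinearGroup.map (prj v) (b ()) ∈
        Subgroup.closure {e : SpecialLinearGroup (Fin n) (Fv v) |
          ∃ (i j : Fin n) (h : i ≠ j) (x : Fv v), e = elt i j h x} := by
    intro b hb
    induction hb using Subgroup.closure_induction with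
    | mem e he =>
      obtain ⟨i, j, h, c, hc⟩ := he
      refine Subgroup.subset_closure ⟨i, j, h, prj v (c ()), ?_⟩
      rw [hc]
      refine Subtype.ext ?_
      change (prj v).mapMatrix (Matrix.transvection i j (c ())) = Matrix.transvection i j (prj v (c ()))
      unfold Matrix.transvection
      rw [map_add, map_one]
      congr 1
      exact Matrix.map_single _ _ _ (prj v)
    | one =>
      change SpecialLinearGroup.map (prj v) 1 ∈ _
      rw [map_one]
      exact Subgroup.one_mem _
    | mul x y _ _ hx hy =>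
      change SpecialLinearGroup.map (prj v) (x () * y ()) ∈ _
      rw [map_mul]
      exact Subgroup.mul_mem _ hx hy
    | inv x _ hx =>
      change SpecialLinearGroup.map (prj v) (x ())⁻¹ ∈ _
      rw [map_inv]
      exact Subgroup.inv_mem _ hx
  have h2 := key a hg
  change SpecialLinearGroup.map (prj v) t ∈ _ at h2
  rwa [ht] at h2

/-- Over an infinite field transvections are commutators. -/
theorem elt_mem_commutator {k : Type} [Field k] [Infinite k] {n : ℕ} (i j : Fin n)
    (h : i ≠ j) (x : k) : elt i j h x ∈ commutator (SpecialLinearGroup (Fin n) k) := by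

  classical
  obtain ⟨a, ha⟩ := Infinite.exists_notMem_finset ({0, 1, -1} : Finset k)
  simp only [Finset.mem_insert, Finset.mem_singleton, not_or] at ha
  obtain ⟨ha0, ha1, ha2⟩ := ha
  have ha3 : a ^ 2 - 1 ≠ 0 := by
    intro h0
    have h1 : (a - 1) * (a + 1) = 0 := by
      rw [← h0]
      ring
    rcases mul_eq_zero.1 h1 with h2 | h2
    · exact ha1 (sub_eq_zero.1 h2)
    · exact ha2 (eq_neg_of_add_eq_zero_left h2)
  let dd : Fin n → k := fun l => if l = i then a else if l = j then a⁻¹ else 1
  have hdi : dd i = a := if_pos rfl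
  have hdj : dd j = a⁻¹ := by
    change (if j = i then a else if j = j then a⁻¹ else 1) = a⁻¹
    rw [if_neg h.symm, if_pos rfl]
  have hdet : (Matrix.diagonal dd).det = 1 := by
    rw [Matrix.det_diagonal, ← Finset.mul_prod_erase Finset.univ dd (Finset.mem_univ i),
      ← Finset.mul_prod_erase (Finset.univ.erase i) dd
        (Finset.mem_erase.2 ⟨h.symm, Finset.mem_univ j⟩), hdi, hdj, ← mul_assoc,
      mul_inv_cancel₀ ha0, one_mul]
    refine Finset.prod_eq_one fun l hl => ?_
    rw [Finset.mem_erase, Finset.mem_erase] at hl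
    change (if l = i then a else if l = j then a⁻¹ else 1) = 1
    rw [if_neg hl.2.1, if_neg hl.1]
  let d : SpecialLinearGroup (Fin n) k := ⟨Matrix.diagonal dd, hdet⟩
  let y : k := x / (a ^ 2 - 1)
  have hxy : x + y = a * y * a := by
    have : x = (a ^ 2 - 1) * y := by
      change x = (a ^ 2 - 1) * (x / (a ^ 2 - 1))
      rw [mul_div_cancel₀ _ ha3]
    rw [this]
    ring
  have h1 : elt i j h x * elt i j h y = elt i j h (x + y) :=
    Subtype.ext (Matrix.transvection_mul_transvection_same i j h x y)
  have h2 : d * elt i j h y = elt i j h (x + y) * d := by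
    refine Subtype.ext ?_
    change Matrix.diagonal dd * Matrix.transvection i j y =
      Matrix.transvection i j (x + y) * Matrix.diagonal dd
    unfold Matrix.transvection
    rw [mul_add, add_mul, mul_one, one_mul]
    congr 1
    ext p q
    rw [Matrix.diagonal_mul, Matrix.mul_diagonal, Matrix.single_apply, Matrix.single_apply]
    split_ifs with hpq
    · obtain ⟨rfl, rfl⟩ := hpq
      rw [hdi, hdj, hxy]
      field_simp
    · rw [mul_zero, zero_mul]
  have h3 : d * elt i j h y * d⁻¹ * (elt i j h y)⁻¹ = elt i j h x := by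
    rw [h2, ← h1]
    group
  rw [← h3, commutator_def]
  exact Subgroup.commutator_mem_commutator (g₁ := d)
    (g₂ := (show SpecialLinearGroup (Fin n) k from elt i j h y)) (Subgroup.mem_top _)
    (Subgroup.mem_top _)

theorem sl_perfect {F : Type} [Field F] [NumberField F] {n : ℕ} (v : Pl F) :
    commutator (SpecialLinearGroup (Fin n) (Fv v)) = ⊤ := by

  have hF : Infinite F := inferInstance
  have hI : Infinite (Fv v) := Infinite.of_injective _ (algebraMap F (Fv v)).injective
  refine eq_top_iff.2 fun s _ => ?_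
  refine (Subgroup.closure_le _).2 ?_ (sl_gen v s)
  rintro e ⟨i, j, h, x, rfl⟩
  exact elt_mem_commutator i j h x
/- END SL1 -/

variable {F : Type} [Field F] [NumberField F]

/-- The subgroup `SL_n(F_v)` of `GL_n(A)`. -/
def PP (n : ℕ) (v : Pl F) : Subgroup (GA F n) :=
  ((sgl (n := n) v).comp (SpecialLinearGroup.toGL (n := Fin n) (R := Fv v))).range

/- MODULE SL2 -/
theorem PP_perfect (n : ℕ) (v : Pl F) : commutator (PP n v) = ⊤ := by

  let f := ((sgl (n := n) v).comp (SpecialLinearGroup.toGL (n := Fin n) (R := Fv v)))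
  change commutator f.range = ⊤
  have h1 : Subgroup.map f.rangeRestrict ⊤ = ⊤ :=
    Subgroup.map_top_of_surjective _ f.rangeRestrict_surjective
  rw [commutator_def, ← h1, ← Subgroup.map_commutator]
  have h2 := sl_perfect (n := n) v
  rw [commutator_def] at h2
  rw [h2]

theorem mem_PP {n : ℕ} {v : Pl F} {h : GQ n v} (hd : (h : Matrix (Fin n) (Fin n) (Fv v)).det = 1) :
    sgl v h ∈ PP n v := by

  exact ⟨⟨_, hd⟩, congrArg (sgl v) (Units.ext rfl)⟩

theorem det_PP {n : ℕ} {v : Pl F} {p : GA F n} (hp : p ∈ PP n v) :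
    (p : Matrix (Fin n) (Fin n) (AA F)).det = 1 := by

  obtain ⟨s, rfl⟩ := hp
  refine DFunLike.ext _ _ fun w => ?_
  have h1 : prj w ((sgl v (SpecialLinearGroup.toGL s) : GA F n) :
      Matrix (Fin n) (Fin n) (AA F)).det =
      ((comp w (sgl v (SpecialLinearGroup.toGL s)) : GQ n w) :
        Matrix (Fin n) (Fin n) (Fv w)).det := RingHom.map_det _ _
  refine h1.trans ?_
  by_cases hw : w = v
  · subst hw
    rw [comp_sgl]
    exact s.2
  · rw [comp_sgl_ne hw]
    exact Matrix.det_one

theorem comp_PP {n : ℕ} {v w : Pl F} (hw : w ≠ v) {p : GA F n} (hp : p ∈ PP n v) :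
    comp w p = 1 := by

  obtain ⟨s, rfl⟩ := hp
  exact comp_sgl_ne hw _

/-- Elements with disjoint supports commute. -/
theorem comm_of_comp {n : ℕ} {g h : GA F n} (H : ∀ v, comp v g = 1 ∨ comp v h = 1) :
    g * h = h * g := by

  refine ga_ext fun v => ?_
  rw [map_mul, map_mul]
  rcases H v with h1 | h1
  · rw [h1, one_mul, mul_one]
  · rw [h1, one_mul, mul_one]
/- END SL2 -/

end Pool.Agent.BRQ
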