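import Pool.Agent.BRQ.Rz2
import Pool.Agent.BRQ.Sln

/-!
# The situation for `GL_n` over a number field
-/

set_option autoImplicit false

noncomputable section

namespace Pool.Agent.BRQ

open Matrix Filter Topology NumberField IsDedekindDomain
open Pool.Agent.BR80
open Pool.Agent.CG2 (Pl Fv Ov)
open Pool.Agent.CGN (GQ GZ)

/- MODULE KA -/
/-- The continuous component: `κ x = β (y⁻¹ x)`, `y` the representative of `x K`. -/
theorem exists_kappa (c : Ctx) (β : c.GG →* c.GG) (hβ : Continuous β) (hK : ∀ k ∈ c.K, β k ∈ c.K)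
    (hβ2 : ∀ g, β (β g) = β g) : ∃ κ : C(c.GG, c.K), (∀ x, β (κ x : c.GG) = (κ x : c.GG)) ∧
      ∀ x, ∀ k ∈ c.K, (κ (x * k) : c.GG) = (κ x : c.GG) * β k := by
  classical
  let y : c.GG → c.GG := fun x => Quotient.out (QuotientGroup.mk x : c.GG ⧸ c.K)
  have hy : ∀ x, (y x)⁻¹ * x ∈ c.K := fun x =>
    QuotientGroup.eq.1 (QuotientGroup.out_eq' (QuotientGroup.mk x : c.GG ⧸ c.K))
  have hyk : ∀ x, ∀ k ∈ c.K, y (x * k) = y x := fun x k hk => by
    have h : (QuotientGroup.mk (x * k) : c.GG ⧸ c.K) = QuotientGroup.mk x :=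
      QuotientGroup.mk_mul_of_mem x hk
    simp only [y, h]
  have hc : Continuous fun x : c.GG => (⟨β ((y x)⁻¹ * x), hK _ (hy x)⟩ : c.K) := by
    refine Topology.IsInducing.subtypeVal.continuous_iff.2 ?_
    refine continuous_iff_continuousAt.2 fun x₀ => ?_
    have h1 : ContinuousAt (fun x : c.GG => β ((y x₀)⁻¹ * x)) x₀ :=
      (hβ.comp (continuous_const.mul continuous_id)).continuousAt
    refine h1.congr ?_
    have h2 : {x : c.GG | x₀⁻¹ * x ∈ c.K} ∈ nhds x₀ := by
      have h3 : IsOpen {x : c.GG | x₀⁻¹ * x ∈ c.K} :=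
        c.openK.preimage (continuous_const.mul continuous_id)
      refine h3.mem_nhds ?_
      change x₀⁻¹ * x₀ ∈ c.K
      rw [inv_mul_cancel]
      exact c.K.one_mem
    filter_upwards [h2] with x hx
    have h4 : y x = y x₀ := by
      have h5 := hyk x₀ _ hx
      rwa [mul_inv_cancel_left] at h5
    change β ((y x₀)⁻¹ * x) = β ((y x)⁻¹ * x)
    rw [h4]
  refine ⟨⟨_, hc⟩, fun x => hβ2 _, fun x k hk => ?_⟩
  change β ((y (x * k))⁻¹ * (x * k)) = β ((y x)⁻¹ * x) * β k
  rw [hyk x k hk, ← mul_assoc, map_mul]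
/- END KA -/

variable {F : Type} [Field F] [NumberField F]

/-- A level `K` (an open subgroup of `GL_n(A)`, hyperspecial outside `S`) and coefficients `W`,
unramified outside `S`. -/
structure Lvl (F : Type) [Field F] [NumberField F] (n : ℕ) (S : Set (Pl F)) (O W : Type)
    [CommRing O] [AddCommGroup W] [Module O W] [TopologicalSpace W] [IsTopologicalAddGroup W]
    [ContinuousConstSMul O W] where
  /-- the level -/
  K : Subgroup (GA F n)
  openK : IsOpen (K : Set (GA F n))
  /-- the action on the coefficients -/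
  τ : Representation O K W
  contτ : Continuous fun q : K × W => τ q.1 q.2
  le : ∀ v, v ∉ S → ∀ k ∈ K, comp v k ∈ GZ n v
  mem : ∀ v, v ∉ S → ∀ k ∈ GZ n v, sgl v k ∈ K
  triv : ∀ v (hv : v ∉ S) (k : GQ n v) (hk : k ∈ GZ n v), τ ⟨sgl v k, mem v hv k hk⟩ = 1

variable {n : ℕ} {S : Set (Pl F)} {O W : Type} [CommRing O] [AddCommGroup W] [Module O W]
  [TopologicalSpace W] [IsTopologicalAddGroup W] [ContinuousConstSMul O W]

/-- The situation as a `Ctx`. -/
def Lvl.ctx (L : Lvl F n S O W) : Ctx where
  Γ := GL (Fin n) F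
  Γ₁ := (GeneralLinearGroup.det : GL (Fin n) F →* Fˣ).ker
  GG := GA F n
  ι := GeneralLinearGroup.map (n := Fin n) (emA : F →+* AA F)
  O := O
  W := W
  K := L.K
  openK := L.openK
  τ := L.τ
  contτ := L.contτ

variable (L : Lvl F n S O W)

/-- The elements of `K` without component at the places in `T`. -/
def Lvl.KT (T : Finset (Pl F)) : Subgroup L.ctx.K where
  carrier := {k | ∀ v ∈ T, comp v (show GA F n from (k : L.ctx.GG)) = 1}
  one_mem' := fun v _ => map_one (comp v)
  mul_mem' := fun {a b} ha hb v hv => by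
    change comp v ((show GA F n from (a : L.ctx.GG)) * (show GA F n from (b : L.ctx.GG))) = 1
    rw [map_mul, ha v hv, hb v hv, one_mul]
  inv_mem' := fun {a} ha v hv => by
    change comp v ((show GA F n from (a : L.ctx.GG))⁻¹) = 1
    rw [map_inv, ha v hv, inv_one]

/-- The elements of `K` with component at `v` only. -/
def Lvl.KV (v : Pl F) : Subgroup L.ctx.K where
  carrier := {k | ∀ w, w ≠ v → comp w (show GA F n from (k : L.ctx.GG)) = 1}
  one_mem' := fun v _ => map_one (comp v)
  mul_mem' := fun {a b} ha hb v hv => by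
    change comp v ((show GA F n from (a : L.ctx.GG)) * (show GA F n from (b : L.ctx.GG))) = 1
    rw [map_mul, ha v hv, hb v hv, one_mul]
  inv_mem' := fun {a} ha v hv => by
    change comp v ((show GA F n from (a : L.ctx.GG))⁻¹) = 1
    rw [map_inv, ha v hv, inv_one]

/-- The set of units of `F` as a discrete space. -/
def DF (F : Type) [Field F] : Type := Fˣ

instance : TopologicalSpace (DF F) := ⊥

instance : DiscreteTopology (DF F) := ⟨rfl⟩

/-- `GL_n(F)` acts on it through the determinant. -/
instance (n : ℕ) : MulAction (GL (Fin n) F) (DF F) where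
  smul γ a := (show Fˣ from GeneralLinearGroup.det γ * (show Fˣ from a))
  one_smul a := by
    change (GeneralLinearGroup.det (1 : GL (Fin n) F) * (show Fˣ from a) : Fˣ) = a
    rw [map_one, one_mul]
  mul_smul γ γ' a := by
    change (GeneralLinearGroup.det (γ * γ') * (show Fˣ from a) : Fˣ) =
      GeneralLinearGroup.det γ * (GeneralLinearGroup.det γ' * (show Fˣ from a))
    rw [map_mul, mul_assoc]

omit [NumberField F] in
theorem DF_smul (γ : GL (Fin n) F) (a : DF F) :
    γ • a = (show DF F from (GeneralLinearGroup.det γ * (show Fˣ from a) : Fˣ)) := rfl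

/- MODULE RS -/
private theorem rs_cut_mem (T : Finset (Pl F)) (hT : ∀ v ∈ T, v ∉ S) (k : GA F n)
    (hk : k ∈ L.K) : cut T k ∈ L.K := by
  classical
  induction T using Finset.induction_on with
  | empty =>
    have h1 : cut (∅ : Finset (Pl F)) k = k := ga_ext fun w => comp_cut_ne k (Finset.notMem_empty w)
    rw [h1]
    exact hk
  | insert v T hv ih =>
    have h1 : cut (insert v T) k = cut T k * (sgl v (comp v k))⁻¹ := by
      refine ga_ext fun w => ?_
      rw [map_mul, map_inv]
      by_cases hw : w = v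
      · subst hw
        rw [comp_cut k (Finset.mem_insert_self _ _), comp_cut_ne k hv, comp_sgl, mul_inv_cancel]
      · rw [comp_sgl_ne hw, inv_one, mul_one]
        by_cases hwT : w ∈ T
        · rw [comp_cut k (Finset.mem_insert_of_mem hwT), comp_cut k hwT]
        · rw [comp_cut_ne k hwT, comp_cut_ne k fun h => ?_]
          rcases Finset.mem_insert.1 h with h | h
          · exact hw h
          · exact hwT h
    rw [h1]
    have hvS : v ∉ S := hT v (Finset.mem_insert_self _ _)
    exact L.K.mul_mem (ih fun w hw => hT w (Finset.mem_insert_of_mem hw))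
      (L.K.inv_mem (L.mem v hvS _ (L.le v hvS k hk)))

private theorem rs_cut_fix (T : Finset (Pl F)) (g : GA F n) (hg : ∀ v ∈ T, comp v g = 1) :
    cut T g = g := by
  refine ga_ext fun w => ?_
  by_cases hw : w ∈ T
  · rw [comp_cut g hw, hg w hw]
  · exact comp_cut_ne g hw

private theorem rs_cut_idem (T : Finset (Pl F)) (g : GA F n) : cut T (cut T g) = cut T g :=
  rs_cut_fix T _ fun _ hv => comp_cut g hv

/-- The first resolution: `H = 1`, `H' = U = KT T`, `A = Fˣ`. -/
theorem Lvl.exists_R1 (T : Finset (Pl F)) (hT : ∀ v ∈ T, v ∉ S) :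
    ∃ R : Rz L.ctx, R.H = ⊥ ∧ R.H' = L.KT T ∧ ∃ f : R.A → DF F,
      ∀ (γ : GL (Fin n) F) (a : R.A), f ((show L.ctx.Γ from γ) • a) = γ • f a := by

  obtain ⟨κ, hκ1, hκ2⟩ := exists_kappa L.ctx (cut (F := F) (n := n) T) (continuous_cut T)
    (fun k hk => rs_cut_mem L T hT k hk) (fun g => rs_cut_idem T g)
  have hκU : ∀ x, κ x ∈ L.KT T := by
    intro x v hv
    have h1 : cut (F := F) (n := n) T (κ x : L.ctx.GG) = (κ x : L.ctx.GG) := hκ1 x
    change comp v (κ x : L.ctx.GG) = 1
    rw [← h1]
    exact comp_cut _ hv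
  let R : Rz L.ctx :=
    { H := ⊥
      H' := L.KT T
      U := L.KT T
      leH := bot_le
      leU := le_refl _
      split := fun h hh => ⟨1, Subgroup.one_mem _, h, hh, (one_mul h).symm⟩
      comm := fun a ha u _ => by
        rw [Subgroup.mem_bot.1 ha, one_mul, mul_one]
      κ := ⟨fun x => ⟨κ x, hκU x⟩, κ.continuous.subtype_mk _⟩
      κ_mul := fun x u => by
        refine Subtype.ext (Subtype.ext ?_)
        refine (hκ2 x _ (u : L.ctx.K).2).trans ?_
        have h1 : cut (F := F) (n := n) T ((u : L.ctx.K) : L.ctx.GG) = ((u : L.ctx.K) : L.ctx.GG) :=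
          rs_cut_fix T _ u.2
        exact congrArg (fun y => (κ x : L.ctx.GG) * y) h1
      κ_inv := fun x a ha => by
        rw [Subgroup.mem_bot.1 ha]
        refine Subtype.ext ?_
        change κ (x * 1) = κ x
        rw [mul_one]
      A := DF F
      topA := inferInstance
      disA := inferInstance
      actA := (inferInstance : MulAction (GL (Fin n) F) (DF F))
      a₀ := (1 : Fˣ)
      trivA := fun γ hγ a => by
        have h1 : GeneralLinearGroup.det (show GL (Fin n) F from γ) = 1 := hγ
        change (GeneralLinearGroup.det (show GL (Fin n) F from γ) * (show Fˣ from a) : Fˣ) = a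
        rw [h1, one_mul] }
  exact ⟨R, rfl, rfl, fun a => a, fun γ a => rfl⟩

open scoped Classical in
/-- The second resolution: `H = KT (T ∪ v)`, `H' = KT T`, `U = KV v`, `A` a point (`exists_kappa` for
`β g = g (cut {v} g)⁻¹`, which is `sgl v (comp v g)`; hence `β` is continuous and a homomorphism). -/
theorem Lvl.exists_R2 (T : Finset (Pl F)) (hT : ∀ w ∈ T, w ∉ S) (v : Pl F) (hv : v ∉ S)
    (hvT : v ∉ T) : ∃ R : Rz L.ctx, R.H = L.KT (insert v T) ∧ R.H' = L.KT T ∧ R.U = L.KV v := by

  have hsg : ∀ g : GA F n, sgl v (comp v g) = g * (cut {v} g)⁻¹ := by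
    intro g
    refine ga_ext fun w => ?_
    rw [map_mul, map_inv]
    by_cases hw : w = v
    · subst hw
      rw [comp_sgl, comp_cut g (Finset.mem_singleton_self _), inv_one, mul_one]
    · rw [comp_sgl_ne hw, comp_cut_ne g (fun h => hw (Finset.mem_singleton.1 h)), mul_inv_cancel]
  have hβc : Continuous ((sgl v).comp (comp v) : GA F n →* GA F n) := by
    have h1 : (((sgl v).comp (comp v) : GA F n →* GA F n) : GA F n → GA F n) =
        fun g => g * (cut {v} g)⁻¹ := funext fun g => hsg g
    rw [h1]
    exact continuous_id.mul (continuous_cut {v}).inv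
  have hβK : ∀ k ∈ L.K, sgl v (comp v k) ∈ L.K := fun k hk => L.mem v hv _ (L.le v hv k hk)
  obtain ⟨κ, hκ1, hκ2⟩ := exists_kappa L.ctx ((sgl v).comp (comp v) : GA F n →* GA F n) hβc
    hβK (fun g => congrArg (sgl v) (comp_sgl v (comp v g)))
  have hκU : ∀ x, κ x ∈ L.KV v := by
    intro x w hw
    have h1 : sgl v (comp v (κ x : L.ctx.GG)) = (κ x : L.ctx.GG) := hκ1 x
    change comp w (κ x : L.ctx.GG) = 1
    rw [← h1]
    exact comp_sgl_ne hw _
  have hfix : ∀ g : GA F n, (∀ w, w ≠ v → comp w g = 1) → sgl v (comp v g) = g := by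
    intro g hg
    refine ga_ext fun w => ?_
    by_cases hw : w = v
    · subst hw
      exact comp_sgl w _
    · rw [comp_sgl_ne hw, hg w hw]
  let R : Rz L.ctx :=
    { H := L.KT (insert v T)
      H' := L.KT T
      U := L.KV v
      leH := fun k hk w hw => hk w (Finset.mem_insert_of_mem hw)
      leU := fun k hk w hw => hk w fun h => hvT (h ▸ hw)
      split := fun h hh => by
        have hhK : sgl v (comp v (show GA F n from (h : L.ctx.GG))) ∈ L.K := hβK _ h.2
        let u : L.ctx.K := ⟨sgl v (comp v (show GA F n from (h : L.ctx.GG))), hhK⟩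
        refine ⟨h * u⁻¹, ?_, u, ?_, (inv_mul_cancel_right h u).symm⟩
        · intro w hw
          change comp w ((show GA F n from (h : L.ctx.GG)) *
            (sgl v (comp v (show GA F n from (h : L.ctx.GG))))⁻¹) = 1
          rw [map_mul, map_inv]
          by_cases hwv : w = v
          · subst hwv
            rw [comp_sgl, mul_inv_cancel]
          · rw [comp_sgl_ne hwv, inv_one, mul_one]
            exact hh w ((Finset.mem_insert.1 hw).resolve_left hwv)
        · intro w hw
          exact comp_sgl_ne hw _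
      comm := fun a ha u hu => by
        refine Subtype.ext ?_
        refine comm_of_comp (g := (show GA F n from (a : L.ctx.GG)))
          (h := (show GA F n from (u : L.ctx.GG))) fun w => ?_
        by_cases hw : w = v
        · subst hw
          exact Or.inl (ha w (Finset.mem_insert_self _ _))
        · exact Or.inr (hu w hw)
      κ := ⟨fun x => ⟨κ x, hκU x⟩, κ.continuous.subtype_mk _⟩
      κ_mul := fun x u => by
        refine Subtype.ext (Subtype.ext ?_)
        refine (hκ2 x _ (u : L.ctx.K).2).trans ?_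
        exact congrArg (fun y => (κ x : L.ctx.GG) * y) (hfix _ u.2)
      κ_inv := fun x a ha => by
        refine Subtype.ext (Subtype.ext ?_)
        refine (hκ2 x _ a.2).trans ?_
        have h1 : comp v (show GA F n from (a : L.ctx.GG)) = 1 := ha v (Finset.mem_insert_self _ _)
        have h2 : sgl v (comp v (show GA F n from (a : L.ctx.GG))) = 1 := by
          rw [h1, map_one]
        refine (congrArg (fun y => (κ x : L.ctx.GG) * y) h2).trans ?_
        exact mul_one _
      A := PUnit
      topA := inferInstance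
      disA := inferInstance
      actA := inferInstance
      a₀ := PUnit.unit
      trivA := fun γ _ a => rfl }
  exact ⟨R, rfl, rfl, rfl⟩
/- END RS -/

end Pool.Agent.BRQ
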