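import Pool.Agent.BRQ.Ctx

/-!
# Operators: the group algebra of `GG` acting by right translations
-/

set_option autoImplicit false

noncomputable section

namespace Pool.Agent.BRQ

open Pool.Agent.BR80

variable (c : Ctx)

/-- The right translations of arbitrary functions on `GG`. -/
def bareHom : c.GG →* Module.End c.O (c.GG → c.W) where
  toFun := fun g =>
    { toFun := fun ψ x => ψ (x * g)
      map_add' := fun _ _ => rfl
      map_smul' := fun _ _ => rfl }
  map_one' := by
    refine LinearMap.ext fun ψ => funext fun x => ?_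
    change ψ (x * 1) = ψ x
    rw [mul_one]
  map_mul' := fun g h => by
    refine LinearMap.ext fun ψ => funext fun x => ?_
    change ψ (x * (g * h)) = ψ (x * g * h)
    rw [mul_assoc]

/-- The action of the group algebra on arbitrary functions on `GG`. -/
def bare : MonoidAlgebra c.O c.GG →ₐ[c.O] Module.End c.O (c.GG → c.W) :=
  MonoidAlgebra.lift c.O _ c.GG (bareHom c)

variable {c}

/- MODULE A1 -/
theorem bare_single (g : c.GG) (a : c.O) (ψ : c.GG → c.W) (x : c.GG) :
    bare c (MonoidAlgebra.single g a) ψ x = a • ψ (x * g) := by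
  rw [bare, MonoidAlgebra.lift_single]
  rfl

/-- The operators can be computed for fixed values of the other variables. -/
theorem rt_bare {D Z : Type} [TopologicalSpace D] [TopologicalSpace Z]
    (r : MonoidAlgebra c.O c.GG) (φ : Amb c D Z) (d : D) (x : c.GG) (z : Z) :
    rt c D Z r φ (d, x, z) = bare c r (fun y => φ (d, y, z)) x := by
  induction r using MonoidAlgebra.induction_on with
  | of g =>
    rw [MonoidAlgebra.of_apply, rt_single, bare_single, one_smul, one_smul, rtHom_apply]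
  | add a b ha hb =>
    rw [map_add, map_add, LinearMap.add_apply, LinearMap.add_apply, ContinuousMap.add_apply,
      Pi.add_apply, ha, hb]
  | smul a b hb =>
    rw [map_smul, map_smul, LinearMap.smul_apply, LinearMap.smul_apply, ContinuousMap.smul_apply,
      Pi.smul_apply, hb]

/-- An `O`-linear map of the values commutes with the operators. -/
theorem bare_map (r : MonoidAlgebra c.O c.GG) (u : c.W →ₗ[c.O] c.W) (ψ : c.GG → c.W)
    (x : c.GG) : bare c r (fun y => u (ψ y)) x = u (bare c r ψ x) := by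
  induction r using MonoidAlgebra.induction_on with
  | of g =>
    rw [MonoidAlgebra.of_apply, bare_single, bare_single, one_smul, one_smul]
  | add a b ha hb =>
    rw [map_add, LinearMap.add_apply, LinearMap.add_apply, Pi.add_apply, Pi.add_apply, ha, hb, map_add]
  | smul a b hb =>
    rw [map_smul, LinearMap.smul_apply, LinearMap.smul_apply, Pi.smul_apply, Pi.smul_apply, hb, map_smul]

/-- Left translations commute with the operators. -/
theorem bare_left (r : MonoidAlgebra c.O c.GG) (g : c.GG) (ψ : c.GG → c.W) (x : c.GG) :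
    bare c r (fun y => ψ (g * y)) x = bare c r ψ (g * x) := by
  induction r using MonoidAlgebra.induction_on with
  | of g' =>
    rw [MonoidAlgebra.of_apply, bare_single, bare_single, one_smul, one_smul, mul_assoc]
  | add a b ha hb =>
    rw [map_add, LinearMap.add_apply, LinearMap.add_apply, Pi.add_apply, Pi.add_apply, ha, hb]
  | smul a b hb =>
    rw [map_smul, LinearMap.smul_apply, LinearMap.smul_apply, Pi.smul_apply, Pi.smul_apply, hb]
/- END A1 -/

/-- The function `ψ` satisfies `ψ (x h) = h⁻¹ ψ x` for `h` in `H`. -/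
def Inv' (H : Subgroup c.K) (ψ : c.GG → c.W) : Prop :=
  ∀ h ∈ H, ∀ x, ψ (x * (h : c.GG)) = c.τ h⁻¹ (ψ x)

/-- The operators which preserve this property. -/
def St (c : Ctx) (H : Subgroup c.K) : Subalgebra c.O (MonoidAlgebra c.O c.GG) where
  carrier := {r | ∀ ψ : c.GG → c.W, Inv' H ψ → Inv' H (bare c r ψ)}
  mul_mem' := fun {a b} ha hb ψ h => by
    have h1 := ha _ (hb ψ h)
    rwa [← Module.End.mul_apply, ← map_mul] at h1
  add_mem' := fun {a b} ha hb ψ h k hk x => by
    rw [map_add, LinearMap.add_apply, Pi.add_apply, Pi.add_apply, ha ψ h k hk, hb ψ h k hk,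
      map_add]
  algebraMap_mem' := fun r ψ h k hk x => by
    rw [AlgHom.commutes, Module.algebraMap_end_apply, Pi.smul_apply, Pi.smul_apply, h k hk,
      map_smul]

/-- The operators which commute with the elements of `U`. -/
def Ce (c : Ctx) (U : Subgroup c.K) : Subalgebra c.O (MonoidAlgebra c.O c.GG) :=
  Subalgebra.centralizer c.O {r | ∃ u ∈ U, r = MonoidAlgebra.single (u : c.GG) 1}

theorem mem_Ce {U : Subgroup c.K} {r : MonoidAlgebra c.O c.GG} :
    r ∈ Ce c U ↔ ∀ u ∈ U, MonoidAlgebra.single (u : c.GG) 1 * r =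
      r * MonoidAlgebra.single (u : c.GG) 1 := by
  rw [Ce, Subalgebra.mem_centralizer_iff]
  constructor
  · exact fun h u hu => h _ ⟨u, hu, rfl⟩
  · rintro h _ ⟨u, hu, rfl⟩
    exact h u hu

/- MODULE A2 -/
/-- The operators preserve `Md H`. -/
theorem rt_mem_Md {H : Subgroup c.K} {r : MonoidAlgebra c.O c.GG} (hr : r ∈ St c H) {D Z : Type}
    [TopologicalSpace D] [DiscreteTopology D] [MulAction c.Γ D] [TopologicalSpace Z]
    {φ : Amb c D Z} (hφ : φ ∈ (Md c H D Z).N) : rt c D Z r φ ∈ (Md c H D Z).N := by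
  intro h hh d x z
  rw [rt_bare, rt_bare]
  exact hr (fun y => φ (d, y, z)) (fun k hk y => hφ k hk d y z) h hh x

/-- The operators in `Ce U` commute with the right translation by an element of `U`. -/
theorem bare_Ce {U : Subgroup c.K} {r : MonoidAlgebra c.O c.GG} (hr : r ∈ Ce c U) {u : c.K}
    (hu : u ∈ U) (ψ : c.GG → c.W) (x : c.GG) :
    bare c r (fun y => ψ (y * (u : c.GG))) x = bare c r ψ (x * (u : c.GG)) := by
  have h1 := mem_Ce.1 hr u hu
  have h2 : bare c (MonoidAlgebra.single (u : c.GG) 1 * r) ψ x =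
      bare c (r * MonoidAlgebra.single (u : c.GG) 1) ψ x := by rw [h1]
  rw [map_mul, map_mul, Module.End.mul_apply, Module.End.mul_apply, bare_single, one_smul] at h2
  rw [h2]
  have h3 : bare c (MonoidAlgebra.single (u : c.GG) 1) ψ = fun y => ψ (y * (u : c.GG)) := by
    funext y
    rw [bare_single, one_smul]
  rw [h3]

/-- All operators preserve the trivial condition. -/
theorem St_bot : St c (⊥ : Subgroup c.K) = ⊤ := by
  refine eq_top_iff.2 fun r _ ψ _ h hh x => ?_
  rw [Subgroup.mem_bot] at hh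
  subst hh
  rw [inv_one, map_one, Subgroup.coe_one, mul_one]
  rfl

/-- The operators which commute with `U` preserve `Md U`, and `Md H'` for `H' = H U`. -/
theorem St_split {H H' U : Subgroup c.K} (hU : U ≤ H')
    (hs : ∀ h ∈ H', ∃ a ∈ H, ∃ u ∈ U, h = a * u) (hH : H ≤ H')
    {r : MonoidAlgebra c.O c.GG} (h1 : r ∈ St c H) (h2 : r ∈ Ce c U) : r ∈ St c H' := by
  intro ψ hψ h hh x
  obtain ⟨a, ha, u, hu, rfl⟩ := hs h hh
  have e1 : ∀ y, bare c r ψ (y * (u : c.GG)) = c.τ u⁻¹ (bare c r ψ y) := by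
    intro y
    rw [← bare_Ce h2 hu, ← bare_map]
    have e0 : (fun z => ψ (z * (u : c.GG))) = fun z => c.τ u⁻¹ (ψ z) := funext fun z => hψ u (hU hu) z
    rw [e0]
  have e2 : bare c r ψ (x * (a : c.GG)) = c.τ a⁻¹ (bare c r ψ x) :=
    h1 ψ (fun k hk y => hψ k (hH hk) y) a ha x
  rw [Subgroup.coe_mul, ← mul_assoc, e1, e2, mul_inv_rev, map_mul]
  rfl

/-- The subgroup `H` does not see elements of `GG` which commute with all elements of `H`. -/
theorem single_mem_St {H : Subgroup c.K} {g : c.GG} (h : ∀ k ∈ H, (k : c.GG) * g = g * (k : c.GG))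
    (a : c.O) : MonoidAlgebra.single g a ∈ St c H := by
  intro ψ hψ k hk x
  rw [bare_single, bare_single, mul_assoc, h k hk, ← mul_assoc, hψ k hk, map_smul]

theorem single_mem_Ce {U : Subgroup c.K} {g : c.GG}
    (h : ∀ k ∈ U, (k : c.GG) * g = g * (k : c.GG)) (a : c.O) :
    MonoidAlgebra.single g a ∈ Ce c U := by
  rw [mem_Ce]
  intro u hu
  rw [MonoidAlgebra.single_mul_single, MonoidAlgebra.single_mul_single, h u hu, one_mul, mul_one]

/-- A sum of elements which is permuted by `H` from the left, up to elements of `H` from the right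
which act in the same way on the coefficients. -/
theorem sum_mem_St {H : Subgroup c.K} {I : Type} (s : Finset I) (g : I → c.GG)
    (h : ∀ k ∈ H, ∃ π : I → I, (∀ i ∈ s, π i ∈ s) ∧ (∀ i ∈ s, ∀ j ∈ s, π i = π j → i = j) ∧
      ∀ i ∈ s, ∃ k' ∈ H, c.τ k' = c.τ k ∧ (k : c.GG) * g i = g (π i) * (k' : c.GG)) :
    ∑ i ∈ s, MonoidAlgebra.single (g i) (1 : c.O) ∈ St c H := by
  classical
  have e0 : ∀ (ψ : c.GG → c.W) (x : c.GG),
      bare c (∑ i ∈ s, MonoidAlgebra.single (g i) (1 : c.O)) ψ x = ∑ i ∈ s, ψ (x * g i) := by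
    intro ψ x
    rw [map_sum, LinearMap.sum_apply, Finset.sum_apply]
    exact Finset.sum_congr rfl fun i _ => by rw [bare_single, one_smul]
  intro ψ hψ k hk x
  obtain ⟨π, h1, h2, h3⟩ := h k hk
  rw [e0, e0, map_sum]
  have himg : s.image π = s := by
    refine Finset.eq_of_subset_of_card_le ?_ ?_
    · intro j hj
      obtain ⟨i, hi, rfl⟩ := Finset.mem_image.1 hj
      exact h1 i hi
    · rw [Finset.card_image_of_injOn fun i hi j hj hij => h2 i hi j hj hij]
  have e1 : ∑ i ∈ s, c.τ k⁻¹ (ψ (x * g i)) = ∑ i ∈ s, c.τ k⁻¹ (ψ (x * g (π i))) := by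
    conv_lhs => rw [← himg]
    rw [Finset.sum_image fun i hi j hj hij => h2 i hi j hj hij]
  rw [e1]
  refine Finset.sum_congr rfl fun i hi => ?_
  obtain ⟨k', hk', e2, e3⟩ := h3 i hi
  have e4 : c.τ k'⁻¹ = c.τ k⁻¹ := by
    have e5 : c.τ k'⁻¹ * c.τ k' = 1 := by rw [← map_mul, inv_mul_cancel, map_one]
    have e6 : c.τ k * c.τ k⁻¹ = 1 := by rw [← map_mul, mul_inv_cancel, map_one]
    calc c.τ k'⁻¹ = c.τ k'⁻¹ * (c.τ k * c.τ k⁻¹) := by rw [e6, mul_one]
      _ = (c.τ k'⁻¹ * c.τ k') * c.τ k⁻¹ := by rw [e2, mul_assoc]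
      _ = c.τ k⁻¹ := by rw [e5, one_mul]
  rw [mul_assoc, e3, ← mul_assoc, hψ k' hk', e4]
/- END A2 -/

/-- The operator `r` on the complex of the cochains with values in a submodule `M` preserved by
`r`. -/
def Sb.op {D Z : Type} [TopologicalSpace D] [DiscreteTopology D] [MulAction c.Γ D]
    [TopologicalSpace Z] (M : Sb c D Z) (r : MonoidAlgebra c.O c.GG)
    (hr : ∀ φ ∈ M.N, rt c D Z r φ ∈ M.N) : Cx.Hom M.cx M.cx :=
  (M.exists_hom M (rt c D Z r).toAddMonoidHom hr fun γ φ _ => rt_rho r γ φ).choose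

@[simp] theorem Sb.vl_op {D Z : Type} [TopologicalSpace D] [DiscreteTopology D]
    [MulAction c.Γ D] [TopologicalSpace Z] {M : Sb c D Z} {r : MonoidAlgebra c.O c.GG}
    {hr : ∀ φ ∈ M.N, rt c D Z r φ ∈ M.N} {m : ℕ} (x : M.cx.C m) (g : Fin m → c.Γ) :
    Sb.vl ((M.op r hr).f m x) g = rt c D Z r (Sb.vl x g) :=
  (M.exists_hom M (rt c D Z r).toAddMonoidHom hr fun γ φ _ => rt_rho r γ φ).choose_spec m x g

end Pool.Agent.BRQ
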