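import Pool.Agent.BRQ.Op
import Pool.Agent.BRQ.Chase

/-!
# The resolution of `Md H'` by the modules `Md H`, `H' = H U`
-/

set_option autoImplicit false

noncomputable section

namespace Pool.Agent.BRQ

open Pool.Agent.BR80

/-- The data of the resolution: `H' = H U`, `H` and `U` commute, a continuous map `κ` from `GG` to
`U` with `κ (x u) = κ x u` for `u` in `U` and `κ (x h) = κ x` for `h` in `H`, and a discrete space
`A₀` with an action of `Γ`. -/
structure Rz (c : Ctx) where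
  /-- the small group -/
  H : Subgroup c.K
  /-- the large group -/
  H' : Subgroup c.K
  /-- the complement -/
  U : Subgroup c.K
  leH : H ≤ H'
  leU : U ≤ H'
  split : ∀ h ∈ H', ∃ a ∈ H, ∃ u ∈ U, h = a * u
  comm : ∀ a ∈ H, ∀ u ∈ U, a * u = u * a
  /-- the component in `U` -/
  κ : C(c.GG, U)
  κ_mul : ∀ (x : c.GG) (u : U), κ (x * ((u : c.K) : c.GG)) = κ x * u
  κ_inv : ∀ (x : c.GG), ∀ a ∈ H, κ (x * (a : c.GG)) = κ x
  /-- a discrete space with an action of `Γ` -/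
  A : Type
  [topA : TopologicalSpace A]
  [disA : DiscreteTopology A]
  [actA : MulAction c.Γ A]
  /-- a point -/
  a₀ : A
  trivA : ∀ γ ∈ c.Γ₁, ∀ a : A, γ • a = a

attribute [instance] Rz.topA Rz.disA Rz.actA

variable {c : Ctx} (R : Rz c) (D Z : Type) [TopologicalSpace D] [TopologicalSpace Z]

/-- The discrete space in the degree `s`. -/
abbrev Rz.D' (s : ℕ) : Type := D × (Fin (s + 1) → R.A)

/-- The parameter space in the degree `s`. -/
abbrev Rz.Z' (s : ℕ) : Type := (Fin s → R.U) × Z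

variable {D Z}

/-- The zeroth face. -/
def Rz.face0 (s : ℕ) : Amb c (R.D' D s) (R.Z' Z s) →ₗ[c.O]
    Amb c (R.D' D (s + 1)) (R.Z' Z (s + 1)) where
  toFun := fun φ => ⟨fun y => c.τ (y.2.2.1 0 : c.K)
      (φ ((y.1.1, fun i => y.1.2 i.succ), y.2.1 * (y.2.2.1 0 : c.K),
        (fun i => (y.2.2.1 0)⁻¹ * y.2.2.1 i.succ, y.2.2.2))), by
    have h : Continuous fun y : R.D' D (s + 1) × c.GG × R.Z' Z (s + 1) =>
        φ ((y.1.1, fun i => y.1.2 i.succ), y.2.1 * (y.2.2.1 0 : c.K),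
          (fun i => (y.2.2.1 0)⁻¹ * y.2.2.1 i.succ, y.2.2.2)) := by fun_prop
    have h2 : Continuous fun y : R.D' D (s + 1) × c.GG × R.Z' Z (s + 1) =>
        (y.2.2.1 0 : c.K) := by fun_prop
    exact c.contτ.comp (h2.prodMk h)⟩
  map_add' := fun φ ψ => ContinuousMap.ext fun y => (c.τ (y.2.2.1 0 : c.K)).map_add _ _
  map_smul' := fun r φ => ContinuousMap.ext fun y => (c.τ (y.2.2.1 0 : c.K)).map_smul r _

theorem Rz.face0_apply (s : ℕ) (φ : Amb c (R.D' D s) (R.Z' Z s)) (d : D)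
    (a : Fin (s + 1 + 1) → R.A) (x : c.GG) (k : Fin (s + 1) → R.U) (z : Z) :
    R.face0 s φ ((d, a), x, (k, z)) = c.τ (k 0 : c.K)
      (φ ((d, fun i => a i.succ), x * (k 0 : c.K), (fun i => (k 0)⁻¹ * k i.succ, z))) := rfl

/-- The other faces. -/
def Rz.faceS (s : ℕ) (j : Fin (s + 1)) : Amb c (R.D' D s) (R.Z' Z s) →ₗ[c.O]
    Amb c (R.D' D (s + 1)) (R.Z' Z (s + 1)) where
  toFun := fun φ => ⟨fun y => φ ((y.1.1, fun i => y.1.2 (j.succ.succAbove i)), y.2.1,
      (fun i => y.2.2.1 (j.succAbove i), y.2.2.2)), by fun_prop⟩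
  map_add' := fun _ _ => rfl
  map_smul' := fun _ _ => rfl

theorem Rz.faceS_apply (s : ℕ) (j : Fin (s + 1)) (φ : Amb c (R.D' D s) (R.Z' Z s)) (d : D)
    (a : Fin (s + 1 + 1) → R.A) (x : c.GG) (k : Fin (s + 1) → R.U) (z : Z) :
    R.faceS s j φ ((d, a), x, (k, z)) =
      φ ((d, fun i => a (j.succ.succAbove i)), x, (fun i => k (j.succAbove i), z)) := rfl

/-- The faces. -/
def Rz.face (s : ℕ) (j : Fin (s + 1 + 1)) : Amb c (R.D' D s) (R.Z' Z s) →ₗ[c.O]
    Amb c (R.D' D (s + 1)) (R.Z' Z (s + 1)) :=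
  Fin.cases (R.face0 s) (R.faceS s) j

@[simp] theorem Rz.face_zero (s : ℕ) : R.face (D := D) (Z := Z) s 0 = R.face0 s := rfl

@[simp] theorem Rz.face_succ (s : ℕ) (j : Fin (s + 1)) :
    R.face (D := D) (Z := Z) s j.succ = R.faceS s j := rfl

/-- The homotopy: insert the point given by `a₀` and `κ`. -/
def Rz.hh (s : ℕ) : Amb c (R.D' D (s + 1)) (R.Z' Z (s + 1)) →ₗ[c.O]
    Amb c (R.D' D s) (R.Z' Z s) where
  toFun := fun φ => ⟨fun y => c.τ ((R.κ y.2.1 : c.K))⁻¹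
      (φ ((y.1.1, Fin.cons R.a₀ y.1.2), y.2.1 * (((R.κ y.2.1 : c.K))⁻¹ : c.K),
        (Fin.cons (R.κ y.2.1) (fun i => R.κ y.2.1 * y.2.2.1 i), y.2.2.2))), by
    have h0 : Continuous fun y : R.D' D s × c.GG × R.Z' Z s => R.κ y.2.1 := by fun_prop
    have h1 : Continuous fun y : R.D' D s × c.GG × R.Z' Z s =>
        (Fin.cons R.a₀ y.1.2 : Fin (s + 1 + 1) → R.A) := by
      refine continuous_pi fun i => ?_
      refine Fin.cases ?_ (fun i => ?_) i
      · exact continuous_const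
      · exact (continuous_apply i).comp (continuous_snd.comp continuous_fst)
    have h2 : Continuous fun y : R.D' D s × c.GG × R.Z' Z s =>
        (Fin.cons (R.κ y.2.1) (fun i => R.κ y.2.1 * y.2.2.1 i) : Fin (s + 1) → R.U) := by
      refine continuous_pi fun i => ?_
      refine Fin.cases ?_ (fun i => ?_) i
      · exact h0
      · exact h0.mul ((continuous_apply i).comp
          (continuous_fst.comp (continuous_snd.comp continuous_snd)))
    have h3 : Continuous fun y : R.D' D s × c.GG × R.Z' Z s => ((R.κ y.2.1 : c.K))⁻¹ :=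
      (continuous_subtype_val.comp h0).inv
    have h4 : Continuous fun y : R.D' D s × c.GG × R.Z' Z s =>
        y.2.1 * (((R.κ y.2.1 : c.K))⁻¹ : c.K) :=
      (continuous_fst.comp continuous_snd).mul (continuous_subtype_val.comp h3)
    exact c.contτ.comp (h3.prodMk (φ.continuous.comp
      (((continuous_fst.comp continuous_fst).prodMk h1).prodMk (h4.prodMk
        (h2.prodMk (continuous_snd.comp (continuous_snd.comp continuous_snd)))))))⟩
  map_add' := fun φ ψ => ContinuousMap.ext fun y => (c.τ ((R.κ y.2.1 : c.K))⁻¹).map_add _ _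
  map_smul' := fun r φ => ContinuousMap.ext fun y => (c.τ ((R.κ y.2.1 : c.K))⁻¹).map_smul r _

theorem Rz.hh_apply (s : ℕ) (φ : Amb c (R.D' D (s + 1)) (R.Z' Z (s + 1))) (d : D)
    (a : Fin (s + 1) → R.A) (x : c.GG) (k : Fin s → R.U) (z : Z) :
    R.hh s φ ((d, a), x, (k, z)) = c.τ ((R.κ x : c.K))⁻¹
      (φ ((d, Fin.cons R.a₀ a), x * (((R.κ x : c.K))⁻¹ : c.K),
        (Fin.cons (R.κ x) (fun i => R.κ x * k i), z))) := rfl

/-- The differential of the resolution. -/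
def Rz.δ (s : ℕ) : Amb c (R.D' D s) (R.Z' Z s) →ₗ[c.O]
    Amb c (R.D' D (s + 1)) (R.Z' Z (s + 1)) :=
  ∑ j : Fin (s + 1 + 1), (-1 : ℤ) ^ (j : ℕ) • R.face s j

/-- The augmentation. -/
def Rz.ε : Amb c D Z →ₗ[c.O] Amb c (R.D' D 0) (R.Z' Z 0) where
  toFun := fun φ => ⟨fun y => φ (y.1.1, y.2.1, y.2.2.2), by fun_prop⟩
  map_add' := fun _ _ => rfl
  map_smul' := fun _ _ => rfl

theorem Rz.ε_apply (φ : Amb c D Z) (d : D) (a : Fin (0 + 1) → R.A) (x : c.GG)
    (k : Fin 0 → R.U) (z : Z) : R.ε φ ((d, a), x, (k, z)) = φ (d, x, z) := rfl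

end Pool.Agent.BRQ
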