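import Pool.Agent.BRQ.Rz

/-!
# The resolution: exactness and the two inductions
-/

set_option autoImplicit false

noncomputable section

namespace Pool.Agent.BRQ

open Pool.Agent.BR80

variable {c : Ctx} (R : Rz c)

/- MODULE C1 -/
private theorem c1_tau (k : c.K) (w : c.W) : c.τ k⁻¹ (c.τ k w) = w := by
  rw [← Module.End.mul_apply, ← map_mul, inv_mul_cancel, map_one, Module.End.one_apply]

private theorem c1_cons_one {X : Type} (s : ℕ) (a₀ : X) (a : Fin (s + 1) → X) :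
    (fun i => (Fin.cons a₀ a : Fin (s + 1 + 1) → X) ((0 : Fin (s + 1)).succ.succAbove i)) =
      Fin.cons a₀ fun i => a i.succ := by
  funext i
  induction i using Fin.cases with
  | zero => rfl
  | succ i =>
    rw [Fin.succ_succAbove_succ, Fin.cons_succ, Fin.cons_succ, Fin.zero_succAbove]

private theorem c1_cons_succ {X : Type} (s : ℕ) (a₀ : X) (a : Fin (s + 1) → X)
    (j : Fin (s + 1)) :
    (fun i => (Fin.cons a₀ a : Fin (s + 1 + 1) → X) (j.succ.succAbove i)) =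
      Fin.cons a₀ fun i => a (j.succAbove i) := by
  funext i
  induction i using Fin.cases with
  | zero =>
    rw [Fin.succ_succAbove_zero, Fin.cons_zero, Fin.cons_zero]
  | succ i =>
    rw [Fin.succ_succAbove_succ, Fin.cons_succ, Fin.cons_succ]

theorem Rz.hh_face0 {D Z : Type} [TopologicalSpace D] [TopologicalSpace Z] (s : ℕ)
    (φ : Amb c (R.D' D s) (R.Z' Z s)) : R.hh s (R.face0 s φ) = φ := by
  ext ⟨⟨d, a⟩, x, ⟨k, z⟩⟩
  rw [Rz.hh_apply, Rz.face0_apply]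
  simp only [Fin.cons_zero, Fin.cons_succ, c1_tau, inv_mul_cancel_left]
  congr 3
  rw [mul_assoc]
  have : ((((R.κ x : c.K))⁻¹ : c.K) : c.GG) * ((R.κ x : c.K) : c.GG) = 1 := by
    rw [← Subgroup.coe_mul, inv_mul_cancel, Subgroup.coe_one]
  rw [this, mul_one]

theorem Rz.hh_faceS {D Z : Type} [TopologicalSpace D] [TopologicalSpace Z] (s : ℕ)
    (j : Fin (s + 1 + 1)) (φ : Amb c (R.D' D (s + 1)) (R.Z' Z (s + 1))) :
    R.hh (s + 1) (R.faceS (s + 1) j φ) = R.face s j (R.hh s φ) := by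
  ext ⟨⟨d, a⟩, x, ⟨k, z⟩⟩
  rw [Rz.hh_apply, Rz.faceS_apply]
  induction j using Fin.cases with
  | zero =>
    rw [Rz.face_zero, Rz.face0_apply, Rz.hh_apply, R.κ_mul, c1_cons_one]
    have h1 : (c.τ ((k 0 : R.U) : c.K)).comp (c.τ (((R.κ x * k 0 : R.U) : c.K))⁻¹) =
        c.τ ((R.κ x : c.K))⁻¹ := by
      rw [← Module.End.mul_eq_comp, ← map_mul]
      congr 1
      rw [Subgroup.coe_mul, mul_inv_rev, mul_inv_cancel_left]
    have h2 : x * (((R.κ x : c.K)⁻¹ : c.K) : c.GG) = x * (((k 0 : R.U) : c.K) : c.GG) *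
        (((((R.κ x * k 0 : R.U) : c.K))⁻¹ : c.K) : c.GG) := by
      rw [mul_assoc, ← Subgroup.coe_mul c.K, Subgroup.coe_mul R.U, mul_inv_rev,
        mul_inv_cancel_left]
    have h3 : (fun i => (Fin.cons (R.κ x) (fun i => R.κ x * k i) : Fin (s + 1 + 1) → R.U)
        ((0 : Fin (s + 1 + 1)).succAbove i)) =
        (Fin.cons (R.κ x * k 0) (fun i => R.κ x * k 0 * ((k 0)⁻¹ * k i.succ)) :
          Fin (s + 1) → R.U) := by
      funext i
      rw [Fin.zero_succAbove, Fin.cons_succ]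
      induction i using Fin.cases with
      | zero => rw [Fin.cons_zero]
      | succ i => rw [Fin.cons_succ, mul_assoc, mul_inv_cancel_left]
    rw [← h1, h2, h3]
    rfl
  | succ j =>
    rw [Rz.face_succ, Rz.faceS_apply, Rz.hh_apply, c1_cons_succ]
    congr 4
    exact congrArg (·, z) (c1_cons_succ s (R.κ x) (fun i => R.κ x * k i) j)

/-- The homotopy. -/
theorem Rz.hh_δ {D Z : Type} [TopologicalSpace D] [TopologicalSpace Z] (s : ℕ)
    (φ : Amb c (R.D' D (s + 1)) (R.Z' Z (s + 1))) :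
    R.hh (s + 1) (R.δ (s + 1) φ) + R.δ s (R.hh s φ) = φ := by
  rw [Rz.δ, Rz.δ, LinearMap.sum_apply, LinearMap.sum_apply, map_sum, Fin.sum_univ_succ]
  have h1 : ∀ j : Fin (s + 1 + 1), R.hh (s + 1)
      ((((-1 : ℤ) ^ ((j.succ : Fin (s + 1 + 1 + 1)) : ℕ)) • R.face (s + 1) j.succ) φ) =
      - (((-1 : ℤ) ^ (j : ℕ) • R.face s j) (R.hh s φ)) := by
    intro j
    rw [LinearMap.smul_apply, LinearMap.smul_apply, map_zsmul, Rz.face_succ, R.hh_faceS,
      Fin.val_succ, pow_succ, mul_neg_one, neg_smul]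
  rw [Finset.sum_congr rfl fun j _ => h1 j, Finset.sum_neg_distrib, LinearMap.smul_apply,
    map_zsmul, Rz.face_zero, R.hh_face0]
  simp
/- END C1 -/

/- MODULE C2 -/
private theorem c2_succAbove (s : ℕ) (i j : Fin (s + 1)) (hij : i ≤ j) (t : Fin s) :
    j.succ.succAbove (i.succAbove t) = i.castSucc.succAbove (j.succAbove t) := by
  simp only [Fin.succAbove, Fin.lt_def, Fin.ext_iff, Fin.le_def] at *
  split_ifs <;> simp_all <;> omega

private theorem c2_00 {D Z : Type} [TopologicalSpace D] [TopologicalSpace Z] (s : ℕ)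
    (φ : Amb c (R.D' D s) (R.Z' Z s)) :
    R.faceS (s + 1) 0 (R.face0 s φ) = R.face0 (s + 1) (R.face0 s φ) := by
  ext ⟨⟨d, a⟩, x, k, z⟩
  rw [Rz.faceS_apply, Rz.face0_apply, Rz.face0_apply, Rz.face0_apply, ← Module.End.mul_apply,
    ← map_mul]
  have h1 : ∀ i : Fin (s + 1), (0 : Fin (s + 1 + 1)).succAbove i = i.succ := fun i => rfl
  have h2 : ∀ i : Fin (s + 1), (0 : Fin (s + 1 + 1)).succ.succAbove i.succ = i.succ.succ := by
    intro i
    rw [Fin.succ_succAbove_succ]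
    rfl
  have h3 : ((k 0 : R.U) : c.K) * (((k 0)⁻¹ * k (Fin.succ 0) : R.U) : c.K) =
      ((k (Fin.succ 0) : R.U) : c.K) := by
    rw [Subgroup.coe_mul, Subgroup.coe_inv, mul_inv_cancel_left]
  have h4 : x * ((k 0 : R.U) : c.K) * ((((k 0)⁻¹ * k (Fin.succ 0) : R.U) : c.K) : c.GG) =
      x * ((k (Fin.succ 0) : R.U) : c.K) := by
    rw [mul_assoc, ← Subgroup.coe_mul, h3]
  have h5 : ∀ i : Fin s, ((k 0)⁻¹ * k (Fin.succ 0))⁻¹ * ((k 0)⁻¹ * k i.succ.succ) =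
      (k (Fin.succ 0))⁻¹ * k i.succ.succ := by
    intro i
    group
  simp only [h1, h2, h3, h4, h5]

private theorem c2_0S {D Z : Type} [TopologicalSpace D] [TopologicalSpace Z] (s : ℕ)
    (j : Fin (s + 1)) (φ : Amb c (R.D' D s) (R.Z' Z s)) :
    R.faceS (s + 1) j.succ (R.face0 s φ) = R.face0 (s + 1) (R.faceS s j φ) := by
  ext ⟨⟨d, a⟩, x, k, z⟩
  rw [Rz.faceS_apply, Rz.face0_apply, Rz.face0_apply, Rz.faceS_apply]
  simp only [Fin.succ_succAbove_zero, Fin.succ_succAbove_succ]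

private theorem c2_SS {D Z : Type} [TopologicalSpace D] [TopologicalSpace Z] (s : ℕ)
    (i j : Fin (s + 1)) (hij : i ≤ j) (φ : Amb c (R.D' D s) (R.Z' Z s)) :
    R.faceS (s + 1) j.succ (R.faceS s i φ) = R.faceS (s + 1) i.castSucc (R.faceS s j φ) := by
  ext ⟨⟨d, a⟩, x, k, z⟩
  rw [Rz.faceS_apply, Rz.faceS_apply, Rz.faceS_apply, Rz.faceS_apply]
  have h1 : ∀ t : Fin s, j.succ.succAbove (i.succAbove t) =
      i.castSucc.succAbove (j.succAbove t) := c2_succAbove s i j hij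
  have h2 : ∀ t : Fin (s + 1), j.succ.succ.succAbove (i.succ.succAbove t) =
      i.castSucc.succ.succAbove (j.succ.succAbove t) := by
    intro t
    exact c2_succAbove (s + 1) i.succ j.succ (Fin.succ_le_succ_iff.2 hij) t
  simp only [h1, h2]

/-- The cosimplicial identity. -/
theorem Rz.face_face {D Z : Type} [TopologicalSpace D] [TopologicalSpace Z] (s : ℕ)
    (i j : Fin (s + 1 + 1)) (hij : i ≤ j) (φ : Amb c (R.D' D s) (R.Z' Z s)) :
    R.face (s + 1) j.succ (R.face s i φ) = R.face (s + 1) i.castSucc (R.face s j φ) := by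
  induction i using Fin.cases with
  | zero =>
    induction j using Fin.cases with
    | zero => exact c2_00 R s φ
    | succ j => exact c2_0S R s j φ
  | succ i =>
    induction j using Fin.cases with
    | zero => exact absurd hij (by simp)
    | succ j => exact c2_SS R s i j (Fin.succ_le_succ_iff.1 hij) φ

private theorem c2_sum {M : Type} [AddCommGroup M] (n : ℕ) (g : Fin (n + 1 + 1) → Fin (n + 1) → M)
    (h : ∀ i j : Fin (n + 1), i ≤ j → g j.succ i = g i.castSucc j) :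
    ∑ j : Fin (n + 1 + 1), (-1 : ℤ) ^ (j : ℕ) • ∑ i : Fin (n + 1), (-1 : ℤ) ^ (i : ℕ) • g j i =
      0 := by
  have h0 : ∑ j : Fin (n + 1 + 1), (-1 : ℤ) ^ (j : ℕ) • ∑ i : Fin (n + 1), (-1 : ℤ) ^ (i : ℕ) • g j i
      = ∑ p : Fin (n + 1 + 1) × Fin (n + 1), (-1 : ℤ) ^ ((p.1 : ℕ) + (p.2 : ℕ)) • g p.1 p.2 := by
    rw [Fintype.sum_prod_type]
    refine Finset.sum_congr rfl fun j _ => ?_
    rw [Finset.smul_sum]
    refine Finset.sum_congr rfl fun i _ => ?_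
    rw [smul_smul, pow_add]
  rw [h0, ← Finset.sum_filter_add_sum_filter_not Finset.univ
    (fun p : Fin (n + 1 + 1) × Fin (n + 1) => (p.2 : ℕ) < (p.1 : ℕ)), add_eq_zero_iff_eq_neg,
    ← Finset.sum_neg_distrib]
  refine Finset.sum_bij (fun p hp => (p.2.castSucc, (⟨(p.1 : ℕ) - 1, by
      have := p.1.2
      have h2 := (Finset.mem_filter.1 hp).2
      omega⟩ : Fin (n + 1)))) ?_ ?_ ?_ ?_
  · rintro ⟨a, b⟩ hp
    have h2 := (Finset.mem_filter.1 hp).2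
    rw [Finset.mem_filter]
    refine ⟨Finset.mem_univ _, ?_⟩
    simp only [Fin.val_castSucc] at *
    omega
  · rintro ⟨a, b⟩ hp ⟨a', b'⟩ hp' he
    have h2 := (Finset.mem_filter.1 hp).2
    have h2' := (Finset.mem_filter.1 hp').2
    simp only [Prod.mk.injEq, Fin.ext_iff, Fin.val_castSucc] at *
    omega
  · rintro ⟨a, b⟩ hp
    have h2 := (Finset.mem_filter.1 hp).2
    simp only at h2
    have hb := b.2
    refine ⟨(b.succ, ⟨a, by omega⟩), ?_, ?_⟩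
    · rw [Finset.mem_filter]
      refine ⟨Finset.mem_univ _, ?_⟩
      simp only [Fin.val_succ]
      omega
    · exact Prod.ext (Fin.ext rfl) (Fin.ext (Nat.add_sub_cancel (b : ℕ) 1))
  · rintro ⟨a, b⟩ hp
    have h2 := (Finset.mem_filter.1 hp).2
    simp only at h2
    have ha := a.2
    have h3 := h b ⟨(a : ℕ) - 1, by omega⟩ (by
      simp only [Fin.le_def]
      omega)
    have h4 : (⟨(a : ℕ) - 1, by omega⟩ : Fin (n + 1)).succ = a := by
      simp only [Fin.ext_iff, Fin.val_succ]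
      omega
    rw [h4] at h3
    simp only [Fin.val_castSucc]
    rw [h3, ← neg_smul]
    congr 1
    obtain ⟨t, ht⟩ : ∃ t, (a : ℕ) = t + 1 := ⟨(a : ℕ) - 1, by omega⟩
    rw [ht, Nat.add_sub_cancel, add_comm (b : ℕ) t, show t + 1 + (b : ℕ) = (t + b) + 1 by omega,
      pow_succ]
    ring

theorem Rz.δ_δ {D Z : Type} [TopologicalSpace D] [TopologicalSpace Z] (s : ℕ)
    (φ : Amb c (R.D' D s) (R.Z' Z s)) : R.δ (s + 1) (R.δ s φ) = 0 := by
  have h : R.δ (s + 1) (R.δ s φ) = ∑ j : Fin (s + 1 + 1 + 1), (-1 : ℤ) ^ (j : ℕ) •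
      ∑ i : Fin (s + 1 + 1), (-1 : ℤ) ^ (i : ℕ) • R.face (s + 1) j (R.face s i φ) := by
    rw [Rz.δ, LinearMap.sum_apply]
    refine Finset.sum_congr rfl fun j _ => ?_
    rw [LinearMap.smul_apply, Rz.δ, LinearMap.sum_apply, map_sum]
    congr 1
    refine Finset.sum_congr rfl fun i _ => ?_
    rw [LinearMap.smul_apply, map_zsmul]
  rw [h]
  exact c2_sum (s + 1) (fun j i => R.face (s + 1) j (R.face s i φ))
    fun i j hij => R.face_face s i j hij φ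
/- END C2 -/

section sb

variable {D Z : Type} [TopologicalSpace D] [DiscreteTopology D] [MulAction c.Γ D]
  [TopologicalSpace Z]

/- MODULE C3 -/
private theorem c3_face_rho (s : ℕ) (γ : c.Γ) (φ : Amb c (R.D' D s) (R.Z' Z s))
    (j : Fin (s + 1 + 1)) : R.face s j (rho c _ _ γ φ) = rho c _ _ γ (R.face s j φ) := by
  induction j using Fin.cases with
  | zero =>
    ext ⟨⟨d, a⟩, x, k, z⟩
    rw [rho_apply, Prod.smul_mk, Rz.face_zero, Rz.face0_apply, Rz.face0_apply, rho_apply,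
      Prod.smul_mk, mul_assoc]
    rfl
  | succ j =>
    ext ⟨⟨d, a⟩, x, k, z⟩
    rw [rho_apply, Prod.smul_mk, Rz.face_succ, Rz.faceS_apply, Rz.faceS_apply, rho_apply,
      Prod.smul_mk]
    rfl

theorem Rz.δ_rho (s : ℕ) (γ : c.Γ) (φ : Amb c (R.D' D s) (R.Z' Z s)) :
    R.δ s (rho c _ _ γ φ) = rho c _ _ γ (R.δ s φ) := by
  rw [Rz.δ, LinearMap.sum_apply, LinearMap.sum_apply, map_sum]
  refine Finset.sum_congr rfl fun j _ => ?_
  rw [LinearMap.smul_apply, LinearMap.smul_apply, map_zsmul, c3_face_rho]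

theorem Rz.ε_rho (γ : c.Γ) (φ : Amb c D Z) : R.ε (rho c _ _ γ φ) = rho c _ _ γ (R.ε φ) := by
  ext ⟨⟨d, a⟩, x, k, z⟩
  rw [rho_apply, Prod.smul_mk, Rz.ε_apply, Rz.ε_apply, rho_apply]

private theorem c3_face_rt (s : ℕ) {r : MonoidAlgebra c.O c.GG} (hr : r ∈ Ce c R.U)
    (φ : Amb c (R.D' D s) (R.Z' Z s)) (j : Fin (s + 1 + 1)) :
    R.face s j (rt c _ _ r φ) = rt c _ _ r (R.face s j φ) := by
  induction j using Fin.cases with
  | zero =>
    ext ⟨⟨d, a⟩, x, k, z⟩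
    rw [Rz.face_zero, Rz.face0_apply, rt_bare, rt_bare, ← bare_Ce hr (k 0).2, ← bare_map]
    rfl
  | succ j =>
    ext ⟨⟨d, a⟩, x, k, z⟩
    rw [Rz.face_succ, Rz.faceS_apply, rt_bare, rt_bare]
    rfl

theorem Rz.δ_rt (s : ℕ) {r : MonoidAlgebra c.O c.GG} (hr : r ∈ Ce c R.U)
    (φ : Amb c (R.D' D s) (R.Z' Z s)) : R.δ s (rt c _ _ r φ) = rt c _ _ r (R.δ s φ) := by
  rw [Rz.δ, LinearMap.sum_apply, LinearMap.sum_apply, map_sum]
  refine Finset.sum_congr rfl fun j _ => ?_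
  rw [LinearMap.smul_apply, LinearMap.smul_apply, map_zsmul, c3_face_rt R s hr]

theorem Rz.ε_rt (r : MonoidAlgebra c.O c.GG) (φ : Amb c D Z) :
    R.ε (rt c _ _ r φ) = rt c _ _ r (R.ε φ) := by
  ext ⟨⟨d, a⟩, x, k, z⟩
  rw [Rz.ε_apply, rt_bare, rt_bare]
  rfl
/- END C3 -/

/- MODULE C4 -/
private theorem c4_sum {N M : Type} [AddCommGroup N] [Module c.O N] [AddCommGroup M] [Module c.O M]
    {n : ℕ} (f : Fin n → N →ₗ[c.O] M) (P : Submodule c.O M) (x : N) (h : ∀ j, f j x ∈ P) :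
    (∑ j : Fin n, (-1 : ℤ) ^ (j : ℕ) • f j) x ∈ P := by
  rw [LinearMap.sum_apply]
  refine P.sum_mem fun j _ => ?_
  rw [LinearMap.smul_apply]
  exact P.toAddSubgroup.zsmul_mem (h j) _

private theorem c4_comm (a : c.K) (ha : a ∈ R.H) (u : c.K) (hu : u ∈ R.U) (x : c.GG) :
    x * (a : c.GG) * (u : c.GG) = x * (u : c.GG) * (a : c.GG) := by
  have h1 : (a : c.GG) * (u : c.GG) = (u : c.GG) * (a : c.GG) :=
    congrArg Subtype.val (R.comm a ha u hu)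
  rw [mul_assoc, h1, mul_assoc]

private theorem c4_tau (a : c.K) (ha : a ∈ R.H) (u : c.K) (hu : u ∈ R.U) (w : c.W) :
    c.τ u (c.τ a⁻¹ w) = c.τ a⁻¹ (c.τ u w) := by
  have h1 : u * a⁻¹ = a⁻¹ * u := (R.comm a⁻¹ (R.H.inv_mem ha) u hu).symm
  have h2 : c.τ (u * a⁻¹) w = c.τ (a⁻¹ * u) w := by rw [h1]
  rw [map_mul, map_mul] at h2
  exact h2

theorem Rz.δ_mem (s : ℕ) {φ : Amb c (R.D' D s) (R.Z' Z s)} (h : φ ∈ (Md c R.H _ _).N) :
    R.δ s φ ∈ (Md c R.H (R.D' D (s + 1)) (R.Z' Z (s + 1))).N := by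
  refine c4_sum (fun j => R.face s j) _ φ fun j => ?_
  refine Fin.cases ?_ (fun i => ?_) j
  · rw [R.face_zero]
    rintro a ha ⟨d, b⟩ x ⟨k, z⟩
    rw [R.face0_apply, R.face0_apply, c4_comm R a ha _ (k 0).2]
    rw [h a ha]
    exact c4_tau R a ha _ (k 0).2 _
  · rw [R.face_succ]
    rintro a ha ⟨d, b⟩ x ⟨k, z⟩
    rw [R.faceS_apply, R.faceS_apply, h a ha]

theorem Rz.hh_mem (s : ℕ) {φ : Amb c (R.D' D (s + 1)) (R.Z' Z (s + 1))}
    (h : φ ∈ (Md c R.H _ _).N) : R.hh s φ ∈ (Md c R.H (R.D' D s) (R.Z' Z s)).N := by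
  rintro a ha ⟨d, b⟩ x ⟨k, z⟩
  rw [R.hh_apply, R.hh_apply, R.κ_inv x a ha,
    c4_comm R a ha _ (R.U.inv_mem (R.κ x).2), h a ha]
  exact c4_tau R a ha _ (R.U.inv_mem (R.κ x).2) _

theorem Rz.ε_mem {φ : Amb c D Z} (h : φ ∈ (Md c R.H' _ _).N) :
    R.ε φ ∈ (Md c R.H (R.D' D 0) (R.Z' Z 0)).N := by
  rintro a ha ⟨d, b⟩ x ⟨k, z⟩
  rw [R.ε_apply, R.ε_apply]
  exact h a (R.leH ha) _ _ _

theorem Rz.ε_mem' {φ : Amb c D Z} (h : φ ∈ (Md c R.H _ _).N) :
    R.ε φ ∈ (Md c R.H (R.D' D 0) (R.Z' Z 0)).N := by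
  rintro a ha ⟨d, b⟩ x ⟨k, z⟩
  rw [R.ε_apply, R.ε_apply]
  exact h a ha _ _ _

private theorem c4_δ0 (φ : Amb c (R.D' D 0) (R.Z' Z 0)) : R.δ 0 φ = R.face0 0 φ - R.faceS 0 0 φ := by
  have h1 : R.δ (D := D) (Z := Z) 0 = (-1 : ℤ) ^ ((0 : Fin (0 + 1 + 1)) : ℕ) • R.face 0 0 +
      (-1 : ℤ) ^ ((1 : Fin (0 + 1 + 1)) : ℕ) • R.face 0 1 := Fin.sum_univ_two _
  rw [h1]
  have h2 : R.face (D := D) (Z := Z) 0 1 = R.faceS 0 0 := rfl
  rw [h2, R.face_zero]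
  simp [sub_eq_add_neg]

theorem Rz.δ_ε {φ : Amb c D Z} (h : φ ∈ (Md c R.H' _ _).N) : R.δ 0 (R.ε φ) = 0 := by
  rw [c4_δ0, sub_eq_zero]
  refine ContinuousMap.ext ?_
  rintro ⟨⟨d, b⟩, x, k, z⟩
  rw [R.face0_apply, R.faceS_apply, R.ε_apply, R.ε_apply, h _ (R.leU (k 0).2),
    ← Module.End.mul_apply, ← map_mul, mul_inv_cancel, map_one]
  rfl

theorem Rz.ε_inj {φ : Amb c D Z} (h : R.ε φ = 0) : φ = 0 := by
  refine ContinuousMap.ext ?_
  rintro ⟨d, x, z⟩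
  rw [← R.ε_apply φ d (fun _ => R.a₀) x Fin.elim0 z, h]
  rfl

/-- Exactness in degree zero: `ψ (d, x, z) = (κ x)⁻¹ φ ((d, a₀), x (κ x)⁻¹, z)`. -/
theorem Rz.ε_surj {φ : Amb c (R.D' D 0) (R.Z' Z 0)} (h : φ ∈ (Md c R.H _ _).N)
    (h0 : R.δ 0 φ = 0) : ∃ ψ ∈ (Md c R.H' D Z).N, R.ε ψ = φ := by
  rw [c4_δ0, sub_eq_zero] at h0
  have h1 : ∀ (d : D) (a b : R.A) (x : c.GG) (u : R.U) (k k' : Fin 0 → R.U) (z : Z),
      c.τ (u : c.K) (φ ((d, fun _ => b), x * (u : c.K), (k, z))) =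
        φ ((d, fun _ => a), x, (k', z)) := by
    intro d a b x u k k' z
    have h2 := DFunLike.congr_fun h0
      ((d, Fin.cons a (fun _ => b)), x, ((fun _ => u : Fin (0 + 1) → R.U), z))
    rw [R.face0_apply, R.faceS_apply] at h2
    have e1 : (fun i : Fin (0 + 1) => (Fin.cons a (fun _ => b) : Fin (0 + 1 + 1) → R.A) i.succ) =
        fun _ => b := funext fun i => Fin.cons_succ _ _ _
    have e2 : (fun i : Fin (0 + 1) => (Fin.cons a (fun _ => b) : Fin (0 + 1 + 1) → R.A)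
        ((0 : Fin (0 + 1)).succ.succAbove i)) = fun _ => a := by
      funext i
      have e3 : i = 0 := Fin.ext (by omega)
      subst e3
      rfl
    rw [e1, e2] at h2
    rw [Subsingleton.elim k (fun i => u⁻¹ * (fun _ => u : Fin (0 + 1) → R.U) i.succ),
      Subsingleton.elim k' (fun i => (fun _ => u : Fin (0 + 1) → R.U) ((0 : Fin (0 + 1)).succAbove i))]
    exact h2
  refine ⟨⟨fun y => φ ((y.1, fun _ => R.a₀), y.2.1, (Fin.elim0, y.2.2)), by fun_prop⟩, ?_, ?_⟩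
  · intro k hk d x z
    obtain ⟨a, ha, u, hu, rfl⟩ := R.split k hk
    change φ ((d, fun _ => R.a₀), x * ((a * u : c.K) : c.GG), (Fin.elim0, z)) =
      c.τ (a * u)⁻¹ (φ ((d, fun _ => R.a₀), x, (Fin.elim0, z)))
    have h3 := h1 d R.a₀ R.a₀ (x * (a : c.GG)) ⟨u, hu⟩ Fin.elim0 Fin.elim0 z
    rw [h a ha] at h3
    rw [mul_inv_rev, map_mul, Module.End.mul_apply, ← h3, ← Module.End.mul_apply, ← map_mul,
      inv_mul_cancel, map_one, Subgroup.coe_mul, ← mul_assoc]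
    rfl
  · refine ContinuousMap.ext ?_
    rintro ⟨⟨d, b⟩, x, k, z⟩
    rw [R.ε_apply]
    change φ ((d, fun _ => R.a₀), x, (Fin.elim0, z)) = φ ((d, b), x, (k, z))
    have h3 := h1 d (b 0) R.a₀ x 1 Fin.elim0 k z
    have e1 : (fun _ => b 0) = b := by
      funext i
      have e3 : i = 0 := Fin.ext (by omega)
      rw [e3]
    rw [e1] at h3
    have e2 : c.τ ((1 : R.U) : c.K) (φ ((d, fun _ => R.a₀), x * (((1 : R.U) : c.K) : c.GG),
        (Fin.elim0, z))) = φ ((d, fun _ => R.a₀), x, (Fin.elim0, z)) := by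
      rw [OneMemClass.coe_one, OneMemClass.coe_one, mul_one, map_one]
      rfl
    rw [← h3, e2]
/- END C4 -/

end sb

variable (D Z : Type) [TopologicalSpace D] [DiscreteTopology D] [MulAction c.Γ D]
  [TopologicalSpace Z]

/-- The kernel of `δ`. -/
def Rz.Q (s : ℕ) : Sb c (R.D' D s) (R.Z' Z s) where
  N := (Md c R.H _ _).N ⊓ LinearMap.ker (R.δ s)
  st := fun γ φ hφ => ⟨(Md c R.H _ _).st γ φ hφ.1, LinearMap.mem_ker.2 (by
    rw [R.δ_rho, LinearMap.mem_ker.1 hφ.2, map_zero])⟩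

/-- The operators for the resolution. -/
abbrev Rz.Op : Type := ↥(St c R.H ⊓ Ce c R.U)

/-- The operators on `Md H`. -/
def Rz.opM (s : ℕ) (r : R.Op) : Cx.Hom (Md c R.H (R.D' D s) (R.Z' Z s)).cx
    (Md c R.H (R.D' D s) (R.Z' Z s)).cx := Sb.op _ r.1 fun _ h => rt_mem_Md r.2.1 h

/-- The operators on the kernel of `δ`. -/
def Rz.opQ (s : ℕ) (r : R.Op) : Cx.Hom (R.Q D Z s).cx (R.Q D Z s).cx :=
  Sb.op _ r.1 fun φ h => ⟨rt_mem_Md r.2.1 h.1, LinearMap.mem_ker.2 (by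
    rw [R.δ_rt s r.2.2, LinearMap.mem_ker.1 h.2, map_zero])⟩

/-- The operators on `Md H'`. -/
def Rz.opB (r : R.Op) : Cx.Hom (Md c R.H' D Z).cx (Md c R.H' D Z).cx :=
  Sb.op _ r.1 fun _ h => rt_mem_Md (St_split R.leU R.split R.leH r.2.1 r.2.2) h

/- MODULE C5 -/
private theorem c5_opM (s : ℕ) (u : R.Op) (m : ℕ) (x : (Md c R.H (R.D' D s) (R.Z' Z s)).cx.C m)
    (g : Fin m → c.Γ) : Sb.vl ((R.opM D Z s u).f m x) g = rt c _ _ u.1 (Sb.vl x g) :=
  Sb.vl_op x g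

private theorem c5_opQ (s : ℕ) (u : R.Op) (m : ℕ) (x : (R.Q D Z s).cx.C m)
    (g : Fin m → c.Γ) : Sb.vl ((R.opQ D Z s u).f m x) g = rt c _ _ u.1 (Sb.vl x g) :=
  Sb.vl_op x g

private theorem c5_opB (u : R.Op) (m : ℕ) (x : (Md c R.H' D Z).cx.C m)
    (g : Fin m → c.Γ) : Sb.vl ((R.opB D Z u).f m x) g = rt c _ _ u.1 (Sb.vl x g) :=
  Sb.vl_op x g

/-- The short exact sequences `0 → Q_s → Md H → Q_(s+1) → 0`. -/
theorem Rz.exists_osesQ (s : ℕ) : ∃ T : OSES R.Op (R.Q D Z s).cx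
    (Md c R.H (R.D' D s) (R.Z' Z s)).cx (R.Q D Z (s + 1)).cx,
    T.a = R.opQ D Z s ∧ T.b = R.opM D Z s ∧ T.e = R.opQ D Z (s + 1) := by
  obtain ⟨i, hi⟩ := Sb.exists_hom (R.Q D Z s) (Md c R.H (R.D' D s) (R.Z' Z s))
    (AddMonoidHom.id _) (fun φ h => h.1) (fun _ _ _ => rfl)
  obtain ⟨p, hp⟩ := Sb.exists_hom (Md c R.H (R.D' D s) (R.Z' Z s)) (R.Q D Z (s + 1))
    (R.δ s).toAddMonoidHom (fun φ h => ⟨R.δ_mem s h, LinearMap.mem_ker.2 (R.δ_δ s φ)⟩)
    (fun γ φ _ => R.δ_rho s γ φ)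
  have hi' : ∀ m x g, Sb.vl (i.f m x) g = Sb.vl x g := hi
  have hp' : ∀ m x g, Sb.vl (p.f m x) g = R.δ s (Sb.vl x g) := hp
  refine ⟨OSES.mk ⟨i, p, ?_, ?_, ?_, ?_⟩ (R.opQ D Z s) (R.opM D Z s) (R.opQ D Z (s + 1)) ?_ ?_,
    rfl, rfl, rfl⟩
  · intro m x hx
    refine Sb.cx_ext fun g => ?_
    rw [← hi', hx]
    rfl
  · intro m y hy
    refine ⟨Sb.mk' (R.Q D Z s) (Sb.vl y) fun g => ⟨Sb.vl_mem y g, LinearMap.mem_ker.2 ?_⟩, ?_⟩
    · rw [← hp', hy]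
      rfl
    · refine Sb.cx_ext fun g => ?_
      rw [hi']
      rfl
  · intro m x
    refine Sb.cx_ext fun g => ?_
    rw [hp', hi']
    exact LinearMap.mem_ker.1 (Sb.vl_mem x g).2
  · intro m z
    refine ⟨Sb.mk' (Md c R.H (R.D' D s) (R.Z' Z s)) (fun g => R.hh s (Sb.vl z g))
      fun g => R.hh_mem s (Sb.vl_mem z g).1, ?_⟩
    refine Sb.cx_ext fun g => ?_
    rw [hp', Sb.vl_mk']
    have h1 := R.hh_δ s (Sb.vl z g)
    rw [LinearMap.mem_ker.1 (Sb.vl_mem z g).2, map_zero] at h1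
    exact (zero_add _).symm.trans h1
  · intro u m x
    refine Sb.cx_ext fun g => ?_
    exact (c5_opM R D Z s u m _ g).trans ((congrArg (rt c _ _ u.1) (hi' m x g)).trans
      ((c5_opQ R D Z s u m x g).symm.trans (hi' m _ g).symm))
  · intro u m y
    refine Sb.cx_ext fun g => ?_
    exact (c5_opQ R D Z (s + 1) u m _ g).trans ((congrArg (rt c _ _ u.1) (hp' m y g)).trans
      ((R.δ_rt s u.2.2 (Sb.vl y g)).symm.trans ((congrArg (R.δ s)
        (c5_opM R D Z s u m y g).symm).trans (hp' m _ g).symm)))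

/-- The short exact sequence `0 → Md H' → Md H → Q_1 → 0`. -/
theorem Rz.exists_osesB : ∃ T : OSES R.Op (Md c R.H' D Z).cx
    (Md c R.H (R.D' D 0) (R.Z' Z 0)).cx (R.Q D Z 1).cx,
    T.a = R.opB D Z ∧ T.b = R.opM D Z 0 ∧ T.e = R.opQ D Z 1 ∧
      ∀ m x g, Sb.vl (T.i.f m x) g = R.ε (Sb.vl x g) := by
  obtain ⟨i, hi⟩ := Sb.exists_hom (Md c R.H' D Z) (Md c R.H (R.D' D 0) (R.Z' Z 0))
    (R.ε).toAddMonoidHom (fun φ h => R.ε_mem h) (fun γ φ _ => R.ε_rho γ φ)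
  obtain ⟨p, hp⟩ := Sb.exists_hom (Md c R.H (R.D' D 0) (R.Z' Z 0)) (R.Q D Z 1)
    (R.δ 0).toAddMonoidHom (fun φ h => ⟨R.δ_mem 0 h, LinearMap.mem_ker.2 (R.δ_δ 0 φ)⟩)
    (fun γ φ _ => R.δ_rho 0 γ φ)
  have hi' : ∀ m x g, Sb.vl (i.f m x) g = R.ε (Sb.vl x g) := hi
  have hp' : ∀ m x g, Sb.vl (p.f m x) g = R.δ 0 (Sb.vl x g) := hp
  refine ⟨OSES.mk ⟨i, p, ?_, ?_, ?_, ?_⟩ (R.opB D Z) (R.opM D Z 0) (R.opQ D Z 1) ?_ ?_,
    rfl, rfl, rfl, hi'⟩
  · intro m x hx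
    refine Sb.cx_ext fun g => ?_
    refine R.ε_inj ?_
    rw [← hi', hx]
    rfl
  · intro m y hy
    have h1 : ∀ g, ∃ ψ ∈ (Md c R.H' D Z).N, R.ε ψ = Sb.vl y g := by
      intro g
      refine R.ε_surj (Sb.vl_mem y g) ?_
      rw [← hp', hy]
      rfl
    choose f hf hf' using h1
    refine ⟨Sb.mk' (Md c R.H' D Z) f hf, ?_⟩
    refine Sb.cx_ext fun g => ?_
    rw [hi', Sb.vl_mk', hf']
  · intro m x
    refine Sb.cx_ext fun g => ?_
    rw [hp', hi', R.δ_ε (Sb.vl_mem x g)]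
    rfl
  · intro m z
    refine ⟨Sb.mk' (Md c R.H (R.D' D 0) (R.Z' Z 0)) (fun g => R.hh 0 (Sb.vl z g))
      fun g => R.hh_mem 0 (Sb.vl_mem z g).1, ?_⟩
    refine Sb.cx_ext fun g => ?_
    rw [hp', Sb.vl_mk']
    have h1 := R.hh_δ 0 (Sb.vl z g)
    have h2 : R.δ (0 + 1) (Sb.vl z g) = 0 := LinearMap.mem_ker.1 (Sb.vl_mem z g).2
    rw [h2, map_zero] at h1
    exact (zero_add _).symm.trans h1
  · intro u m x
    refine Sb.cx_ext fun g => ?_
    exact (c5_opM R D Z 0 u m _ g).trans ((congrArg (rt c _ _ u.1) (hi' m x g)).trans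
      ((R.ε_rt u.1 (Sb.vl x g)).symm.trans ((congrArg R.ε
        (c5_opB R D Z u m x g).symm).trans (hi' m _ g).symm)))
  · intro u m y
    refine Sb.cx_ext fun g => ?_
    exact (c5_opQ R D Z 1 u m _ g).trans ((congrArg (rt c _ _ u.1) (hp' m y g)).trans
      ((R.δ_rt 0 u.2.2 (Sb.vl y g)).symm.trans ((congrArg (R.δ 0)
        (c5_opM R D Z 0 u m y g).symm).trans (hp' m _ g).symm)))
/- END C5 -/

/-- The operator `r` kills the class of the cochain `x`. -/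
def Kil {D Z : Type} [TopologicalSpace D] [DiscreteTopology D] [MulAction c.Γ D]
    [TopologicalSpace Z] (M : Sb c D Z) (r : MonoidAlgebra c.O c.GG) {j : ℕ} (x : M.cx.C j) :
    Prop := ∃ x' ∈ M.cx.Bg j, ∀ g, Sb.vl x' g = rt c D Z r (Sb.vl x g)

/-- The group `P` acts trivially on the cohomology of `Md H`. -/
def PTriv (c : Ctx) (H : Subgroup c.K) (P : Subgroup c.GG) (j : ℕ) : Prop :=
  ∀ (D : Type) [TopologicalSpace D] [DiscreteTopology D] [MulAction c.Γ D],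
    (∀ γ ∈ c.Γ₁, ∀ d : D, γ • d = d) → ∀ (Z : Type) [TopologicalSpace Z],
    ∀ p ∈ P, ∀ x ∈ (Md c H D Z).cx.Zg j,
      Kil (Md c H D Z) (MonoidAlgebra.single p 1 - 1) x

/-- Every class in the cohomology of `Md H` is killed by an operator in `G`. -/
def DeadM (c : Ctx) (H : Subgroup c.K) (G : MonoidAlgebra c.O c.GG → Prop) (j : ℕ) : Prop :=
  ∀ (D : Type) [TopologicalSpace D] [DiscreteTopology D] [MulAction c.Γ D],
    (∀ γ ∈ c.Γ₁, ∀ d : D, γ • d = d) → ∀ (Z : Type) [TopologicalSpace Z],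
    ∀ x ∈ (Md c H D Z).cx.Zg j, ∃ r, G r ∧ Kil (Md c H D Z) r x

/- MODULE C6 -/
/-- The operator `p - 1`. -/
private def c6_u {P : Subgroup c.GG}
    (hPH : ∀ p ∈ P, ∀ k ∈ R.H', (k : c.GG) * p = p * (k : c.GG)) (p : P) : R.Op :=
  ⟨MonoidAlgebra.single (p : c.GG) 1 - 1,
    sub_mem (Algebra.mem_inf.2 ⟨single_mem_St (fun k hk => hPH p p.2 k (R.leH hk)) 1,
      single_mem_Ce (fun k hk => hPH p p.2 k (R.leU hk)) 1⟩) (one_mem _)⟩

private theorem c6_mem {P : Subgroup c.GG}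
    (hPH : ∀ p ∈ P, ∀ k ∈ R.H', (k : c.GG) * p = p * (k : c.GG)) (p : P) :
    MonoidAlgebra.single (p : c.GG) (1 : c.O) ∈ St c R.H ⊓ Ce c R.U :=
  Algebra.mem_inf.2 ⟨single_mem_St (fun k hk => hPH p p.2 k (R.leH hk)) 1,
      single_mem_Ce (fun k hk => hPH p p.2 k (R.leU hk)) 1⟩

private theorem c6_one {D Z : Type} [TopologicalSpace D] [TopologicalSpace Z]
    (φ : Amb c D Z) : rt c D Z (MonoidAlgebra.single (1 : c.GG) 1) φ = φ := by
  rw [← MonoidAlgebra.one_def, map_one, Module.End.one_apply]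

private theorem c6_mul {D Z : Type} [TopologicalSpace D] [TopologicalSpace Z] (p q : c.GG)
    (φ : Amb c D Z) : rt c D Z (MonoidAlgebra.single (p * q) 1) φ =
      rt c D Z (MonoidAlgebra.single p 1) (rt c D Z (MonoidAlgebra.single q 1) φ) := by
  rw [← Module.End.mul_apply, ← map_mul, MonoidAlgebra.single_mul_single, mul_one]

private theorem c6_triv {P : Subgroup c.GG} (hP : commutator P = ⊤)
    (hPH : ∀ p ∈ P, ∀ k ∈ R.H', (k : c.GG) * p = p * (k : c.GG))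
    {D Z : Type} [TopologicalSpace D] [DiscreteTopology D] [MulAction c.Γ D]
    [TopologicalSpace Z] {L M : Cx} (N : Sb c D Z)
    (hN : ∀ r ∈ St c R.H ⊓ Ce c R.U, ∀ φ ∈ N.N, rt c D Z r φ ∈ N.N)
    (T : OSES R.Op N.cx L M)
    (hT : ∀ (u : R.Op) m x g, Sb.vl ((T.a u).f m x) g = rt c D Z u.1 (Sb.vl x g)) (m : ℕ)
    (hL : ∀ p : P, ∀ x ∈ L.Zg m, (T.b (c6_u R hPH p)).f m x ∈ L.Bg m)
    (hM : ∀ j, j < m → ∀ p : P, ∀ z ∈ M.Zg j, (T.e (c6_u R hPH p)).f j z ∈ M.Bg j) :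
    ∀ p : P, ∀ x ∈ N.cx.Zg m, (T.a (c6_u R hPH p)).f m x ∈ N.cx.Bg m := by
  refine OSES.triv hP T (c6_u R hPH) (fun p => Sb.op N (MonoidAlgebra.single (p : c.GG) 1)
    (hN _ (c6_mem R hPH p))) ?_ ?_ ?_ m hL hM
  · intro m x
    refine Sb.cx_ext fun g => ?_
    rw [Sb.vl_op, Subgroup.coe_one, c6_one]
  · intro p q m x
    refine Sb.cx_ext fun g => ?_
    rw [Sb.vl_op, Sb.vl_op, Sb.vl_op, Subgroup.coe_mul, c6_mul]
  · intro p m x
    refine Sb.cx_ext fun g => ?_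
    rw [hT, Sb.vl_sub, Sb.vl_op]
    change rt c D Z (MonoidAlgebra.single (p : c.GG) 1 - 1) _ = _
    rw [map_sub, map_one]
    rfl

/-- First induction: if the perfect group `P`, which commutes with `H'`, acts trivially on the
cohomology of all terms of the resolution then it acts trivially on the cohomology of `Md H'`. -/
theorem Rz.ptriv {P : Subgroup c.GG} (hP : commutator P = ⊤)
    (hPH : ∀ p ∈ P, ∀ k ∈ R.H', (k : c.GG) * p = p * (k : c.GG)) (i : ℕ)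
    (hT : ∀ j ≤ i, ∀ (D : Type) [TopologicalSpace D] [DiscreteTopology D] [MulAction c.Γ D],
      (∀ γ ∈ c.Γ₁, ∀ d : D, γ • d = d) → ∀ (Z : Type) [TopologicalSpace Z] (s : ℕ),
      ∀ p ∈ P, ∀ x ∈ (Md c R.H (R.D' D s) (R.Z' Z s)).cx.Zg j,
        Kil (Md c R.H (R.D' D s) (R.Z' Z s)) (MonoidAlgebra.single p 1 - 1) x) :
    ∀ j ≤ i, PTriv c R.H' P j := by
  intro j hj D _ _ _ hD Z _
  have hL : ∀ j ≤ i, ∀ s, ∀ p : P, ∀ x ∈ (Md c R.H (R.D' D s) (R.Z' Z s)).cx.Zg j,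
      (R.opM (D := D) (Z := Z) s (c6_u R hPH p)).f j x ∈
        (Md c R.H (R.D' D s) (R.Z' Z s)).cx.Bg j := by
    intro j hj s p x hx
    obtain ⟨x', hx', h⟩ := hT j hj D hD Z s p p.2 x hx
    have h2 : (R.opM (D := D) (Z := Z) s (c6_u R hPH p)).f j x = x' := by
      refine Sb.cx_ext fun g => ?_
      rw [h, Rz.opM, Sb.vl_op]
      rfl
    rw [h2]
    exact hx'
  have hQ : ∀ j ≤ i, ∀ s, ∀ p : P, ∀ x ∈ (R.Q D Z s).cx.Zg j,
      (R.opQ D Z s (c6_u R hPH p)).f j x ∈ (R.Q D Z s).cx.Bg j := by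
    intro j
    induction j using Nat.strong_induction_on with
    | _ j ih =>
      intro hj s
      obtain ⟨T, ha, hb, he⟩ := R.exists_osesQ D Z s
      have h := c6_triv R hP hPH (R.Q D Z s) (fun r hr φ h => ⟨rt_mem_Md hr.1 h.1,
        LinearMap.mem_ker.2 (by rw [R.δ_rt s hr.2, LinearMap.mem_ker.1 h.2, map_zero])⟩) T
        (fun u m x g => by rw [ha, Rz.opQ, Sb.vl_op]) j
        (fun p x hx => by rw [hb]; exact hL j hj s p x hx)
        (fun k hk p z hz => by rw [he]; exact ih k hk (hk.le.trans hj) (s + 1) p z hz)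
      intro p x hx
      have h2 := h p x hx
      rwa [ha] at h2
  obtain ⟨T, ha, hb, he, -⟩ := R.exists_osesB D Z
  have h := c6_triv R hP hPH (Md c R.H' D Z)
    (fun r hr φ h => rt_mem_Md (St_split R.leU R.split R.leH hr.1 hr.2) h) T
    (fun u m x g => by rw [ha, Rz.opB, Sb.vl_op]) j
    (fun p x hx => by rw [hb]; exact hL j hj 0 p x hx)
    (fun k hk p z hz => by rw [he]; exact hQ k (hk.le.trans hj) 1 p z hz)
  intro p hp x hx
  refine ⟨(T.a (c6_u R hPH ⟨p, hp⟩)).f j x, h ⟨p, hp⟩ x hx, fun g => ?_⟩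
  rw [ha, Rz.opB, Sb.vl_op]
  rfl
/- END C6 -/

/- MODULE C7 -/
private theorem c7_dead {D Z : Type} [TopologicalSpace D] [DiscreteTopology D]
    [MulAction c.Γ D] [TopologicalSpace Z] (M : Sb c D Z) (G : MonoidAlgebra c.O c.GG → Prop)
    (hG : ∀ r, G r → r ∈ St c R.H ⊓ Ce c R.U) (a : R.Op → Cx.Hom M.cx M.cx)
    (ha : ∀ (u : R.Op) m x g, Sb.vl ((a u).f m x) g = rt c D Z u.1 (Sb.vl x g)) (j : ℕ)
    (h : ∀ x ∈ M.cx.Zg j, ∃ r, G r ∧ Kil M r x) : DeadOn M.cx a (fun u => G u.1) j := by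
  intro x hx
  obtain ⟨r, hr, x', hx', h2⟩ := h x hx
  refine ⟨⟨r, hG r hr⟩, hr, ?_⟩
  have h3 : (a ⟨r, hG r hr⟩).f j x = x' := by
    refine Sb.cx_ext fun g => ?_
    rw [ha, h2]
  rw [h3]
  exact hx'

/-- Second induction: the kernel of the restriction from `Md H'` to `Md H` is dead. -/
theorem Rz.ker_dead (G : MonoidAlgebra c.O c.GG → Prop) (hG1 : G 1)
    (hGm : ∀ r r', G r → G r' → G (r * r')) (hG : ∀ r, G r → r ∈ St c R.H ⊓ Ce c R.U) (i : ℕ)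
    (hL : ∀ j, j < i → DeadM c R.H G j) (D : Type) [TopologicalSpace D] [DiscreteTopology D]
    [MulAction c.Γ D] (hD : ∀ γ ∈ c.Γ₁, ∀ d : D, γ • d = d) (Z : Type) [TopologicalSpace Z]
    (x : (Md c R.H' D Z).cx.C i) (hx : x ∈ (Md c R.H' D Z).cx.Zg i)
    (h : ∃ x' ∈ (Md c R.H D Z).cx.Bg i, ∀ g, Sb.vl x' g = Sb.vl x g) :
    ∃ r, G r ∧ Kil (Md c R.H' D Z) r x := by
  have hQ : ∀ j, j < i → ∀ s, DeadOn (R.Q D Z s).cx (R.opQ D Z s) (fun u => G u.1) j := by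
    intro j
    induction j using Nat.strong_induction_on with
    | _ j ih =>
      intro hj s
      obtain ⟨T, ha, hb, he⟩ := R.exists_osesQ D Z s
      have h1 := OSES.dead T (fun u => G u.1) (fun v u => v * u)
        (fun u v hu hv => hGm _ _ hv hu) (fun u v m x => by
          rw [ha]
          refine Sb.cx_ext fun g => ?_
          rw [Rz.opQ, Rz.opQ, Rz.opQ, Sb.vl_op, Sb.vl_op, Sb.vl_op, ← Module.End.mul_apply,
            ← map_mul]
          rfl) j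
        (by
          rw [hb]
          refine c7_dead R _ G hG _ (fun u m x g => by rw [Rz.opM, Sb.vl_op]) j ?_
          refine hL j hj _ ?_ _
          rintro γ hγ ⟨d, a⟩
          refine Prod.ext (hD γ hγ d) (funext fun i => R.trivA γ hγ (a i)))
        (fun k hk => by rw [he]; exact ih k hk (hk.trans hj) (s + 1))
      rwa [ha] at h1
  obtain ⟨T, ha, hb, he, hi⟩ := R.exists_osesB D Z
  obtain ⟨e, he'⟩ := Sb.exists_hom (Md c R.H D Z) (Md c R.H (R.D' D 0) (R.Z' Z 0))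
    (R.ε (D := D) (Z := Z)).toAddMonoidHom (fun φ h => R.ε_mem' h) (fun γ φ _ => R.ε_rho γ φ)
  obtain ⟨x', hx', h'⟩ := h
  have h1 : T.i.f i x ∈ (Md c R.H (R.D' D 0) (R.Z' Z 0)).cx.Bg i := by
    have h2 : T.i.f i x = e.f i x' := by
      refine Sb.cx_ext fun g => ?_
      rw [hi, he', h']
      rfl
    rw [h2]
    exact e.map_Bg hx'
  obtain ⟨u, hu, h2⟩ := OSES.ker_dead T (fun u => G u.1) 1 hG1 (fun m x => by
      rw [ha]
      refine Sb.cx_ext fun g => ?_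
      rw [Rz.opB, Sb.vl_op]
      change rt c D Z 1 _ = _
      rw [map_one]
      rfl) (fun m x => by
      rw [hb]
      refine Sb.cx_ext fun g => ?_
      rw [Rz.opM, Sb.vl_op]
      change rt c _ _ 1 _ = _
      rw [map_one]
      rfl) i (fun j hj => by rw [he]; exact hQ j hj 1) x hx h1
  refine ⟨u.1, hu, (T.a u).f i x, h2, fun g => ?_⟩
  rw [ha, Rz.opB, Sb.vl_op]
/- END C7 -/

end Pool.Agent.BRQ
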