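import Pool.Agent.BRQ.Hk
import Pool.Agent.CGN.CDev

/-!
# The adelic system of `GL_n` and the comparison with `GL_n(A)`
-/

set_option autoImplicit false

noncomputable section

namespace Pool.Agent.BRQ

open Matrix Filter Topology NumberField IsDedekindDomain
open Pool.Agent.BR80
open Pool.Agent.CG2 (Pl Fv Ov RPl)
open Pool.Agent.CGN (GQ GZ Idx HeckeAlg Chart Unram UnramOff)
open Pool.Agent.CGQ (Sys)

variable (F : Type) [Field F] [NumberField F] (n : ℕ)

variable {F n} in
/-- The determinant of an element of `GL_n(F)` at a real place. -/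
def rdet (w : RPl F) (γ : GL (Fin n) F) : ℝ :=
  InfinitePlace.embedding_of_isReal w.2 (γ : Matrix (Fin n) (Fin n) F).det

variable {F n} in
theorem rdet_ne (w : RPl F) (γ : GL (Fin n) F) : rdet w γ ≠ 0 := by
  have h := γ.isUnit.map (Matrix.detMonoidHom (R := F) (n := Fin n))
  have h2 : (γ : Matrix (Fin n) (Fin n) F).det ≠ 0 := h.ne_zero
  exact (map_ne_zero (InfinitePlace.embedding_of_isReal w.2)).2 h2

variable {F n} in
theorem rdet_mul (w : RPl F) (a b : GL (Fin n) F) : rdet w (a * b) = rdet w a * rdet w b := by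
  rw [rdet, Units.val_mul, Matrix.det_mul, map_mul]
  rfl

open Classical in
/-- The signs of the determinant at the real places. -/
def sgnG : GL (Fin n) F →* (RPl F → ℤˣ) where
  toFun γ w := if 0 < rdet w γ then 1 else -1
  map_one' := by
    funext w
    simp [rdet]
  map_mul' a b := by
    funext w
    have ha := rdet_ne w a
    have hb := rdet_ne w b
    simp only [rdet_mul, Pi.mul_apply]
    rcases lt_or_gt_of_ne ha with ha | ha <;> rcases lt_or_gt_of_ne hb with hb | hb
    · rw [if_pos (mul_pos_of_neg_of_neg ha hb), if_neg ha.not_gt, if_neg hb.not_gt]; rfl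
    · rw [if_neg (mul_neg_of_neg_of_pos ha hb).not_gt, if_neg ha.not_gt, if_pos hb]; rfl
    · rw [if_neg (mul_neg_of_pos_of_neg ha hb).not_gt, if_pos ha, if_neg hb.not_gt]; rfl
    · rw [if_pos (mul_pos ha hb), if_pos ha, if_pos hb]; rfl

/-- The adelic system of `GL_n` over `F`. -/
def sysG : Sys F where
  G := GL (Fin n) F
  grpG := inferInstance
  L := fun v => GQ n v
  grpL := fun v => inferInstance
  topL := fun v => inferInstance
  tgL := fun v => inferInstance
  B := fun v => GZ n v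
  isOpen_B := fun v => CGN.isOpen_GZ v
  isCompact_B := fun v => CGN.isCompact_GZ v
  loc := fun v => GeneralLinearGroup.map (algebraMap F (Fv v))
  fin := fun γ => by
    have h := ga_fin (GeneralLinearGroup.map (emA : F →+* AA F) γ)
    simp only [comp_map] at h
    exact h
  Sg := RPl F → ℤˣ
  grpS := inferInstance
  finS := inferInstance
  sgn := sgnG F n

/-- The standard chart. -/
def chG (S : Set (Pl F)) : Chart n (sysG F n) S := ⟨fun _ => MulEquiv.refl _⟩

/-- The signs as a discrete space. -/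
def DS (F : Type) [Field F] [NumberField F] : Type := RPl F → ℤˣ

instance : TopologicalSpace (DS F) := ⊥

instance : DiscreteTopology (DS F) := ⟨rfl⟩

/-- `GL_n(F)` acts on the signs. -/
instance : MulAction (GL (Fin n) F) (DS F) where
  smul γ a := (show RPl F → ℤˣ from sgnG F n γ * (show RPl F → ℤˣ from a))
  one_smul a := by
    change (sgnG F n 1 * (show RPl F → ℤˣ from a) : RPl F → ℤˣ) = a
    rw [map_one, one_mul]
  mul_smul γ γ' a := by
    change (sgnG F n (γ * γ') * (show RPl F → ℤˣ from a) : RPl F → ℤˣ) =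
      sgnG F n γ * (sgnG F n γ' * (show RPl F → ℤˣ from a))
    rw [map_mul, mul_assoc]

variable {F n}

theorem DS_smul (γ : GL (Fin n) F) (a : DS F) :
    γ • a = (show DS F from (sgnG F n γ * (show RPl F → ℤˣ from a) : RPl F → ℤˣ)) := rfl

/- MODULE T1 -/
/-- The group `GL_n(A)` is the restricted product (`exists_ga`, `ga_ext`, `ga_fin`). -/
theorem exists_E (F : Type) [Field F] [NumberField F] (n : ℕ) :
    ∃ E : (sysG F n).A ≃* GA F n, ∀ (g : (sysG F n).A) (v : Pl F),
      comp v (E g) = (show GQ n v from g.1 v) := by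
  let f : GA F n →* (sysG F n).A :=
    { toFun := fun g => ⟨fun v => comp v g, ga_fin g⟩
      map_one' := Subtype.ext (funext fun v => map_one (comp v))
      map_mul' := fun a b => Subtype.ext (funext fun v => map_mul (comp v) a b) }
  have hf : Function.Bijective f := by
    constructor
    · intro a b h
      refine ga_ext fun v => ?_
      exact congrFun (congrArg Subtype.val h) v
    · intro g
      obtain ⟨x, hx⟩ := exists_ga (fun v => (show GQ n v from g.1 v)) g.2
      exact ⟨x, Subtype.ext (funext fun v => hx v)⟩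
  refine ⟨(MulEquiv.ofBijective f hf).symm, fun g v => ?_⟩
  have h1 : f ((MulEquiv.ofBijective f hf).symm g) = g :=
    (MulEquiv.ofBijective f hf).apply_symm_apply g
  exact congrFun (congrArg Subtype.val h1) v
/- END T1 -/

/-- The isomorphism with `GL_n(A)`. -/
def EE (F : Type) [Field F] [NumberField F] (n : ℕ) : (sysG F n).A ≃* GA F n :=
  (exists_E F n).choose

theorem comp_EE (g : (sysG F n).A) (v : Pl F) : comp v (EE F n g) = (show GQ n v from g.1 v) :=
  (exists_E F n).choose_spec g v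

variable {S : Set (Pl F)} {O W : Type} [CommRing O] [AddCommGroup W] [Module O W]

/- MODULE T2 -/
theorem EE_diag (γ : GL (Fin n) F) : EE F n (CGQ.diag (𝒟 := sysG F n) γ) =
    GeneralLinearGroup.map (emA : F →+* AA F) γ := by
  refine ga_ext fun v => ?_
  rw [comp_EE, comp_map]
  rfl

theorem EE_sg (v : {v : Pl F // v ∉ S}) (h : GQ n v.1) :
    EE F n (CGN.sg (chG F n S) v h) = sgl v.1 h := by
  refine ga_ext fun w => ?_
  rw [comp_EE, CGN.sg_apply]
  by_cases hw : w = v.1
  · subst hw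
    rw [comp_sgl, CGQ.single_same]
    rfl
  · rw [comp_sgl_ne hw, CGQ.single_ne hw]
    rfl

/-- Continuity of the action. -/
private theorem t2_cont {G : Type} [Group G] [TopologicalSpace G] [IsTopologicalGroup G]
    {O W : Type} [CommRing O] [AddCommGroup W] [Module O W] [IsLocalRing O] [TopologicalSpace W]
    [IsTopologicalAddGroup W]
    (hb : ∀ U ∈ 𝓝 (0 : W), ∃ m : ℕ,
      (((IsLocalRing.maximalIdeal O ^ m • ⊤ : Submodule O W)) : Set W) ⊆ U)
    (hb' : ∀ m : ℕ, IsOpen ((((IsLocalRing.maximalIdeal O ^ m • ⊤ : Submodule O W)) : Set W)))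
    (τ : Representation O G W)
    (h : ∀ m : ℕ, ∀ᶠ k : G in 𝓝 1, ∀ w : W,
      τ k w - w ∈ (IsLocalRing.maximalIdeal O ^ m • ⊤ : Submodule O W)) :
    Continuous fun q : G × W => τ q.1 q.2 := by
  rw [continuous_iff_continuousAt]
  rintro ⟨k₀, w₀⟩ V hV
  rw [Filter.mem_map]
  have h1 : (fun x : W => τ k₀ w₀ + x) ⁻¹' V ∈ 𝓝 (0 : W) := by
    refine (continuous_const.add continuous_id).continuousAt ?_
    simpa using hV
  obtain ⟨m, hm⟩ := hb _ h1
  have hA : {k : G | ∀ w : W, τ (k₀⁻¹ * k) w - w ∈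
      (IsLocalRing.maximalIdeal O ^ m • ⊤ : Submodule O W)} ∈ 𝓝 k₀ := by
    have h2 : Tendsto (fun k : G => k₀⁻¹ * k) (𝓝 k₀) (𝓝 1) := by
      have h3 : Continuous fun k : G => k₀⁻¹ * k := continuous_const.mul continuous_id
      have h4 := h3.tendsto k₀
      rwa [inv_mul_cancel] at h4
    exact h2 (h m)
  have hB : {w : W | w - w₀ ∈ (IsLocalRing.maximalIdeal O ^ m • ⊤ : Submodule O W)} ∈ 𝓝 w₀ := by
    have h3 : Continuous fun w : W => w - w₀ := continuous_id.sub continuous_const
    refine ((hb' m).preimage h3).mem_nhds ?_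
    change w₀ - w₀ ∈ (IsLocalRing.maximalIdeal O ^ m • ⊤ : Submodule O W)
    rw [sub_self]
    exact Submodule.zero_mem _
  have hst : ∀ k : G, ∀ x ∈ (IsLocalRing.maximalIdeal O ^ m • ⊤ : Submodule O W),
      τ k x ∈ (IsLocalRing.maximalIdeal O ^ m • ⊤ : Submodule O W) := by
    intro k x hx
    have h5 : (IsLocalRing.maximalIdeal O ^ m • ⊤ : Submodule O W).map (τ k) ≤
        (IsLocalRing.maximalIdeal O ^ m • ⊤ : Submodule O W) := by
      rw [Submodule.map_smul'']
      exact Submodule.smul_mono le_rfl le_top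
    exact h5 ⟨x, hx, rfl⟩
  refine Filter.mem_of_superset (prod_mem_nhds hA hB) ?_
  rintro ⟨k, w⟩ ⟨hk, hw⟩
  have h6 : τ k w = τ k₀ w₀ + (τ k₀ (τ (k₀⁻¹ * k) w - w) + τ k₀ (w - w₀)) := by
    rw [← map_add, sub_add_sub_cancel, map_sub, ← Module.End.mul_apply, ← map_mul,
      mul_inv_cancel_left, add_sub_cancel]
  change τ k w ∈ V
  rw [h6]
  exact hm (Submodule.add_mem _ (hst _ _ (hk w)) (hst _ _ hw))

/-- The level and the coefficients as a `Lvl`: `K` is open by `isOpen_ga`, the action is continuous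
because `τ (k₀ k) (w₀ + w) - τ k₀ w₀ = τ k₀ (τ k (w₀ + w) - (w₀ + w)) + τ k₀ w`, and the submodules
`𝔪 ^ m W` are a basis at `0` (`hb`, `hb'`). -/
theorem exists_lvl [IsLocalRing O] [TopologicalSpace W] [IsTopologicalAddGroup W]
    [ContinuousConstSMul O W]
    (hb : ∀ U ∈ 𝓝 (0 : W), ∃ m : ℕ,
      (((IsLocalRing.maximalIdeal O ^ m • ⊤ : Submodule O W)) : Set W) ⊆ U)
    (hb' : ∀ m : ℕ, IsOpen ((((IsLocalRing.maximalIdeal O ^ m • ⊤ : Submodule O W)) : Set W)))
    (K : Subgroup (sysG F n).A)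
    (hK : ∃ U : ∀ v : Pl F, Subgroup ((sysG F n).L v),
      (∀ v, IsOpen (U v : Set ((sysG F n).L v))) ∧ {v | ¬ (sysG F n).B v ≤ U v}.Finite ∧
        ∀ k : (sysG F n).A, (∀ v, k.1 v ∈ U v) → k ∈ K)
    (τ : Representation O K W) (hU : UnramOff K τ (chG F n S))
    (hτ : CGN.Cont K τ (chG F n S)) :
    ∃ (L : Lvl F n S O W) (e : K ≃* L.K), (∀ k, ((e k : L.K) : GA F n) = EE F n k.1) ∧
      ∀ k, L.τ (e k) = τ k := by
  have hne : ∀ (U : ∀ v : Pl F, Subgroup ((sysG F n).L v)),
      (∀ v, IsOpen (U v : Set ((sysG F n).L v))) → {v | ¬ (sysG F n).B v ≤ U v}.Finite →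
      {g : GA F n | ∀ v, comp v g ∈ (show Subgroup (GQ n v) from U v)} ∈ 𝓝 (1 : GA F n) := by
    intro U h1 h2
    refine (isOpen_ga (fun v => (show Subgroup (GQ n v) from U v)) h1 h2).mem_nhds ?_
    intro v
    rw [map_one]
    exact Subgroup.one_mem _
  have hopen : IsOpen ((K.map (EE F n).toMonoidHom : Subgroup (GA F n)) : Set (GA F n)) := by
    obtain ⟨U, h1, h2, h3⟩ := hK
    refine Subgroup.isOpen_of_mem_nhds _ (g := 1) (Filter.mem_of_superset (hne U h1 h2) ?_)
    intro g hg
    refine ⟨(EE F n).symm g, h3 _ fun v => ?_, (EE F n).apply_symm_apply g⟩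
    have h4 := comp_EE ((EE F n).symm g) v
    rw [(EE F n).apply_symm_apply] at h4
    have h5 := hg v
    rw [h4] at h5
    exact h5
  let e : K ≃* (K.map (EE F n).toMonoidHom : Subgroup (GA F n)) := (EE F n).subgroupMap K
  have he : ∀ k, ((e k : (K.map (EE F n).toMonoidHom : Subgroup (GA F n))) : GA F n) =
      EE F n k.1 := fun k => rfl
  have hmem : ∀ v (hv : v ∉ S), ∀ k ∈ GZ n v,
      ∃ h : CGN.sg (chG F n S) ⟨v, hv⟩ k ∈ K, ((e ⟨CGN.sg (chG F n S) ⟨v, hv⟩ k, h⟩ :
        (K.map (EE F n).toMonoidHom : Subgroup (GA F n))) : GA F n) = sgl v k := by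
    intro v hv k hk
    refine ⟨(hU ⟨v, hv⟩).hyp.sg_mem hk, ?_⟩
    rw [he]
    exact EE_sg ⟨v, hv⟩ k
  have hmem' : ∀ v (_ : v ∉ S), ∀ k ∈ GZ n v,
      sgl v k ∈ (K.map (EE F n).toMonoidHom : Subgroup (GA F n)) := by
    intro v hv k hk
    obtain ⟨h, h1⟩ := hmem v hv k hk
    rw [← h1]
    exact Subtype.property _
  refine ⟨{ K := K.map (EE F n).toMonoidHom
            openK := hopen
            τ := τ.comp e.symm.toMonoidHom
            contτ := ?_
            le := ?_
            mem := hmem'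
            triv := ?_ }, e, he, ?_⟩
  · refine t2_cont hb hb' _ ?_
    intro m
    obtain ⟨U, h1, h2, -, h4⟩ := hτ m
    have h5 : (fun k : (K.map (EE F n).toMonoidHom : Subgroup (GA F n)) => (k : GA F n)) ⁻¹'
        {g : GA F n | ∀ v, comp v g ∈ (show Subgroup (GQ n v) from U v)} ∈
          𝓝 (1 : (K.map (EE F n).toMonoidHom : Subgroup (GA F n))) :=
      continuous_subtype_val.continuousAt (hne U h1 h2)
    filter_upwards [h5] with k hk w
    refine h4 (e.symm k) (fun v => ?_) w
    have h6 := hk v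
    have h7 : comp v (k : GA F n) = (show GQ n v from (e.symm k).1.1 v) := by
      have h8 := he (e.symm k)
      rw [e.apply_symm_apply] at h8
      rw [h8]
      exact comp_EE _ v
    exact (show (show GQ n v from (e.symm k).1.1 v) ∈ (show Subgroup (GQ n v) from U v) from
      h7 ▸ h6)
  · intro v hv k hk
    obtain ⟨k', hk', rfl⟩ := hk
    have h1 := (hU ⟨v, hv⟩).hyp.le k' hk'
    have h2 := comp_EE k' v
    change comp v (EE F n k') ∈ GZ n v
    rw [h2]
    exact h1
  · intro v hv k hk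
    obtain ⟨h, h1⟩ := hmem v hv k hk
    have h2 : e.symm ⟨sgl v k, hmem' v hv k hk⟩ = ⟨CGN.sg (chG F n S) ⟨v, hv⟩ k, h⟩ := by
      rw [MulEquiv.symm_apply_eq]
      exact Subtype.ext h1.symm
    change τ (e.symm ⟨sgl v k, hmem' v hv k hk⟩) = 1
    rw [h2]
    exact (hU ⟨v, hv⟩).triv _ hk
  · intro k
    change τ (e.symm (e k)) = τ k
    rw [MulEquiv.symm_apply_apply]
/- END T2 -/

end Pool.Agent.BRQ
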