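import Pool.Agent.BRQ.Sy
import Pool.Agent.BRQ.Gc
import Pool.Agent.BRQ.Dd

/-!
# Transfer from the cochains of `Md` to the cohomology of the modules `Forms`
-/

set_option autoImplicit false

noncomputable section

namespace Pool.Agent.BRQ

open Matrix Filter Topology NumberField IsDedekindDomain
open Pool.Agent.BR80
open Pool.Agent.CG2 (Pl Fv Ov RPl)
open Pool.Agent.CGN (GQ GZ Idx HeckeAlg Chart Unram UnramOff)
open Pool.Agent.CGQ (Sys Forms)

variable {F : Type} [Field F] [NumberField F] {n : ℕ} {S : Set (Pl F)} {O W : Type} [CommRing O]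
  [AddCommGroup W] [Module O W] [TopologicalSpace W] [IsTopologicalAddGroup W]
  [ContinuousConstSMul O W]

instance (L : Lvl F n S O W) : MulAction L.ctx.Γ (DS F) :=
  inferInstanceAs (MulAction (GL (Fin n) F) (DS F))

/-- The map from functions on `Pt` to functions on `DS × GL_n(A) × Unit`. -/
def thf (f : (sysG F n).Pt → W) : DS F × GA F n × Unit → W := fun y =>
  f (show (sysG F n).Pt from ((show RPl F → ℤˣ from y.1), (EE F n).symm y.2.1))

/- MODULE T3 -/
private theorem t3_pt {K : Subgroup (sysG F n).A} {τ : Representation O K W} (L : Lvl F n S O W)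
    (e : K ≃* L.K) (he : ∀ k, ((e k : L.K) : GA F n) = EE F n k.1) (hτ : ∀ k, L.τ (e k) = τ k)
    (f : Forms K τ) (d : RPl F → ℤˣ) (x : GA F n) (k : L.K) :
    f.1 (show (sysG F n).Pt from (d, (EE F n).symm (x * (k : GA F n)))) =
      L.τ k⁻¹ (f.1 (show (sysG F n).Pt from (d, (EE F n).symm x))) := by
  obtain ⟨κ, rfl⟩ := e.surjective k
  have h1 : (EE F n).symm (x * ((e κ : L.K) : GA F n)) = (EE F n).symm x * κ.1 := by
    rw [map_mul, he, MulEquiv.symm_apply_apply]
  have h2 : f.1 (show (sysG F n).Pt from (d, (EE F n).symm x * κ.1)) =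
      τ κ⁻¹ (f.1 (show (sysG F n).Pt from (d, (EE F n).symm x))) :=
    f.2 (show (sysG F n).Pt from (d, (EE F n).symm x)) κ
  rw [h1, h2, ← map_inv, hτ]

private theorem t3_cont {K : Subgroup (sysG F n).A} {τ : Representation O K W} (L : Lvl F n S O W)
    (e : K ≃* L.K) (he : ∀ k, ((e k : L.K) : GA F n) = EE F n k.1) (hτ : ∀ k, L.τ (e k) = τ k)
    (f : Forms K τ) : Continuous (thf f.1) := by
  have h1 : ∀ d : RPl F → ℤˣ, Continuous fun x : GA F n =>
      f.1 (show (sysG F n).Pt from (d, (EE F n).symm x)) := by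
    intro d
    rw [continuous_iff_continuousAt]
    intro x₀
    have hop : IsOpenEmbedding fun k : L.K => x₀ * (k : GA F n) :=
      (Homeomorph.mulLeft x₀).isOpenEmbedding.comp L.openK.isOpenEmbedding_subtypeVal
    have h2 : ContinuousAt ((fun x : GA F n =>
        f.1 (show (sysG F n).Pt from (d, (EE F n).symm x))) ∘
          fun k : L.K => x₀ * (k : GA F n)) 1 := by
      have h3 : ((fun x : GA F n =>
          f.1 (show (sysG F n).Pt from (d, (EE F n).symm x))) ∘
            fun k : L.K => x₀ * (k : GA F n)) =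
          fun k : L.K => L.τ k⁻¹ (f.1 (show (sysG F n).Pt from (d, (EE F n).symm x₀))) :=
        funext fun k => t3_pt L e he hτ f d x₀ k
      rw [h3]
      exact (L.contτ.comp (continuous_inv.prodMk continuous_const)).continuousAt
    have h3 := (hop.continuousAt_iff (x := (1 : L.K))).1 h2
    have h4 : x₀ * ((1 : L.K) : GA F n) = x₀ := by
      rw [Subgroup.coe_one, mul_one]
    rwa [h4] at h3
  have h2 : Continuous fun y : DS F × GA F n =>
      f.1 (show (sysG F n).Pt from ((show RPl F → ℤˣ from y.1), (EE F n).symm y.2)) :=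
    continuous_prod_of_discrete_left.2 fun d => h1 d
  exact h2.comp (continuous_fst.prodMk (continuous_fst.comp continuous_snd))

/-- The elements of `Forms` are the elements of `Md` (they are continuous because the action of `K` is
continuous and `K` is open). -/
theorem exists_theta {K : Subgroup (sysG F n).A} {τ : Representation O K W} (L : Lvl F n S O W)
    (e : K ≃* L.K) (he : ∀ k, ((e k : L.K) : GA F n) = EE F n k.1) (hτ : ∀ k, L.τ (e k) = τ k) :
    ∃ θ : Forms K τ ≃+ (Md L.ctx (L.KT ∅) (DS F) Unit).N,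
      ∀ (f : Forms K τ) (d : DS F) (x : GA F n) (z : Unit),
        (θ f).1 (d, (show L.ctx.GG from x), z) = thf f.1 (d, x, z) := by
  have hinv : ∀ φ : Amb L.ctx (DS F) Unit, φ ∈ (Md L.ctx (L.KT ∅) (DS F) Unit).N →
      (fun y : (sysG F n).Pt => (show W from
        φ ((show DS F from (show RPl F → ℤˣ from y.1)), (show L.ctx.GG from EE F n y.2), ()))) ∈
        Forms K τ := by
    intro φ hφ y k
    have h1 := hφ (show L.ctx.K from e k) (fun v hv => absurd hv (Finset.notMem_empty v))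
      (show DS F from (show RPl F → ℤˣ from y.1)) (show L.ctx.GG from EE F n y.2) ()
    have h2 : EE F n (y.2 * k.1) = EE F n y.2 * ((e k : L.K) : GA F n) := by
      rw [map_mul, he]
    have h3 : τ k⁻¹ = L.τ (e k)⁻¹ := by rw [← map_inv, hτ]
    change (show W from φ ((show DS F from (show RPl F → ℤˣ from y.1)),
      (show L.ctx.GG from EE F n (y.2 * k.1)), ())) = _
    rw [h2, h3]
    exact h1
  refine ⟨⟨⟨fun f => ⟨⟨thf f.1, t3_cont L e he hτ f⟩, ?_⟩, fun φ => ⟨_, hinv φ.1 φ.2⟩, ?_, ?_⟩,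
    ?_⟩, ?_⟩
  · intro k _ d x z
    exact t3_pt L e he hτ f d x k
  · intro f
    apply Subtype.ext
    funext y
    change f.1 (show (sysG F n).Pt from (_, (EE F n).symm (EE F n y.2))) = f.1 y
    rw [MulEquiv.symm_apply_apply]
  · intro φ
    apply Subtype.ext
    refine ContinuousMap.ext fun y => ?_
    exact congrArg (fun u : GA F n => (show W from φ.1 (y.1, (show L.ctx.GG from u), ())))
      (MulEquiv.apply_symm_apply (EE F n) y.2.1)
  · intro f f'
    apply Subtype.ext
    refine ContinuousMap.ext fun y => ?_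
    rfl
  · intro f d x z
    rfl
/- END T3 -/

/- MODULE T4 -/
private theorem t4_rho {K : Subgroup (sysG F n).A} {τ : Representation O K W} (L : Lvl F n S O W)
    (θ : Forms K τ ≃+ (Md L.ctx (L.KT ∅) (DS F) Unit).N)
    (hθ : ∀ (f : Forms K τ) (d : DS F) (x : GA F n) (z : Unit),
      (θ f).1 (d, (show L.ctx.GG from x), z) = thf f.1 (d, x, z))
    (γ : (sysG F n).G) (f : Forms K τ) :
    (θ (CGQ.formsRep K τ γ f)).1 =
      rho L.ctx (DS F) Unit (show L.ctx.Γ from γ) (θ f).1 := by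
  refine ContinuousMap.ext fun y => ?_
  obtain ⟨d, x, z⟩ := y
  refine (hθ _ d x z).trans ?_
  refine Eq.trans ?_ (rho_apply (show L.ctx.Γ from γ) (θ f).1 d x z).symm
  refine Eq.trans ?_ (hθ f _ _ z).symm
  have h1 : (EE F n).symm ((GeneralLinearGroup.map (emA : F →+* AA F)
      (show GL (Fin n) F from γ))⁻¹ * (show GA F n from x)) =
      CGQ.diag (𝒟 := sysG F n) γ⁻¹ * (EE F n).symm x := by
    rw [← EE_diag, map_mul, map_inv, MulEquiv.symm_apply_apply, map_inv]
  change f.1 (CGQ.act γ⁻¹ (show (sysG F n).Pt from ((show RPl F → ℤˣ from d),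
    (EE F n).symm x))) = f.1 (show (sysG F n).Pt from
      (_, (EE F n).symm ((GeneralLinearGroup.map (emA : F →+* AA F)
      (show GL (Fin n) F from γ))⁻¹ * (show GA F n from x))))
  rw [h1]
  rfl

private theorem t4_smul {K : Subgroup (sysG F n).A} {τ : Representation O K W} (L : Lvl F n S O W)
    (θ : Forms K τ ≃+ (Md L.ctx (L.KT ∅) (DS F) Unit).N)
    (hθ : ∀ (f : Forms K τ) (d : DS F) (x : GA F n) (z : Unit),
      (θ f).1 (d, (show L.ctx.GG from x), z) = thf f.1 (d, x, z))
    (a : O) (f : Forms K τ) :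
    (θ (a • f)).1 = (show L.ctx.O from a) • (θ f).1 := by
  refine ContinuousMap.ext fun y => ?_
  obtain ⟨d, x, z⟩ := y
  refine (hθ _ d x z).trans ?_
  exact (congrArg (fun w : W => a • w) (hθ f d x z)).symm

private theorem t4_hk {K : Subgroup (sysG F n).A} {τ : Representation O K W}
    (hU : UnramOff K τ (chG F n S)) (L : Lvl F n S O W)
    (θ : Forms K τ ≃+ (Md L.ctx (L.KT ∅) (DS F) Unit).N)
    (hθ : ∀ (f : Forms K τ) (d : DS F) (x : GA F n) (z : Unit),
      (θ f).1 (d, (show L.ctx.GG from x), z) = thf f.1 (d, x, z))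
    (t : Idx (F := F) n S) (f : Forms K τ) :
    (θ (CGN.heckeLin K τ hU t f)).1 =
      rt L.ctx (DS F) Unit (show MonoidAlgebra L.ctx.O L.ctx.GG from hk O t) (θ f).1 := by
  have h0 : rt L.ctx (DS F) Unit (show MonoidAlgebra L.ctx.O L.ctx.GG from hk O t) =
      ∑ c ∈ (CGN.cosets_finite t.1.1 t.2).toFinset,
        rt L.ctx (DS F) Unit (MonoidAlgebra.single (show L.ctx.GG from
          sgl t.1.1 (Quotient.out c)) (1 : L.ctx.O)) := map_sum (rt L.ctx (DS F) Unit) _ _
  refine ContinuousMap.ext fun y => ?_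
  obtain ⟨d, x, z⟩ := y
  refine (hθ _ d x z).trans ?_
  rw [h0, LinearMap.sum_apply, ContinuousMap.sum_apply]
  refine Finset.sum_congr rfl fun c _ => ?_
  rw [rt_single, one_smul, rtHom_apply]
  refine Eq.trans ?_ (hθ f d _ z).symm
  have h1 : (EE F n).symm ((show GA F n from x) * sgl t.1.1 (Quotient.out c)) =
      (EE F n).symm x * CGN.sg (chG F n S) t.1 (Quotient.out c) := by
    rw [← EE_sg, map_mul, MulEquiv.symm_apply_apply]
  change f.1 (CGQ.rt (show (sysG F n).Pt from ((show RPl F → ℤˣ from d),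
    (EE F n).symm x)) (CGN.sg (chG F n S) t.1 (Quotient.out c))) =
      f.1 (show (sysG F n).Pt from ((show RPl F → ℤˣ from d),
        (EE F n).symm ((show GA F n from x) * sgl t.1.1 (Quotient.out c))))
  rw [h1]
  rfl

/-- The cochain of `Md` attached to a cochain of `Forms`. -/
private def t4_x {K : Subgroup (sysG F n).A} {τ : Representation O K W} (L : Lvl F n S O W)
    (θ : Forms K τ ≃+ (Md L.ctx (L.KT ∅) (DS F) Unit).N) (i : ℕ)
    (x : (Fin i → (sysG F n).G) → CGQ.coeff K τ) : (Md L.ctx (L.KT ∅) (DS F) Unit).cx.C i :=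
  (Md L.ctx (L.KT ∅) (DS F) Unit).mk'
    (fun g => (θ (show Forms K τ from x (show Fin i → (sysG F n).G from g))).1)
    fun g => (θ (show Forms K τ from x (show Fin i → (sysG F n).G from g))).2

private theorem t4_d {K : Subgroup (sysG F n).A} {τ : Representation O K W} (L : Lvl F n S O W)
    (θ : Forms K τ ≃+ (Md L.ctx (L.KT ∅) (DS F) Unit).N)
    (hθ : ∀ (f : Forms K τ) (d : DS F) (x : GA F n) (z : Unit),
      (θ f).1 (d, (show L.ctx.GG from x), z) = thf f.1 (d, x, z)) (i : ℕ)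
    (x : (Fin i → (sysG F n).G) → CGQ.coeff K τ) :
    (Md L.ctx (L.KT ∅) (DS F) Unit).cx.d i (t4_x L θ i x) =
      t4_x L θ (i + 1) (dC (CGQ.coeff K τ) i x) := by
  apply Sb.cx_ext
  intro g
  rw [Sb.vl_d]
  change _ = (θ (show Forms K τ from dC (CGQ.coeff K τ) i x
    (show Fin (i + 1) → (sysG F n).G from g))).1
  have h1 : (show Forms K τ from dC (CGQ.coeff K τ) i x
      (show Fin (i + 1) → (sysG F n).G from g)) =
      CGQ.formsRep K τ (show (sysG F n).G from g 0)
        (show Forms K τ from x fun j => (show (sysG F n).G from g j.succ)) +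
      ∑ j : Fin (i + 1), (-1 : ℤ) ^ ((j : ℕ) + 1) • (show Forms K τ from
        x (Fin.contractNth j (· * ·) (show Fin (i + 1) → (sysG F n).G from g))) := rfl
  rw [h1, map_add, map_sum, Submodule.coe_add, Submodule.coe_sum, t4_rho L θ hθ]
  refine congrArg₂ (· + ·) rfl (Finset.sum_congr rfl fun j _ => ?_)
  rw [map_zsmul]
  rfl

private theorem t4_inj {K : Subgroup (sysG F n).A} {τ : Representation O K W} (L : Lvl F n S O W)
    (θ : Forms K τ ≃+ (Md L.ctx (L.KT ∅) (DS F) Unit).N) (i : ℕ)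
    (x y : (Fin i → (sysG F n).G) → CGQ.coeff K τ) (h : t4_x L θ i x = t4_x L θ i y) : x = y := by
  funext g
  have h1 : (θ (show Forms K τ from x g)).1 = (θ (show Forms K τ from y g)).1 :=
    congrArg (fun u => Sb.vl u (show Fin i → L.ctx.Γ from g)) h
  exact θ.injective (Subtype.ext h1)

private theorem t4_zero {K : Subgroup (sysG F n).A} {τ : Representation O K W} (L : Lvl F n S O W)
    (θ : Forms K τ ≃+ (Md L.ctx (L.KT ∅) (DS F) Unit).N) (i : ℕ) :
    t4_x L θ i (0 : (Fin i → (sysG F n).G) → CGQ.coeff K τ) = 0 := by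
  apply Sb.cx_ext
  intro g
  change (θ 0).1 = 0
  rw [map_zero]
  rfl

/-- A cochain of `Md` comes from a cochain of `Forms`. -/
private theorem t4_surj {K : Subgroup (sysG F n).A} {τ : Representation O K W}
    (L : Lvl F n S O W) (θ : Forms K τ ≃+ (Md L.ctx (L.KT ∅) (DS F) Unit).N) (i : ℕ)
    (y : (Md L.ctx (L.KT ∅) (DS F) Unit).cx.C i) :
    ∃ x : (Fin i → (sysG F n).G) → CGQ.coeff K τ, t4_x L θ i x = y := by
  refine ⟨fun g => (show CGQ.coeff K τ from (show Forms K τ from θ.symm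
    ⟨Sb.vl y (show Fin i → L.ctx.Γ from g), Sb.vl_mem _ _⟩)), ?_⟩
  apply Sb.cx_ext
  intro g
  change (θ (θ.symm ⟨Sb.vl y g, Sb.vl_mem _ _⟩)).1 = _
  rw [AddEquiv.apply_symm_apply]

private theorem t4_word {K : Subgroup (sysG F n).A} {τ : Representation O K W}
    (hU : UnramOff K τ (chG F n S)) (L : Lvl F n S O W)
    (θ : Forms K τ ≃+ (Md L.ctx (L.KT ∅) (DS F) Unit).N)
    (hθ : ∀ (f : Forms K τ) (d : DS F) (x : GA F n) (z : Unit),
      (θ f).1 (d, (show L.ctx.GG from x), z) = thf f.1 (d, x, z)) (i : ℕ)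
    (cl : {x : (Fin i → (sysG F n).G) → CGQ.coeff K τ // dC (CGQ.coeff K τ) i x = 0} →
      groupCohomology (CGQ.coeff K τ) i)
    (hadd : ∀ x y z, (∀ g, z.1 g = x.1 g + y.1 g) → cl z = cl x + cl y)
    (hsmul : ∀ (a : O) x z, (∀ g, z.1 g = a • x.1 g) → cl z = a • cl x)
    (hmap : ∀ (f : CGQ.coeff K τ ⟶ CGQ.coeff K τ) x z, (∀ g, z.1 g = f.hom (x.1 g)) →
        ((groupCohomology.functor O (sysG F n).G i).map f).hom (cl x) = cl z)
    (w : Wd n S O) : ∀ x : {x : (Fin i → (sysG F n).G) → CGQ.coeff K τ //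
      dC (CGQ.coeff K τ) i x = 0},
      ∃ y : {y : (Fin i → (sysG F n).G) → CGQ.coeff K τ // dC (CGQ.coeff K τ) i y = 0},
        (∀ g, Sb.vl (t4_x L θ i y.1) g = rt L.ctx (DS F) Unit
          (show MonoidAlgebra L.ctx.O L.ctx.GG from ev n S O w) (Sb.vl (t4_x L θ i x.1) g)) ∧
        CGN.hact K τ hU i (toMv n S O w) (cl x) = cl y := by
  -- a cochain with these values is a cocycle
  have hcoc : ∀ (r : MonoidAlgebra L.ctx.O L.ctx.GG)
      (x : {x : (Fin i → (sysG F n).G) → CGQ.coeff K τ // dC (CGQ.coeff K τ) i x = 0})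
      (y : (Fin i → (sysG F n).G) → CGQ.coeff K τ),
      (∀ g, Sb.vl (t4_x L θ i y) g = rt L.ctx (DS F) Unit r (Sb.vl (t4_x L θ i x.1) g)) →
      dC (CGQ.coeff K τ) i y = 0 := by
    intro r x y h
    apply t4_inj L θ (i + 1)
    rw [← t4_d L θ hθ, t4_zero]
    apply Sb.cx_ext
    intro g
    have h1 : (Md L.ctx (L.KT ∅) (DS F) Unit).cx.d i (t4_x L θ i x.1) = 0 := by
      rw [t4_d L θ hθ, x.2, t4_zero]
    have h2 := congrArg (fun u => Sb.vl u g) h1
    simp only [Sb.vl_d, Sb.vl_zero] at h2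
    rw [Sb.vl_d, Sb.vl_zero, h]
    have h3 := congrArg (rt L.ctx (DS F) Unit r) h2
    rw [map_add, map_sum, map_zero, rt_rho] at h3
    refine Eq.trans ?_ h3
    refine congrArg₂ (· + ·) rfl (Finset.sum_congr rfl fun j _ => ?_)
    rw [map_zsmul, h]
  induction w using FreeAlgebra.induction with
  | grade0 a =>
    intro x
    have h1 : ∀ g, Sb.vl (t4_x L θ i (fun g => (show CGQ.coeff K τ from a • x.1 g))) g =
        rt L.ctx (DS F) Unit (show MonoidAlgebra L.ctx.O L.ctx.GG from
          ev n S O (algebraMap O (Wd n S O) a)) (Sb.vl (t4_x L θ i x.1) g) := by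
      intro g
      have h2 : (show MonoidAlgebra L.ctx.O L.ctx.GG from
          ev n S O (algebraMap O (Wd n S O) a)) =
          algebraMap L.ctx.O (MonoidAlgebra L.ctx.O L.ctx.GG) (show L.ctx.O from a) :=
        (ev n S O).commutes a
      have h3 : rt L.ctx (DS F) Unit (show MonoidAlgebra L.ctx.O L.ctx.GG from
          ev n S O (algebraMap O (Wd n S O) a)) =
          algebraMap L.ctx.O _ (show L.ctx.O from a) :=
        (congrArg (rt L.ctx (DS F) Unit) h2).trans
          (AlgHom.commutes (rt L.ctx (DS F) Unit) (show L.ctx.O from a))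
      rw [h3, Module.algebraMap_end_apply]
      exact t4_smul L θ hθ a (show Forms K τ from x.1 g)
    refine ⟨⟨_, hcoc _ x _ h1⟩, h1, ?_⟩
    have h2 : CGN.hact K τ hU i (toMv n S O (algebraMap O (Wd n S O) a)) = algebraMap O _ a := by
      rw [AlgHom.commutes, AlgHom.commutes]
    rw [h2, Module.algebraMap_end_apply]
    exact (hsmul a x _ fun g => rfl).symm
  | grade1 t =>
    intro x
    have h1 : ∀ g, Sb.vl (t4_x L θ i (fun g => (CGN.heckeHom K τ hU t).hom (x.1 g))) g =
        rt L.ctx (DS F) Unit (show MonoidAlgebra L.ctx.O L.ctx.GG from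
          ev n S O (FreeAlgebra.ι O t)) (Sb.vl (t4_x L θ i x.1) g) := by
      intro g
      rw [ev_ι]
      exact t4_hk hU L θ hθ t (show Forms K τ from x.1 g)
    refine ⟨⟨_, hcoc _ x _ h1⟩, h1, ?_⟩
    rw [toMv_ι, CGN.hact_X]
    exact hmap (CGN.heckeHom K τ hU t) x _ fun g => rfl
  | mul a b ha hb =>
    intro x
    obtain ⟨y, hy, hy2⟩ := hb x
    obtain ⟨y', hy', hy2'⟩ := ha y
    refine ⟨y', fun g => ?_, ?_⟩
    · rw [hy', hy]
      have h1 : (show MonoidAlgebra L.ctx.O L.ctx.GG from ev n S O (a * b)) =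
          (show MonoidAlgebra L.ctx.O L.ctx.GG from ev n S O a) *
            (show MonoidAlgebra L.ctx.O L.ctx.GG from ev n S O b) := map_mul (ev n S O) a b
      rw [h1, map_mul]
      rfl
    · rw [map_mul, map_mul, Module.End.mul_apply, hy2, hy2']
  | add a b ha hb =>
    intro x
    obtain ⟨y, hy, hy2⟩ := ha x
    obtain ⟨y', hy', hy2'⟩ := hb x
    have h1 : ∀ g, Sb.vl (t4_x L θ i (fun g => (show CGQ.coeff K τ from y.1 g + y'.1 g))) g =
        rt L.ctx (DS F) Unit (show MonoidAlgebra L.ctx.O L.ctx.GG from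
          ev n S O (a + b)) (Sb.vl (t4_x L θ i x.1) g) := by
      intro g
      have h2 : (show MonoidAlgebra L.ctx.O L.ctx.GG from ev n S O (a + b)) =
          (show MonoidAlgebra L.ctx.O L.ctx.GG from ev n S O a) +
            (show MonoidAlgebra L.ctx.O L.ctx.GG from ev n S O b) := map_add (ev n S O) a b
      rw [h2, map_add, LinearMap.add_apply, ← hy, ← hy']
      exact congrArg Subtype.val (map_add θ (show Forms K τ from y.1 g) (show Forms K τ from y'.1 g))
    refine ⟨⟨_, hcoc _ x _ h1⟩, h1, ?_⟩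
    rw [map_add, map_add, LinearMap.add_apply, hy2, hy2']
    exact (hadd y y' _ fun g => rfl).symm

/-- Transfer: `exists_theta` is compatible with the actions of `GL_n(F)` (`EE_diag`) and with the Hecke
operators (`EE_sg`); for a cocycle `x` the class `hact (toMv w) (cl x)` is the class of the cocycle
with the values `rt (ev w) (x g)` (induction on the word `w`). -/
theorem dead_transfer {K : Subgroup (sysG F n).A} {τ : Representation O K W}
    (hU : UnramOff K τ (chG F n S)) (L : Lvl F n S O W) (e : K ≃* L.K)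
    (he : ∀ k, ((e k : L.K) : GA F n) = EE F n k.1) (hτ : ∀ k, L.τ (e k) = τ k)
    (m : Ideal (HeckeAlg (F := F) n S O)) (i : ℕ)
    (hdead : DeadM L.ctx (L.KT ∅) (fun r => Good m ∅ (show MonoidAlgebra O (GA F n) from r)) i) :
    CGN.Dead K τ hU i m := by
  obtain ⟨θ, hθ⟩ := exists_theta L e he hτ
  obtain ⟨cl, hsurj, hadd, hsmul, hcob, hmap⟩ := exists_cls (CGQ.coeff K τ) i
  intro z
  obtain ⟨x, rfl⟩ := hsurj z
  have hD : ∀ γ ∈ L.ctx.Γ₁, ∀ d : DS F, γ • d = d := by
    intro γ hγ d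
    have h1 : GeneralLinearGroup.det (show GL (Fin n) F from γ) = 1 := hγ
    have h2 : sgnG F n (show GL (Fin n) F from γ) = 1 := by
      funext w
      have h3 : rdet w (show GL (Fin n) F from γ) = 1 := by
        have h4 : ((show GL (Fin n) F from γ) : Matrix (Fin n) (Fin n) F).det = 1 :=
          congrArg Units.val h1
        rw [rdet, h4, map_one]
      change (if 0 < rdet w (show GL (Fin n) F from γ) then (1 : ℤˣ) else -1) = 1
      rw [h3, if_pos zero_lt_one]
    change (show DS F from (sgnG F n (show GL (Fin n) F from γ) *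
      (show RPl F → ℤˣ from d) : RPl F → ℤˣ)) = d
    rw [h2, one_mul]
  have hx : t4_x L θ i x.1 ∈ (Md L.ctx (L.KT ∅) (DS F) Unit).cx.Zg i := by
    rw [Cx.mem_Zg, t4_d L θ hθ, x.2, t4_zero]
  obtain ⟨r, hr, x', hx', hx2⟩ := hdead (DS F) hD Unit (t4_x L θ i x.1) hx
  obtain ⟨w, hw, hwr, hwm⟩ := hr
  obtain ⟨y, hy, hy2⟩ := t4_word hU L θ hθ i cl hadd hsmul hmap w x
  refine ⟨toMv n S O w, hwm, ?_⟩
  rw [hy2]
  apply hcob
  have h1 : t4_x L θ i y.1 = x' := by
    apply Sb.cx_ext
    intro g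
    rw [hy, hx2]
    exact congrArg (fun r : MonoidAlgebra L.ctx.O L.ctx.GG =>
      rt L.ctx (DS F) Unit r (Sb.vl (t4_x L θ i x.1) g)) hwr
  rcases i with _ | i
  · rw [Cx.mem_Bg_zero] at hx'
    change y.1 = 0
    apply t4_inj L θ 0
    rw [h1, hx', t4_zero]
  · obtain ⟨u, hu⟩ := hx'
    obtain ⟨v, rfl⟩ := t4_surj L θ i u
    refine ⟨v, ?_⟩
    apply t4_inj L θ (i + 1)
    rw [← t4_d L θ hθ, h1]
    exact hu
/- END T4 -/

end Pool.Agent.BRQ
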